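import Pool.Agent.ShghR.Defs
import Pool.Agent.ShghE.Transfer

/-!
# Multiplicity is additive
-/

namespace ShghR

open MvPolynomial ShghE

variable {k : Type*} [Field k]

theorem MultS_iff (a b : k) (m : ℕ) (f : MvPolynomial (Fin 2) k) :
    f ∈ ptIdeal a b ^ m ↔
      (m : ℕ∞) ≤ ((tfShift a b f : MvPolynomial (Fin 2) k) : MvPowerSeries (Fin 2) k).order := by
  rw [ptIdeal, tf_mem_iff]
  constructor
  · intro h
    apply MvPowerSeries.nat_le_order
    intro d hd
    rw [MvPolynomial.coeff_coe]
    exact h d hd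
  · intro h x hx
    rw [← MvPolynomial.coeff_coe]
    apply MvPowerSeries.coeff_of_lt_order
    exact lt_of_lt_of_le (by exact_mod_cast hx) h

/-- Multiplicity is additive. Proof: as in `ShghE/Degen.lean` (private lemmas `mem_pt_iff`,
`mem_vars_iff_order`): translate to the origin with `ShghE.tfShift` (`tf_mem_iff`), membership in the
`m`-th power is `m ≤ MvPowerSeries.order`, and `MvPowerSeries.order_mul`. -/
theorem mem_split (a b : k) {f g : MvPolynomial (Fin 2) k} {m : ℕ}
    (h : f * g ∈ ptIdeal a b ^ m) :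
    ∃ m1 m2 : ℕ, m ≤ m1 + m2 ∧ f ∈ ptIdeal a b ^ m1 ∧ g ∈ ptIdeal a b ^ m2 := by
  rw [MultS_iff, map_mul, MvPolynomial.coe_mul, MvPowerSeries.order_mul] at h
  simp_rw [MultS_iff]
  generalize ((tfShift a b f : MvPolynomial (Fin 2) k) : MvPowerSeries (Fin 2) k).order = o1 at h ⊢
  generalize ((tfShift a b g : MvPolynomial (Fin 2) k) : MvPowerSeries (Fin 2) k).order = o2 at h ⊢
  induction o1 using ENat.recTopCoe with
  | top => exact ⟨m, 0, by omega, le_top, by simp⟩
  | coe o1 =>
    induction o2 using ENat.recTopCoe with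
    | top => exact ⟨0, m, by omega, by simp, le_top⟩
    | coe o2 =>
      refine ⟨o1, o2, ?_, le_rfl, le_rfl⟩
      exact_mod_cast h

end ShghR
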