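import Pool.Agent.ShghR.EInt

/-!
# The special position
-/

namespace ShghR

open MvPolynomial ShghE WeierstrassCurve WeierstrassCurve.Affine

variable {k : Type*} [Field k]

theorem SpecA_point_eq {Z : Fin 10 → Fin 2 → k} (hZ : ∀ i, (E0 k).Nonsingular (Z i 0) (Z i 1))
    {i j : Fin 10} (h : Z i = Z j) :
    (Point.some (Z i 0) (Z i 1) (hZ i) : (E0 k).Point) = Point.some (Z j 0) (Z j 1) (hZ j) := by
  rw [Point.some.injEq]
  exact ⟨congrFun h 0, congrFun h 1⟩

/-- The ten points are distinct. -/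
theorem special_inj [DecidableEq k] (CD : CurveData k) (p : Fin 9 → (E0 k).Point) (g B : ℕ)
    (hI : Indep p CD.E.T B) (hB : g * (g + 1) + 1 ≤ B) (Z : Fin 10 → Fin 2 → k)
    (hZ : ∀ i, (E0 k).Nonsingular (Z i 0) (Z i 1))
    (hp : ∀ i : Fin 9, p i = Point.some (Z i.castSucc 0) (Z i.castSucc 1) (hZ i.castSucc))
    (hz : (Point.some (Z (Fin.last 9) 0) (Z (Fin.last 9) 1) (hZ (Fin.last 9)) : (E0 k).Point) =
      CD.E.T + ((g * (g + 1) : ℕ) : ℤ) • ∑ i, p i) :
    Function.Injective Z := by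
  have hB1 : 1 ≤ B := by omega
  have hpinj := hI.inj hB1
  obtain ⟨N, hN⟩ : ∃ N : ℕ, N = g * (g + 1) := ⟨_, rfl⟩
  rw [← hN] at hz hB
  have key : ∀ i : Fin 9, Z i.castSucc ≠ Z (Fin.last 9) := by
    intro i h
    have h1 : p i = CD.E.T + (N : ℤ) • ∑ i, p i := by
      rw [← hz, hp i]
      exact SpecA_point_eq hZ h
    have h2 := hI (fun l => (if l = i then 1 else 0) - (N : ℤ)) ?_ 1 ?_
    · have e1 := congrFun h2 i
      obtain ⟨l, hl⟩ := exists_ne i
      have e2 := congrFun h2 l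
      simp only [if_true, if_neg hl, Pi.zero_apply] at e1 e2
      omega
    · intro l
      have hB' : (N : ℤ) + 1 ≤ B := by exact_mod_cast hB
      rw [abs_le]
      split_ifs
      · constructor <;> linarith [Int.natCast_nonneg N]
      · constructor <;> linarith [Int.natCast_nonneg N]
    · simp only [sub_smul, Finset.sum_sub_distrib, ite_smul, one_smul, zero_smul,
        Finset.sum_ite_eq', Finset.mem_univ, if_true]
      rw [← Finset.smul_sum, sub_eq_iff_eq_add]
      exact h1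
  intro a b
  refine Fin.lastCases ?_ (fun i => ?_) a
  · refine Fin.lastCases ?_ (fun j => ?_) b
    · intro _
      rfl
    · intro h
      exact absurd h.symm (key j)
  · refine Fin.lastCases ?_ (fun j => ?_) b
    · intro h
      exact absurd h (key i)
    · intro h
      have h1 : p i = p j := by
        rw [hp i, hp j]
        exact SpecA_point_eq hZ h
      rw [hpinj h1]

/-- An irreducible polynomial `L`, not associated to `Geq`, satisfies `Σ ν_i + 1 ≤ 3 deg L`: otherwise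
`e_int` gives the relation `Σ_{i<9} (ν_i + ν_9 g(g+1)) p_i = - ν_9 T`, so that
`ν_i + ν_9 g(g+1) = 0` for `i < 9`; if `g ≥ 1` all `ν_i` vanish, if `g = 0` then `ν_i = 0` for `i < 9` and
`3 deg L = ν_9 ≤ deg L`; in both cases `deg L = 0`. -/
theorem special_kappa [DecidableEq k] (CD : CurveData k) (p : Fin 9 → (E0 k).Point) (g B : ℕ)
    (hI : Indep p CD.E.T B) (Z : Fin 10 → Fin 2 → k)
    (hZ : ∀ i, (E0 k).Nonsingular (Z i 0) (Z i 1)) (hZinj : Function.Injective Z)
    (hp : ∀ i : Fin 9, p i = Point.some (Z i.castSucc 0) (Z i.castSucc 1) (hZ i.castSucc))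
    (hz : (Point.some (Z (Fin.last 9) 0) (Z (Fin.last 9) 1) (hZ (Fin.last 9)) : (E0 k).Point) =
      CD.E.T + ((g * (g + 1) : ℕ) : ℤ) • ∑ i, p i)
    (L : MvPolynomial (Fin 2) k) (hirr : Irreducible L) (hL : ¬ Geq k ∣ L)
    (hB : (g * (g + 1) + 1) * L.totalDegree ≤ B) (ν : Fin 10 → ℕ)
    (hν : ∀ i, L ∈ ptIdeal (Z i 0) (Z i 1) ^ ν i) :
    ∑ i, ν i + 1 ≤ 3 * L.totalDegree := by
  obtain ⟨N, hN⟩ : ∃ N : ℕ, N = g * (g + 1) := ⟨_, rfl⟩
  rw [← hN] at hz hB
  obtain ⟨h1, h2⟩ := e_int CD Z hZ hZinj L hL ν hν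
  by_contra hcon
  have heq : ∑ i, ν i = 3 * L.totalDegree := by omega
  have h3 := h2 heq
  have hL0 : L ≠ 0 := hirr.ne_zero
  have hνd : ∀ i, ν i ≤ L.totalDegree := fun i => le_totalDegree hL0 (hν i)
  rw [Fin.sum_univ_castSucc, hz] at h3
  have h4 : ∑ i : Fin 9, ((ν i.castSucc : ℤ) + (ν (Fin.last 9) : ℤ) * N) • p i =
      (-(ν (Fin.last 9) : ℤ)) • CD.E.T := by
    simp only [add_smul, Finset.sum_add_distrib, mul_smul]
    rw [← Finset.smul_sum, ← Finset.smul_sum]
    have h5 : ∑ i : Fin 9, (ν i.castSucc : ℤ) • p i =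
        ∑ i : Fin 9, (ν i.castSucc : ℤ) • (Point.some (Z i.castSucc 0) (Z i.castSucc 1)
          (hZ i.castSucc) : (E0 k).Point) := Finset.sum_congr rfl fun i _ => by rw [← hp i]
    rw [h5]
    rw [smul_add] at h3
    rw [neg_smul, eq_neg_iff_add_eq_zero]
    rw [← h3]
    abel
  have h6 := hI _ ?_ _ h4
  · have h7 : ∀ i : Fin 9, ν i.castSucc = 0 := by
      intro i
      have := congrFun h6 i
      simp only [Pi.zero_apply] at this
      have e1 : (0 : ℤ) ≤ (ν (Fin.last 9) : ℤ) * N := by positivity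
      have e2 : (0 : ℤ) ≤ (ν i.castSucc : ℤ) := by positivity
      omega
    rw [Fin.sum_univ_castSucc, Finset.sum_eq_zero (fun i _ => h7 i), zero_add] at heq
    have h8 := hνd (Fin.last 9)
    have h9 : L.totalDegree = 0 := by omega
    rw [totalDegree_eq_zero_iff_eq_C] at h9
    apply hirr.not_isUnit
    rw [h9]
    refine IsUnit.map C (isUnit_iff_ne_zero.mpr ?_)
    intro h
    rw [h, map_zero] at h9
    exact hL0 h9
  · intro i
    have e1 := hνd i.castSucc
    have e2 := hνd (Fin.last 9)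
    have e3 : ν i.castSucc + ν (Fin.last 9) * N ≤ B := by
      calc ν i.castSucc + ν (Fin.last 9) * N ≤ L.totalDegree + L.totalDegree * N :=
            Nat.add_le_add e1 (Nat.mul_le_mul_right _ e2)
        _ = (N + 1) * L.totalDegree := by ring
        _ ≤ B := hB
    have e4 : (0 : ℤ) ≤ (ν i.castSucc : ℤ) + (ν (Fin.last 9) : ℤ) * N := by positivity
    rw [abs_of_nonneg e4]
    exact_mod_cast e3

end ShghR
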