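import Pool.Agent.ShghR.Genus
import Pool.Agent.ShghR.SpecA
import Pool.Agent.ShghR.MultS
import Pool.Agent.ShghE.Degen
import Pool.Agent.ShghE.CurveA

/-!
# Nefness in the special position

Nine points `p_i` of the cubic, independent up to `B`, and `z = T + g(g+1) Σ p_i`. A class `D` with
`m_i ≥ 0`, `K·D ≤ 0` which is nonnegative on all classes of positive expected dimension (`NumNef`) is
nonnegative on all curves of degree `δ` with `(g(g+1)+1) δ ≤ B`.
-/

namespace ShghR

open MvPolynomial ShghE WeierstrassCurve WeierstrassCurve.Affine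

variable {k : Type*} [Field k]

private theorem NefSpec_irr [IsAlgClosed k] [DecidableEq k] (h2 : (2 : k) ≠ 0) (CD : CurveData k)
    (p : Fin 9 → (E0 k).Point) (g B : ℕ) (hI : Indep p CD.E.T B) (Z : Fin 10 → Fin 2 → k)
    (hZ : ∀ i, (E0 k).Nonsingular (Z i 0) (Z i 1)) (hZinj : Function.Injective Z)
    (hp : ∀ i : Fin 9, p i = Point.some (Z i.castSucc 0) (Z i.castSucc 1) (hZ i.castSucc))
    (hz : (Point.some (Z (Fin.last 9) 0) (Z (Fin.last 9) 1) (hZ (Fin.last 9)) : (E0 k).Point) =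
      CD.E.T + ((g * (g + 1) : ℕ) : ℤ) • ∑ i, p i)
    (d : ℝ) (m : Fin 10 → ℝ) (hm : ∀ i, 0 ≤ m i) (hK : ∑ i, m i ≤ 3 * d) (hN : NumNef d m)
    (L : MvPolynomial (Fin 2) k) (hirr : Irreducible L)
    (hB : (g * (g + 1) + 1) * L.totalDegree ≤ B) (ν : Fin 10 → ℕ)
    (hν : ∀ i, L ∈ ptIdeal (Z i 0) (Z i 1) ^ ν i) :
    ∑ i, m i * ν i ≤ d * L.totalDegree := by
  by_cases hG : Geq k ∣ L
  · obtain ⟨u, hu⟩ := hG
    have hGu : ¬ IsUnit (Geq k) := by
      intro h
      have h1 := (MvPolynomial.isUnit_iff_totalDegree_of_isReduced.1 h).2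
      have h3 := totalDegree_Geq_pow_mul (k := k) 1 (g := 1) one_ne_zero
      simp at h3
      omega
    have huu : IsUnit u := (hirr.isUnit_or_isUnit hu).resolve_left hGu
    have hu0 : u.totalDegree = 0 := (MvPolynomial.isUnit_iff_totalDegree_of_isReduced.1 huu).2
    have hdeg : L.totalDegree = 3 := by
      have h3 := totalDegree_Geq_pow_mul (k := k) 1 (g := u) huu.ne_zero
      rw [pow_one, ← hu, hu0] at h3
      simpa using h3
    have h1 : ∀ i, ν i ≤ 1 := by
      intro i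
      have h3 := colon (k := k) h2 (eq_of_nonsingular (hZ i)) 1 (ν i) (g := u)
        (by rw [pow_one, ← hu]; exact hν i)
      have h4 := ShghE.le_totalDegree huu.ne_zero h3
      omega
    rw [hdeg]
    have h5 : ∑ i, m i * (ν i : ℝ) ≤ ∑ i, m i := by
      apply Finset.sum_le_sum
      intro i _
      have h6 : (ν i : ℝ) ≤ 1 := by exact_mod_cast h1 i
      nlinarith [hm i]
    push_cast
    linarith
  · have h1 := special_kappa CD p g B hI Z hZ hZinj hp hz L hirr hG hB ν hν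
    have h3 := genus Z hZinj ν L hirr hν
    apply hN
    have h4 : ∑ i, (ν i : ℤ) * (ν i + 1) = ∑ i, (ν i : ℤ) * (ν i - 1) + 2 * ∑ i, (ν i : ℤ) := by
      rw [Finset.mul_sum, ← Finset.sum_add_distrib]
      apply Finset.sum_congr rfl
      intro i _
      ring
    have h5 : (∑ i, (ν i : ℤ)) + 1 ≤ 3 * L.totalDegree := by exact_mod_cast h1
    have h6 : ∑ i, (ν i : ℤ) * (ν i + 1) < ((L.totalDegree : ℤ) + 1) * (L.totalDegree + 2) := by
      rw [h4]
      nlinarith
    exact_mod_cast h6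

/-- For `L` as in `special_kappa` the genus inequality gives
`Σ ν_i (ν_i + 1) ≤ (a-1)(a-2) + 2 (3 a - 1) = a² + 3 a < (a+1)(a+2)`, `a = deg L`, so that
`Σ m_i ν_i ≤ d a` by `NumNef`. `Geq` has multiplicity exactly one at the points (`colon`,
`le_totalDegree`), so `Σ m_i ν_i ≤ Σ m_i ≤ 3 d`. Products: `mem_split` and additivity of the degree
(`WfDvdMonoid.induction_on_irreducible`); constants are trivial. -/
theorem nef_spec [IsAlgClosed k] [DecidableEq k] (h2 : (2 : k) ≠ 0) (CD : CurveData k)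
    (p : Fin 9 → (E0 k).Point) (g B : ℕ) (hI : Indep p CD.E.T B) (Z : Fin 10 → Fin 2 → k)
    (hZ : ∀ i, (E0 k).Nonsingular (Z i 0) (Z i 1))
    (hp : ∀ i : Fin 9, p i = Point.some (Z i.castSucc 0) (Z i.castSucc 1) (hZ i.castSucc))
    (hz : (Point.some (Z (Fin.last 9) 0) (Z (Fin.last 9) 1) (hZ (Fin.last 9)) : (E0 k).Point) =
      CD.E.T + ((g * (g + 1) : ℕ) : ℤ) • ∑ i, p i)
    (d : ℝ) (m : Fin 10 → ℝ) (hm : ∀ i, 0 ≤ m i) (hK : ∑ i, m i ≤ 3 * d) (hN : NumNef d m)
    (f : MvPolynomial (Fin 2) k) (hf : f ≠ 0) (δ : ℕ) (hδ : f.totalDegree ≤ δ)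
    (hB : (g * (g + 1) + 1) * (δ + 1) ≤ B) (μ : Fin 10 → ℕ)
    (hμ : ∀ i, f ∈ ptIdeal (Z i 0) (Z i 1) ^ μ i) :
    ∑ i, m i * μ i ≤ d * δ := by
  have hB1 : g * (g + 1) + 1 ≤ B := by nlinarith
  have hZinj := special_inj CD p g B hI hB1 Z hZ hp hz
  have hd : 0 ≤ d := by
    have : 0 ≤ ∑ i, m i := Finset.sum_nonneg fun i _ => hm i
    linarith
  have key : ∀ f : MvPolynomial (Fin 2) k, f ≠ 0 → (g * (g + 1) + 1) * f.totalDegree ≤ B →
      ∀ μ : Fin 10 → ℕ, (∀ i, f ∈ ptIdeal (Z i 0) (Z i 1) ^ μ i) →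
      ∑ i, m i * μ i ≤ d * f.totalDegree := by
    intro f
    induction f using WfDvdMonoid.induction_on_irreducible with
    | zero => intro h; exact absurd rfl h
    | unit u hu =>
      intro hu1 _ μ hμ
      have hu0 : u.totalDegree = 0 := (MvPolynomial.isUnit_iff_totalDegree_of_isReduced.1 hu).2
      have h1 : ∀ i, μ i = 0 := by
        intro i
        have := ShghE.le_totalDegree hu1 (hμ i)
        omega
      simp [h1, hu0]
    | mul a q ha hq ih =>
      intro _ hB μ hμ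
      have hdeg : (q * a).totalDegree = q.totalDegree + a.totalDegree :=
        totalDegree_mul_of_isDomain hq.ne_zero ha
      have hsp := fun i => mem_split (Z i 0) (Z i 1) (hμ i)
      choose m1 m2 h1 h3 h4 using hsp
      rw [hdeg] at hB
      have hq1 := NefSpec_irr h2 CD p g B hI Z hZ hZinj hp hz d m hm hK hN q hq
        (le_trans (Nat.mul_le_mul_left _ (by omega)) hB) m1 h3
      have ha1 := ih ha (le_trans (Nat.mul_le_mul_left _ (by omega)) hB) m2 h4
      rw [hdeg]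
      have h5 : ∑ i, m i * (μ i : ℝ) ≤ ∑ i, m i * (m1 i : ℝ) + ∑ i, m i * (m2 i : ℝ) := by
        rw [← Finset.sum_add_distrib]
        apply Finset.sum_le_sum
        intro i _
        have h6 : (μ i : ℝ) ≤ m1 i + m2 i := by exact_mod_cast h1 i
        nlinarith [hm i]
      push_cast
      nlinarith
  have h1 := key f hf (le_trans (Nat.mul_le_mul_left _ (by omega)) hB) μ hμ
  have h3 : (f.totalDegree : ℝ) ≤ δ := by exact_mod_cast hδ
  nlinarith

end ShghR
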