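import Pool.Agent.ShghR.Defs

/-!
# Classes orthogonal to the canonical class
-/

namespace ShghR

theorem Perp_cs {n : ℕ} (x y : Fin n → ℝ) (d a : ℝ) (hd : 0 ≤ d) (ha : 0 ≤ a)
    (hx : ∑ i, x i ^ 2 ≤ d ^ 2) (hy : ∑ i, y i ^ 2 ≤ a ^ 2) : ∑ i, x i * y i ≤ d * a := by
  have h1 := Finset.sum_mul_sq_le_sq_mul_sq Finset.univ x y
  have h2 : (∑ i, x i * y i) ^ 2 ≤ (d * a) ^ 2 := by
    rw [mul_pow]
    refine h1.trans (mul_le_mul hx hy (Finset.sum_nonneg fun i _ => sq_nonneg _) (sq_nonneg _))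
  exact le_of_sq_le_sq h2 (mul_nonneg hd ha)

theorem Perp_sum {ι : Type*} (s : Finset ι) (x : ι → ℝ) (d : ℝ) (hd : 0 ≤ d) (hs : s.card = 9)
    (hx : ∑ i ∈ s, x i ^ 2 ≤ d ^ 2) : ∑ i ∈ s, x i ≤ 3 * d := by
  have h1 := Finset.sum_mul_sq_le_sq_mul_sq s (fun _ => (1 : ℝ)) x
  simp only [one_mul, one_pow, Finset.sum_const, hs, nsmul_eq_mul, mul_one] at h1
  push_cast at h1
  have h2 : (∑ i ∈ s, x i) ^ 2 ≤ (3 * d) ^ 2 := by nlinarith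
  exact le_of_sq_le_sq h2 (by linarith)

/-- `D = (d; m)` with `K·D = 0`, `D² ≥ 0`, `d ≥ 0` is nonnegative on all classes `L = (a; ν)` of positive
expected dimension. Let `κ = 3a - Σ ν_i` (an integer), `L² = a² - Σ ν_i²`; the hypothesis is
`L² + κ ≥ 0` (an integer, `2 χ(L) - 2 ≥ 0`). If `κ ≤ 0` then `L² ≥ 0` and `D·L ≥ 0` by Cauchy-Schwarz
(`Σ m_i ν_i ≤ |m| |ν| ≤ d a`). If `κ ≥ 1` then `u = (a + 3κ; ν_i + κ)` satisfies `D·u = D·L`,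
`u² = L² + κ² ≥ κ² - κ ≥ 0`, `a + 3κ ≥ 0`; again Cauchy-Schwarz. -/
theorem numNef_perp (d : ℝ) (m : Fin 10 → ℝ) (hd : 0 ≤ d) (hK : ∑ i, m i = 3 * d)
    (hsq : ∑ i, m i ^ 2 ≤ d ^ 2) : NumNef d m := by
  intro a ν h
  have hpar : ∑ i, ν i * (ν i + 1) + 2 ≤ (a + 1) * (a + 2) := by
    have h1 : Even (∑ i, ν i * (ν i + 1)) :=
      Finset.sum_induction _ Even (fun _ _ => Even.add) Even.zero
        (fun i _ => Nat.even_mul_succ_self (ν i))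
    have h2 : Even ((a + 1) * (a + 2)) := Nat.even_mul_succ_self (a + 1)
    obtain ⟨x, hx⟩ := h1
    obtain ⟨y, hy⟩ := h2
    omega
  have hL : (0 : ℝ) ≤ a ^ 2 - ∑ i, (ν i : ℝ) ^ 2 + (3 * a - ∑ i, (ν i : ℝ)) := by
    have h1 : ((∑ i, ν i * (ν i + 1) + 2 : ℕ) : ℝ) ≤ (((a + 1) * (a + 2) : ℕ) : ℝ) := by
      exact_mod_cast hpar
    push_cast at h1
    have h2 : ∑ i, (ν i : ℝ) * ((ν i : ℝ) + 1) = ∑ i, (ν i : ℝ) ^ 2 + ∑ i, (ν i : ℝ) := by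
      rw [← Finset.sum_add_distrib]
      exact Finset.sum_congr rfl fun i _ => by ring
    rw [h2] at h1
    linarith
  by_cases hκ : (3 * a : ℕ) ≤ ∑ i, ν i
  · have h1 : (3 * a : ℝ) ≤ ∑ i, (ν i : ℝ) := by exact_mod_cast hκ
    exact Perp_cs m (fun i => (ν i : ℝ)) d a hd (Nat.cast_nonneg a) hsq (by linarith)
  · have h1 : (1 : ℝ) ≤ 3 * a - ∑ i, (ν i : ℝ) := by
      have h2 : ∑ i, ν i + 1 ≤ 3 * a := by omega
      have h3 : ((∑ i, ν i + 1 : ℕ) : ℝ) ≤ ((3 * a : ℕ) : ℝ) := by exact_mod_cast h2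
      push_cast at h3
      linarith
    set κ : ℝ := 3 * a - ∑ i, (ν i : ℝ) with hκd
    have ha : (0 : ℝ) ≤ a := Nat.cast_nonneg a
    have h2 : ∑ i, ((ν i : ℝ) + κ) ^ 2 = ∑ i, (ν i : ℝ) ^ 2 + 2 * κ * ∑ i, (ν i : ℝ) + 10 * κ ^ 2 := by
      have : ∀ i, ((ν i : ℝ) + κ) ^ 2 = (ν i : ℝ) ^ 2 + 2 * κ * (ν i : ℝ) + κ ^ 2 := fun i => by ring
      simp_rw [this]
      rw [Finset.sum_add_distrib, Finset.sum_add_distrib, ← Finset.mul_sum, Finset.sum_const,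
        Finset.card_univ, Fintype.card_fin, nsmul_eq_mul]
      push_cast
      ring
    have hν : ∑ i, (ν i : ℝ) = 3 * a - κ := by rw [hκd]; ring
    have h3 := Perp_cs m (fun i => (ν i : ℝ) + κ) d (a + 3 * κ) hd (by linarith) hsq (by
      rw [h2, hν]
      nlinarith)
    have h4 : ∑ i, m i * ((ν i : ℝ) + κ) = ∑ i, m i * (ν i : ℝ) + κ * ∑ i, m i := by
      rw [Finset.mul_sum, ← Finset.sum_add_distrib]
      exact Finset.sum_congr rfl fun i _ => by ring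
    rw [h4, hK] at h3
    linarith

/-- With the same hypotheses `m_i ≥ 0`: `m_i = 3d - Σ_{j≠i} m_j` and
`Σ_{j≠i} m_j ≤ 3 (Σ_{j≠i} m_j²)^(1/2) ≤ 3 d`. -/
theorem nonneg_perp (d : ℝ) (m : Fin 10 → ℝ) (hd : 0 ≤ d) (hK : ∑ i, m i = 3 * d)
    (hsq : ∑ i, m i ^ 2 ≤ d ^ 2) (i : Fin 10) : 0 ≤ m i := by
  have h1 : ∑ j ∈ Finset.univ.erase i, m j ≤ 3 * d := by
    apply Perp_sum _ _ _ hd
    · rw [Finset.card_erase_of_mem (Finset.mem_univ i), Finset.card_univ, Fintype.card_fin]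
    · refine le_trans (Finset.sum_le_sum_of_subset_of_nonneg (Finset.erase_subset _ _) ?_) hsq
      intro j _ _
      exact sq_nonneg _
  have h2 := Finset.add_sum_erase Finset.univ m (Finset.mem_univ i)
  linarith

/-- Nonnegative self-intersection and `e = 3d - Σ_{i<9} m_i ≥ 0`, `D² ≥ 0` imply `d ≥ 0` unless `e = 0`:
if `d < 0` then `e ≤ 3 d + 3 |d| = 0`. -/
theorem deg_nonneg (d : ℝ) (m : Fin 9 → ℝ) (x : ℝ) (he : 0 < 3 * d - ∑ i, m i)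
    (hsq : ∑ i, m i ^ 2 + x ^ 2 ≤ d ^ 2) : 0 ≤ d := by
  by_contra hcon
  push Not at hcon
  have h1 : ∑ i, -m i ≤ 3 * (-d) := by
    apply Perp_sum _ _ _ (by linarith)
    · rw [Finset.card_univ, Fintype.card_fin]
    · have h2 : ∑ i, (-m i) ^ 2 = ∑ i, m i ^ 2 := Finset.sum_congr rfl fun i _ => by ring
      rw [h2, neg_sq]
      linarith [sq_nonneg x]
  rw [Finset.sum_neg_distrib] at h1
  linarith

end ShghR
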