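import Pool.Agent.ShghE.Transfer

/-!
# Transfer to the special position, with nonzero constant term
-/

namespace ShghR

open MvPolynomial ShghE

/-- division of a vector of polynomials by the largest common power of the variable -/
theorem TransferR_divide {k ι I Y : Type*} [Field k] [Fintype ι] (c : ι → Polynomial k) (hc0 : c ≠ 0)
    (M : I → Y → ι → Polynomial k) (R : I → Y → Prop)
    (hc : ∀ i x, R i x → ∑ e, M i x e * c e = 0) :
    ∃ c₁ : ι → Polynomial k, (∃ e, (c₁ e).coeff 0 ≠ 0) ∧
      ∀ i x, R i x → ∑ e, M i x e * c₁ e = 0 := by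
  classical
  obtain ⟨e1, he1⟩ := Function.ne_iff.1 hc0
  have hne : (Finset.univ.filter fun e => c e ≠ 0).Nonempty := ⟨e1, by simpa using he1⟩
  obtain ⟨e0, he0, hmin⟩ := Finset.exists_min_image _ (fun e => (c e).natTrailingDegree) hne
  have he0' : c e0 ≠ 0 := by simpa using he0
  set N := (c e0).natTrailingDegree with hN
  have hdvd : ∀ e, (Polynomial.X : Polynomial k) ^ N ∣ c e := by
    intro e
    by_cases h : c e = 0
    · rw [h]
      exact dvd_zero _
    · rw [Polynomial.X_pow_dvd_iff]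
      intro d hd
      exact Polynomial.coeff_eq_zero_of_lt_natTrailingDegree
        (lt_of_lt_of_le hd (hmin e (by simpa using h)))
  choose c₁ hc₁ using hdvd
  refine ⟨c₁, ⟨e0, ?_⟩, fun i x hx => ?_⟩
  · have h1 : (c e0).coeff N ≠ 0 := Polynomial.trailingCoeff_nonzero_iff_nonzero.2 he0'
    rw [hc₁ e0] at h1
    have h2 := Polynomial.coeff_X_pow_mul (c₁ e0) N 0
    rw [zero_add] at h2
    rwa [h2] at h1
  · have h1 := hc i x hx
    have h2 : ∑ e, M i x e * c e = Polynomial.X ^ N * ∑ e, M i x e * c₁ e := by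
      rw [Finset.mul_sum]
      refine Finset.sum_congr rfl fun e _ => ?_
      rw [hc₁ e]
      ring
    rw [h2] at h1
    exact (mul_eq_zero.1 h1).resolve_left (pow_ne_zero _ Polynomial.X_ne_zero)

/-- The same as `ShghE.transfer_special` with the additional information `f.coeff 0 ≠ 0`. In the proof of
`transfer_special` divide the coefficient vector `c : tfS δ → k[ξ]` by the largest common power of `ξ`
(the linear system over the domain `k[ξ]` is preserved). -/
theorem transfer_special0 {F k : Type*} [Field F] [Field k] [Algebra F k] (P : Fin 10 → Fin 2 → k)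
    (hP : AlgebraicIndependent F (fun ij : Fin 10 × Fin 2 => P ij.1 ij.2))
    (Q : Fin 9 → Fin 2 → k) (v0 : k) (δ : ℕ) (μ : Fin 10 → ℕ)
    (h : ∃ f : MvPolynomial (Fin 2) k, f ≠ 0 ∧ f.totalDegree ≤ δ ∧
      ∀ i, f ∈ ptIdeal (P i 0) (P i 1) ^ μ i) :
    ∃ f : Polynomial (MvPolynomial (Fin 2) k), f.coeff 0 ≠ 0 ∧
      (∀ l, (f.coeff l).totalDegree ≤ δ) ∧
      (∀ l, ∀ i : Fin 9, f.coeff l ∈ ptIdeal (Q i 0) (Q i 1) ^ μ i.castSucc) ∧
      f ∈ (Ideal.span {Polynomial.C (MvPolynomial.X 0) + Polynomial.C (MvPolynomial.C v0) *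
        Polynomial.X, Polynomial.C (MvPolynomial.X 1)} :
        Ideal (Polynomial (MvPolynomial (Fin 2) k))) ^ μ (Fin.last 9) := by
  classical
  -- the special points over `k[ξ]`
  let P' : Fin 10 → Fin 2 → Polynomial k :=
    Fin.snoc (α := fun _ => Fin 2 → Polynomial k) (fun i j => Polynomial.C (Q i j))
      ![-(Polynomial.C v0 * Polynomial.X), 0]
  have hP'1 : ∀ (i : Fin 9) j, P' i.castSucc j = Polynomial.C (Q i j) := fun i j => by
    simp [P']
  have hP'0 : P' (Fin.last 9) = ![-(Polynomial.C v0 * Polynomial.X), 0] := Fin.snoc_last _ _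
  have hP'2 : P' (Fin.last 9) 0 = -(Polynomial.C v0 * Polynomial.X) := by rw [hP'0]; rfl
  have hP'3 : P' (Fin.last 9) 1 = 0 := by rw [hP'0]; rfl
  let K := FractionRing (Polynomial k)
  obtain ⟨c', hc'0, hc'⟩ := tf_system (k' := K) P hP
    (fun i j => algebraMap (Polynomial k) K (P' i j)) δ μ h
  -- clear denominators
  obtain ⟨d, hd⟩ := IsLocalization.exist_integer_multiples_of_finite
    (nonZeroDivisors (Polynomial k)) c'
  choose c hcd using hd
  have hinj : Function.Injective (algebraMap (Polynomial k) K) := IsFractionRing.injective _ _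
  have hd0 : algebraMap (Polynomial k) K d ≠ 0 := by
    rw [Ne, map_eq_zero_iff _ hinj]
    exact nonZeroDivisors.coe_ne_zero d
  have hcd' : ∀ e, algebraMap (Polynomial k) K (c e) = algebraMap (Polynomial k) K d * c' e := by
    intro e
    rw [hcd e, Algebra.smul_def]
  have hc0 : c ≠ 0 := by
    intro h0
    apply hc'0
    ext e
    have h1 := hcd' e
    rw [h0, Pi.zero_apply, map_zero] at h1
    exact (mul_eq_zero.1 h1.symm).resolve_left hd0
  have hc : ∀ i, ∀ x : Fin 2 →₀ ℕ, x.degree < μ i →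
      ∑ e : tfS δ, tfM (P' i 0) (P' i 1) e x * c e = 0 := by
    intro i x hx
    apply hinj
    rw [map_zero, map_sum]
    have h1 := hc' i x hx
    have h2 : ∀ e : tfS δ, algebraMap (Polynomial k) K (tfM (P' i 0) (P' i 1) e x * c e) =
        algebraMap (Polynomial k) K d *
          (tfM (algebraMap (Polynomial k) K (P' i 0)) (algebraMap (Polynomial k) K (P' i 1)) e x *
            c' e) := by
      intro e
      rw [map_mul, ← tfM_map, hcd' e]
      ring
    simp only [h2]
    rw [← Finset.mul_sum, h1, mul_zero]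
  -- divide by the largest common power of `ξ`
  obtain ⟨c₁, hc₁0, hc₁⟩ := TransferR_divide c hc0 (fun i x e => tfM (P' i 0) (P' i 1) e x)
    (fun i x => x.degree < μ i) hc
  -- the polynomial
  let Φ : MvPolynomial (Fin 2) (Polynomial k) →+* Polynomial (MvPolynomial (Fin 2) k) :=
    eval₂Hom (Polynomial.mapRingHom C) (fun i => Polynomial.C (X i))
  let G : MvPolynomial (Fin 2) (Polynomial k) := ∑ e : tfS δ, monomial (e : Fin 2 →₀ ℕ) (c₁ e)
  have hΦmon : ∀ (e : Fin 2 →₀ ℕ) (p : Polynomial k) l,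
      (Φ (monomial e p)).coeff l = monomial e (p.coeff l) := by
    intro e p l
    have h1 : Φ (monomial e p) = Polynomial.map C p * Polynomial.C (monomial e 1) := by
      simp only [Φ]
      rw [coe_eval₂Hom, eval₂_monomial]
      congr 1
      rw [monomial_eq, C_1, one_mul, Finsupp.prod, Finsupp.prod, map_prod]
      simp
    rw [h1, Polynomial.coeff_mul_C, Polynomial.coeff_map, C_mul_monomial, mul_one]
  have hcoeff : ∀ l, (Φ G).coeff l = ∑ e : tfS δ, monomial (e : Fin 2 →₀ ℕ) ((c₁ e).coeff l) := by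
    intro l
    simp only [G]
    rw [map_sum, Polynomial.finsetSum_coeff]
    exact Finset.sum_congr rfl fun e _ => hΦmon _ _ _
  refine ⟨Φ G, fun h0 => ?_, fun l => ?_, fun l i => ?_, ?_⟩
  · obtain ⟨e, he⟩ := hc₁0
    apply he
    have h1 := hcoeff 0
    rw [h0] at h1
    have h2 := tf_sum_coeff (fun e => (c₁ e).coeff 0) e
    rw [← h1, coeff_zero] at h2
    exact h2.symm
  · rw [hcoeff]
    exact tf_sum_degree _
  · refine (tf_mem_iff _ _ _ _).2 fun x hx => ?_
    rw [hcoeff, tf_coeff]
    have h1 := congrArg (fun p => Polynomial.coeff p l) (hc₁ i.castSucc x hx)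
    simp only [hP'1, tfM_map, Polynomial.finsetSum_coeff, Polynomial.coeff_C_mul,
      Polynomial.coeff_zero] at h1
    exact h1
  · have h1 : G ∈ (Ideal.span {X 0 - C (P' (Fin.last 9) 0), X 1 - C (P' (Fin.last 9) 1)} :
        Ideal (MvPolynomial (Fin 2) (Polynomial k))) ^ μ (Fin.last 9) := by
      refine (tf_mem_iff _ _ _ _).2 fun x hx => ?_
      rw [tf_coeff]
      exact hc₁ (Fin.last 9) x hx
    have h2 := Ideal.mem_map_of_mem Φ h1
    rw [Ideal.map_pow] at h2
    refine Ideal.pow_right_mono ?_ _ h2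
    rw [Ideal.map_span, Ideal.span_le]
    rintro _ ⟨g, hg, rfl⟩
    rcases hg with rfl | rfl
    · have h3 : Φ (X 0 - C (P' (Fin.last 9) 0)) = Polynomial.C (MvPolynomial.X 0) +
          Polynomial.C (MvPolynomial.C v0) * Polynomial.X := by
        rw [hP'2]
        simp [Φ]
      rw [h3]
      exact Ideal.subset_span (Or.inl rfl)
    · have h3 : Φ (X 1 - C (P' (Fin.last 9) 1)) = Polynomial.C (MvPolynomial.X 1) := by
        rw [hP'3]
        simp [Φ]
      rw [h3]
      exact Ideal.subset_span (Or.inr rfl)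

end ShghR
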