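import Pool.Agent.ShghR.MultEnd
import Pool.Agent.ShghR.TransferR

/-!
# The degeneration
-/

namespace ShghR

open MvPolynomial ShghE WeierstrassCurve WeierstrassCurve.Affine

variable {k : Type*} [Field k]

/-- Setting `ξ = 0`: the case `g = 0`, `z = T = (0, 0)`. -/
theorem mult_zero (h2 : (2 : k) ≠ 0) (v0 : k) (f : Polynomial (MvPolynomial (Fin 2) k)) (μ : ℕ)
    (hmove : f ∈ (Ideal.span {Polynomial.C (MvPolynomial.X 0) +
        Polynomial.C (MvPolynomial.C v0) * Polynomial.X, Polynomial.C (MvPolynomial.X 1)} :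
        Ideal (Polynomial (MvPolynomial (Fin 2) k))) ^ μ)
    (w : ℕ) (gg : ℕ → MvPolynomial (Fin 2) k)
    (hgg : ∀ l, l ≤ w → f.coeff l = Geq k ^ (w - l) * gg l) :
    gg 0 ∈ ptIdeal (0 : k) 0 ^ (μ - w) := by
  have h1 : f.coeff 0 ∈ ptIdeal (0 : k) 0 ^ μ := by
    have h3 := Ideal.mem_map_of_mem Polynomial.constantCoeff hmove
    rw [Ideal.map_pow] at h3
    have h4 : Polynomial.constantCoeff f = f.coeff 0 := rfl
    rw [h4] at h3
    refine Ideal.pow_right_mono ?_ μ h3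
    rw [Ideal.map_span, Ideal.span_le]
    rintro _ ⟨y, hy, rfl⟩
    rcases hy with rfl | rfl
    · have e : Polynomial.constantCoeff (Polynomial.C (MvPolynomial.X 0) +
          Polynomial.C (MvPolynomial.C v0) * Polynomial.X :
          Polynomial (MvPolynomial (Fin 2) k)) = X 0 - C 0 := by
        simp
      rw [SetLike.mem_coe, e]
      exact Ideal.subset_span (Or.inl rfl)
    · have e : Polynomial.constantCoeff (Polynomial.C (MvPolynomial.X 1) :
          Polynomial (MvPolynomial (Fin 2) k)) = X 1 - C 0 := by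
        simp
      rw [SetLike.mem_coe, e]
      exact Ideal.subset_span (Or.inr rfl)
  have h5 := hgg 0 (Nat.zero_le _)
  rw [Nat.sub_zero] at h5
  rw [h5] at h1
  exact colon h2 (by simp) w μ h1

private theorem CoreR_some {a b a' b' : k} (h : (E0 k).Nonsingular a b)
    (h' : (E0 k).Nonsingular a' b') (ea : a = a') (eb : b = b') :
    (Point.some a b h : (E0 k).Point) = Point.some a' b' h' := by
  subst ea eb
  rfl

private theorem CoreR_coords [DecidableEq k] {z : (E0 k).Point} (hz : z ≠ 0) :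
    ∃ (a b : k) (h : (E0 k).Nonsingular a b), z = .some a b h := by
  rcases z with _ | ⟨a, b, h⟩
  · exact absurd rfl hz
  · exact ⟨a, b, h, rfl⟩

/-- The result of the degeneration, for given `g ≥ 0`, `q ≥ 1` and any bound `B` for the independence
of the special points. Combine `ShghE.core` (its proof), `transfer_special0`, `exists_w`, `mult_end`,
`mult_zero` and `EField.sec_even` (for the last inequality, `natDegree (Om f w) ≤ w`). -/
theorem coreR [IsAlgClosed k] [DecidableEq k] (h2 : (2 : k) ≠ 0)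
    (P : Fin 10 → Fin 2 → k)
    (hP : AlgebraicIndependent (⊥ : Subfield k) (fun ij : Fin 10 × Fin 2 => P ij.1 ij.2))
    (f : MvPolynomial (Fin 2) k) (hf : f ≠ 0) (δ : ℕ) (hdeg : f.totalDegree ≤ δ) (μ : Fin 10 → ℕ)
    (hμ : ∀ i, f ∈ ptIdeal (P i 0) (P i 1) ^ μ i) (g q : ℕ) (hq : 1 ≤ q) (B : ℕ) :
    ∃ (CD : CurveData2 k) (p : Fin 9 → (E0 k).Point) (Z : Fin 10 → Fin 2 → k)
      (hZ : ∀ i, (E0 k).Nonsingular (Z i 0) (Z i 1)),
      Indep p CD.E.T B ∧
      (∀ i : Fin 9, p i = Point.some (Z i.castSucc 0) (Z i.castSucc 1) (hZ i.castSucc)) ∧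
      (Point.some (Z (Fin.last 9) 0) (Z (Fin.last 9) 1) (hZ (Fin.last 9)) : (E0 k).Point) =
        CD.E.T + ((g * (g + 1) : ℕ) : ℤ) • ∑ i, p i ∧
      ∃ (w : ℕ) (g0 : MvPolynomial (Fin 2) k) (c : ℕ), g0 ≠ 0 ∧ g0.totalDegree + 3 * w ≤ δ ∧
        (∀ i : Fin 9, g0 ∈ ptIdeal (Z i.castSucc 0) (Z i.castSucc 1) ^ (μ i.castSucc - w)) ∧
        g0 ∈ ptIdeal (Z (Fin.last 9) 0) (Z (Fin.last 9) 1) ^ c ∧
        (2 * g + 1) * (μ (Fin.last 9) : ℤ) -
          2 * g * (g + 1) * (3 * (δ : ℤ) - ∑ i : Fin 9, (μ i.castSucc : ℤ)) - w ≤ c ∧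
        2 * (q : ℤ) * μ (Fin.last 9) ≤
          2 * (q : ℤ) ^ 2 * (3 * (δ : ℤ) - ∑ i : Fin 9, (μ i.castSucc : ℤ)) + w := by
  classical
  obtain ⟨CD⟩ := exists_curveData2 (k := k) h2
  obtain ⟨B1, hB1⟩ : ∃ B1 : ℕ, B1 = 2 * g * (g + 1) + 2 * q * (q + 1) + δ + 1 := ⟨_, rfl⟩
  obtain ⟨p, hI'⟩ := exists_indep (k := k) h2 CD.E.T CD.E.T_two (B + B1)
  have hI : Indep p CD.E.T (B + B1) := hI'
  have hBB : 1 ≤ B + B1 := by omega
  have hp0 := hI.ne_zero hBB
  have hpT := hI.ne_T hBB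
  have hpi := hI.inj hBB
  have hT0 : CD.E.T ≠ 0 := by
    rw [CD.T_eq]
    exact Point.some_ne_zero _
  choose a b hns hpab using fun i => CoreR_coords (hp0 i)
  let n : CD.E.Twist :=
    { n := divf 9 (fun _ => -1) p
      fin := divf_fin _ _ _
      deg := by rw [divf_sum]; simp
      nT := divf_eq_zero _ _ _ hT0 (fun i => (hpT i).symm) }
  obtain ⟨v0, hv0, hsym⟩ := CD.E.exists_sym n h2
  obtain ⟨F0, hF00, hF0d, hF0m, hF0J⟩ :=
    transfer_special0 P hP (fun i => ![a i, b i]) v0 δ μ ⟨f, hf, hdeg, hμ⟩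
  have hF0 : F0 ≠ 0 := by
    rintro rfl
    exact hF00 (Polynomial.coeff_zero 0)
  obtain ⟨w, gg, hgg, l0, hl0, hl0G⟩ := exists_w F0 hF0
  have hs : n.s = - ∑ i, p i := by
    change ∑ᶠ Q, divf 9 (fun _ => -1) p Q • Q = _
    rw [divf_sum_smul]
    simp
  have hN : g * (g + 1) + 1 ≤ B + B1 := by
    have h : g * (g + 1) ≤ 2 * g * (g + 1) := by
      rw [mul_assoc]
      exact Nat.le_mul_of_pos_left _ (by norm_num)
    omega
  -- the end point
  obtain ⟨z, hz⟩ : ∃ z, z = CD.E.T + ((g * (g + 1) : ℕ) : ℤ) • ∑ i, p i := ⟨_, rfl⟩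
  have hz0 : z ≠ 0 := by
    intro h
    have h1 : ∑ i, ((g * (g + 1) : ℕ) : ℤ) • p i = (-1 : ℤ) • CD.E.T := by
      rw [← Finset.smul_sum, neg_smul, one_smul]
      rw [hz] at h
      exact (neg_eq_of_add_eq_zero_right h).symm
    have h3 := hI (fun _ => ((g * (g + 1) : ℕ) : ℤ)) (fun i => by
      rw [abs_of_nonneg (by positivity)]
      exact_mod_cast (by omega : g * (g + 1) ≤ B + B1)) (-1) h1
    have h4 : ((g * (g + 1) : ℕ) : ℤ) = 0 := congrFun h3 0
    rw [hz, h4, zero_smul, add_zero] at h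
    exact hT0 h
  have hzp : ∀ i, z ≠ p i := by
    intro i h
    have h1 : ∑ j : Fin 9, (((g * (g + 1) : ℕ) : ℤ) - if j = i then 1 else 0) • p j =
        (-1 : ℤ) • CD.E.T := by
      simp only [sub_smul, Finset.sum_sub_distrib, ite_smul, one_smul, zero_smul,
        Finset.sum_ite_eq', Finset.mem_univ, if_true, ← Finset.smul_sum]
      rw [← h, hz]
      simp
    have h3 := hI _ (fun j => ?_) (-1) h1
    · have h4 := congrFun h3 i
      simp only [if_true, Pi.zero_apply] at h4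
      have h5 : ((g * (g + 1) : ℕ) : ℤ) = 1 := by linarith
      have h6 : g * (g + 1) = 1 := by exact_mod_cast h5
      have h7 := Nat.even_mul_succ_self g
      rw [h6] at h7
      exact absurd h7 (by decide)
    · have h4 : (0 : ℤ) ≤ (g * (g + 1) : ℕ) := by positivity
      have h5 : ((g * (g + 1) : ℕ) : ℤ) + 1 ≤ ((B + B1 : ℕ) : ℤ) := by exact_mod_cast hN
      rw [abs_le]
      split_ifs <;> constructor <;> linarith
  obtain ⟨za, zb, hzns, hzab⟩ := CoreR_coords hz0
  obtain ⟨Z, hZdef⟩ : ∃ Z : Fin 10 → Fin 2 → k,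
    Z = Fin.snoc (α := fun _ => Fin 2 → k) (fun i => ![a i, b i]) ![za, zb] := ⟨_, rfl⟩
  have hZ1 : ∀ i : Fin 9, Z i.castSucc = ![a i, b i] := by
    intro i
    rw [hZdef]
    exact Fin.snoc_castSucc _ _ _
  have hZ2 : Z (Fin.last 9) = ![za, zb] := by
    rw [hZdef]
    exact Fin.snoc_last _ _
  have hZ : ∀ i, (E0 k).Nonsingular (Z i 0) (Z i 1) := by
    intro i
    refine Fin.lastCases ?_ (fun i => ?_) i
    · rw [hZ2]
      exact hzns
    · rw [hZ1]
      exact hns i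
  have hpZ : ∀ i : Fin 9, p i = Point.some (Z i.castSucc 0) (Z i.castSucc 1)
      (hZ i.castSucc) := by
    intro i
    rw [hpab i]
    exact CoreR_some _ _ (by rw [hZ1]; rfl) (by rw [hZ1]; rfl)
  have hzZ : (Point.some (Z (Fin.last 9) 0) (Z (Fin.last 9) 1) (hZ (Fin.last 9)) :
      (E0 k).Point) = z := by
    rw [hzab]
    exact CoreR_some _ _ (by rw [hZ2]; rfl) (by rw [hZ2]; rfl)
  have hF0m' : ∀ l, ∀ i : Fin 9,
      F0.coeff l ∈ ptIdeal (Z i.castSucc 0) (Z i.castSucc 1) ^ μ i.castSucc := by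
    intro l i
    rw [hZ1]
    exact hF0m l i
  have hc0 : F0.coeff 0 = Geq k ^ w * gg 0 := by
    have h := hgg 0 (Nat.zero_le _)
    rwa [Nat.sub_zero] at h
  have hg0 : gg 0 ≠ 0 := by
    intro h
    rw [h, mul_zero] at hc0
    exact hF00 hc0
  have hdw : (gg 0).totalDegree + 3 * w ≤ δ := by
    have h := hF0d 0
    rw [hc0, totalDegree_Geq_pow_mul w hg0] at h
    omega
  have htors : ∀ j : ℕ, 1 ≤ j → j ≤ B1 → j • n.s ≠ 0 := by
    intro j hj hjB h
    have h1 : ∑ i, (j : ℤ) • p i = (0 : ℤ) • CD.E.T := by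
      rw [hs, smul_neg, neg_eq_zero] at h
      rw [← Finset.smul_sum, zero_smul, ← h, natCast_zsmul]
    have h3 := hI (fun _ => (j : ℤ)) (fun i => by
      rw [abs_of_nonneg (by positivity)]
      exact_mod_cast (by omega : j ≤ B + B1)) 0 h1
    have h4 : (j : ℤ) = 0 := congrFun h3 0
    omega
  refine ⟨CD, p, Z, hZ, ?_, hpZ, by rw [hzZ, hz], w, gg 0,
    ((2 * g + 1) * (μ (Fin.last 9) : ℤ) -
      2 * g * (g + 1) * (3 * (δ : ℤ) - ∑ i : Fin 9, (μ i.castSucc : ℤ)) - w).toNat,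
    hg0, hdw, ?_, ?_, Int.self_le_toNat _, ?_⟩
  · intro c hc ε h
    refine hI c (fun i => (hc i).trans ?_) ε h
    exact_mod_cast Nat.le_add_right B B1
  · intro i
    refine colon h2 (eq_of_nonsingular (hZ i.castSucc)) w _ ?_
    rw [← hc0]
    exact hF0m' 0 i
  · rcases Nat.eq_zero_or_pos g with hg | hg
    · have h1 : z = CD.E.T := by
        rw [hz, hg]
        simp
      rw [h1, CD.T_eq] at hzab
      have h3 : (0 : k) = za ∧ (0 : k) = zb := by
        simpa using hzab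
      rw [hZ2]
      show gg 0 ∈ ptIdeal za zb ^ _
      rw [← h3.1, ← h3.2]
      have h4 : ((2 * (g : ℤ) + 1) * (μ (Fin.last 9) : ℤ) -
          2 * g * (g + 1) * (3 * (δ : ℤ) - ∑ i : Fin 9, (μ i.castSucc : ℤ)) - w).toNat =
          μ (Fin.last 9) - w := by
        rw [hg]
        simp
      rw [h4]
      exact mult_zero h2 v0 F0 _ hF0J w gg hgg
    · rcases le_or_gt 0 ((2 * (g : ℤ) + 1) * (μ (Fin.last 9) : ℤ) -
        2 * g * (g + 1) * (3 * (δ : ℤ) - ∑ i : Fin 9, (μ i.castSucc : ℤ)) - w) with h | h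
      · refine mult_end h2 CD n v0 hv0 hsym B1 htors g hg (by omega) p hp0 hpT hpi rfl Z hZ hpZ
          ?_ ?_ F0 δ μ hF0d hF0m' hF0J w gg hgg _ ?_
        · rw [hzZ, hz, hs, smul_neg, sub_neg_eq_add]
        · intro i
          rw [hzZ]
          exact hzp i
        · rw [Int.toNat_of_nonneg h]
      · rw [Int.toNat_of_nonpos h.le, pow_zero, Ideal.one_eq_top]
        exact Submodule.mem_top
  · -- the last inequality
    obtain ⟨ψ, U, hψ, hU, hflow⟩ := exists_flow (k := k) h2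
    have hOmI : Om F0 w = OmI δ F0 w := by
      have hV : PowerSeries.constantCoeff (U ^ δ) = 1 := by rw [map_pow, hU, one_pow]
      obtain ⟨-, -, h5⟩ := lead_transfer_shift (0 : Polynomial (K0 k)) ψ hψ (U ^ δ) hV (Om F0)
        (OmI δ F0) (hflow δ F0 hF0d) w (Om_lt h2 F0 w gg hgg) 0 0 le_rfl (fun i _ => by
          rw [Nat.zero_sub, pow_zero]
          exact one_dvd _) (fun i hi => absurd hi (Nat.not_lt_zero i))
      simpa [sub_eq_zero] using h5
    have hFne : Om F0 w ≠ 0 := by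
      intro h
      have h1 := Om_coeff F0 w (w - l0)
      rw [Om_eq h2 F0 w gg hgg] at h
      have h3 := congrArg (fun q => Polynomial.coeff q (w - l0)) h
      simp only [Polynomial.finsetSum_coeff, Polynomial.coeff_C_mul, Polynomial.coeff_X_pow,
        Polynomial.coeff_zero] at h3
      rw [Finset.sum_eq_single (w - l0)] at h3
      · rw [if_pos rfl, mul_one, show w - (w - l0) = l0 by omega,
          map_eq_zero_iff _ (IsFractionRing.injective (R0 k) (K0 k)), psi_eq_zero_iff] at h3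
        exact hl0G h3
      · intro j _ hj
        rw [if_neg (Ne.symm hj), mul_zero]
      · intro h4
        exact absurd (Finset.mem_range.2 (by omega)) h4
    have hnd : (Om F0 w).natDegree ≤ w := diag_natDegree _ _
    have hmain := CD.E.sec_even n hv0 hsym B1 htors q hq (by omega) hFne (by omega)
      (divf (3 * δ) (fun i => -(μ i.castSucc : ℤ)) p) (divf_fin _ _ _)
      (divf_eq_zero _ _ _ hT0 (fun i => (hpT i).symm)) ?_ _
      (MultEnd_T CD v0 F0 _ hF0J w hFne)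
    · rw [divf_sum, Finset.sum_neg_distrib, ← sub_eq_add_neg] at hmain
      have h3 : ((Om F0 w).natDegree : ℤ) ≤ w := by exact_mod_cast hnd
      linarith
    · intro Q
      have h : - (divf (3 * δ) (fun i => -(μ i.castSucc : ℤ)) p Q) ≤ CD.E.w n Q (Om F0 w) := by
        by_cases hQ : Q = 0
        · rw [hQ]
          unfold EField.w
          have e2 : n.n 0 = 9 := divf_zero _ _ _ hp0
          rw [e2, divf_zero _ _ _ hp0, hOmI]
          have h := OmI_inf CD δ F0 hF0d w (by rw [← hOmI]; exact hFne)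
          linarith
        · exact MultEnd_place CD n p hp0 hpi rfl Z hZ hpZ F0 δ μ hF0m' w Q hQ hFne
      linarith

end ShghR
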