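import Pool.Agent.ShghR.NefSpec
import Pool.Agent.ShghR.CoreR

/-!
# The unfolding theorem

`D♯ = (d; m_0..m_8, n)` with `m_i, n ≥ 0`, `e = 3d - Σ_{i<9} m_i`, `n ≤ e`, `NumNef`. For an integer `j` put
`λ = 2 j (j e + n)`; then `(d + 3λ; m_i + λ, |n + 2 j e|)` is nef.
-/

namespace ShghR

open MvPolynomial ShghE

variable {k : Type*} [Field k]

/-- `σ = ±1`; `g = j` for `σ = 1` and `g = j - 1` for `σ = -1`. -/
theorem unfold_arith (σ : ℝ) (hσ : σ ^ 2 = 1) (j g A e n w μ Ξ c lam : ℝ) (hg : 2 * g + 1 = 2 * j + σ)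
    (hlam : lam = 2 * j * (j * e + σ * n)) (hA : w * e + n * c ≤ A) (hn : 0 ≤ n) (hne : n ≤ e)
    (hc : (2 * g + 1) * μ - 2 * g * (g + 1) * Ξ - w ≤ c)
    (hI : 2 * j * μ ≤ 2 * j ^ 2 * Ξ + w) :
    (σ * n + 2 * j * e) * μ ≤ A + lam * Ξ := by
  have h1 : 0 ≤ (e - n) * (w + 2 * j ^ 2 * Ξ - 2 * j * μ) :=
    mul_nonneg (by linarith) (by linarith)
  have h2 : n * ((2 * g + 1) * μ - 2 * g * (g + 1) * Ξ - w) ≤ n * c :=
    mul_le_mul_of_nonneg_left hc hn
  have hg' : g = j + (σ - 1) / 2 := by linarith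
  have h3 : n * ((2 * g + 1) * μ - 2 * g * (g + 1) * Ξ - w) =
      n * ((2 * j + σ) * μ - (2 * j ^ 2 + 2 * j * σ) * Ξ - w) := by
    rw [hg']
    linear_combination (-(n * Ξ) / 2) * hσ
  have h4 : A + lam * Ξ - (σ * n + 2 * j * e) * μ =
      (A - (w * e + n * c)) + (n * c - n * ((2 * j + σ) * μ - (2 * j ^ 2 + 2 * j * σ) * Ξ - w)) +
        (e - n) * (w + 2 * j ^ 2 * Ξ - 2 * j * μ) := by
    rw [hlam]
    ring
  rw [h3] at h2
  linarith

/-- The class of the degeneration is nonnegative on the limit. -/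
theorem Unfold_step [IsAlgClosed k] (h2 : (2 : k) ≠ 0) (P : Fin 10 → Fin 2 → k)
    (hP : AlgebraicIndependent (⊥ : Subfield k) (fun ij : Fin 10 × Fin 2 => P ij.1 ij.2))
    (d : ℝ) (m : Fin 10 → ℝ) (hm : ∀ i, 0 ≤ m i) (hK : ∑ i, m i ≤ 3 * d) (hN : NumNef d m)
    (g q : ℕ) (hq : 1 ≤ q)
    (f : MvPolynomial (Fin 2) k) (hf : f ≠ 0) (δ : ℕ) (hδ : f.totalDegree ≤ δ)
    (μ : Fin 10 → ℕ) (hμ : ∀ i, f ∈ ptIdeal (P i 0) (P i 1) ^ μ i) :
    ∃ w c : ℝ, 0 ≤ w ∧ w * (3 * d - ∑ i : Fin 9, m i.castSucc) + m (Fin.last 9) * c ≤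
        d * δ - ∑ i : Fin 9, m i.castSucc * μ i.castSucc ∧
      (2 * (g : ℝ) + 1) * μ (Fin.last 9) -
        2 * g * (g + 1) * (3 * (δ : ℝ) - ∑ i : Fin 9, (μ i.castSucc : ℝ)) - w ≤ c ∧
      2 * (q : ℝ) * μ (Fin.last 9) ≤
        2 * (q : ℝ) ^ 2 * (3 * (δ : ℝ) - ∑ i : Fin 9, (μ i.castSucc : ℝ)) + w := by
  classical
  obtain ⟨CD, p, Z, hZ, hI, hp, hz, w, g0, c, hg0, hdeg, hμ0, hc0, hA, hB⟩ :=
    coreR h2 P hP f hf δ hδ μ hμ g q hq ((g * (g + 1) + 1) * (δ + 1))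
  set μ' : Fin 10 → ℕ := fun i => if i = Fin.last 9 then c else μ i - w with hμ'
  have hμc : ∀ i : Fin 9, μ' i.castSucc = μ i.castSucc - w := by
    intro i
    rw [hμ']
    simp only
    rw [if_neg (Fin.castSucc_lt_last i).ne]
  have hμl : μ' (Fin.last 9) = c := by
    rw [hμ']
    simp
  have hn := nef_spec h2 CD.toCurveData p g ((g * (g + 1) + 1) * (δ + 1)) hI Z hZ hp hz d m hm hK hN
    g0 hg0 g0.totalDegree le_rfl
    (Nat.mul_le_mul_left _ (by omega)) μ' (by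
      intro i
      refine Fin.lastCases ?_ (fun i => ?_) i
      · rw [hμl]
        exact hc0
      · rw [hμc]
        exact hμ0 i)
  rw [Fin.sum_univ_castSucc, hμl] at hn
  simp only [hμc] at hn
  have hK' : ∑ i : Fin 9, m i.castSucc + m (Fin.last 9) ≤ 3 * d := by
    rwa [Fin.sum_univ_castSucc] at hK
  have hd0 : 0 ≤ d := by
    have h1 : 0 ≤ ∑ i : Fin 9, m i.castSucc := Finset.sum_nonneg fun i _ => hm _
    have h3 := hm (Fin.last 9)
    linarith
  have hsum : ∑ i : Fin 9, m i.castSucc * μ i.castSucc - w * ∑ i : Fin 9, m i.castSucc ≤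
      ∑ i : Fin 9, m i.castSucc * ((μ i.castSucc - w : ℕ) : ℝ) := by
    rw [Finset.mul_sum, ← Finset.sum_sub_distrib]
    apply Finset.sum_le_sum
    intro i _
    have h1 : (μ i.castSucc : ℝ) - w ≤ ((μ i.castSucc - w : ℕ) : ℝ) := by
      have h3 : μ i.castSucc ≤ (μ i.castSucc - w) + w := by omega
      have h4 : (μ i.castSucc : ℝ) ≤ ((μ i.castSucc - w : ℕ) : ℝ) + w := by exact_mod_cast h3
      linarith
    have h5 := mul_le_mul_of_nonneg_left h1 (hm i.castSucc)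
    linarith
  have hdeg' : d * (g0.totalDegree : ℝ) ≤ d * (δ - 3 * w) := by
    apply mul_le_mul_of_nonneg_left _ hd0
    have h1 : ((g0.totalDegree + 3 * w : ℕ) : ℝ) ≤ (δ : ℝ) := by exact_mod_cast hdeg
    push_cast at h1
    linarith
  refine ⟨w, c, Nat.cast_nonneg _, ?_, ?_, ?_⟩
  · linarith
  · exact_mod_cast hA
  · exact_mod_cast hB

/-- Case `j = 0` is `coreR` with `g = 0` (`q = 1`): `D♯` itself is nef. In general apply `coreR` with
`q = j`, `g = j` or `g = j - 1`, `B = (g(g+1)+1)(δ+1)`, and `nef_spec` to `g0` with the multiplicities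
`μ_i - w`, `c`. -/
theorem unfold_nat [IsAlgClosed k] (h2 : (2 : k) ≠ 0) (P : Fin 10 → Fin 2 → k)
    (hP : AlgebraicIndependent (⊥ : Subfield k) (fun ij : Fin 10 × Fin 2 => P ij.1 ij.2))
    (d : ℝ) (m : Fin 10 → ℝ) (hm : ∀ i, 0 ≤ m i) (hK : ∑ i, m i ≤ 3 * d) (hN : NumNef d m)
    (j : ℕ) (hj : 1 ≤ j) (σ : ℝ) (hσ : σ = 1 ∨ σ = -1)
    (f : MvPolynomial (Fin 2) k) (hf : f ≠ 0) (δ : ℕ) (hδ : f.totalDegree ≤ δ)
    (μ : Fin 10 → ℕ) (hμ : ∀ i, f ∈ ptIdeal (P i 0) (P i 1) ^ μ i) :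
    ∑ i : Fin 9, (m i.castSucc + 2 * j * (j * (3 * d - ∑ i : Fin 9, m i.castSucc) +
          σ * m (Fin.last 9))) * μ i.castSucc +
        (σ * m (Fin.last 9) + 2 * j * (3 * d - ∑ i : Fin 9, m i.castSucc)) * μ (Fin.last 9) ≤
      (d + 3 * (2 * j * (j * (3 * d - ∑ i : Fin 9, m i.castSucc) + σ * m (Fin.last 9)))) * δ := by
  have hg : ∃ g : ℕ, 2 * (g : ℝ) + 1 = 2 * j + σ := by
    rcases hσ with h | h
    · exact ⟨j, by rw [h]⟩
    · refine ⟨j - 1, ?_⟩
      rw [h, Nat.cast_sub hj]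
      push_cast
      ring
  obtain ⟨g, hg⟩ := hg
  have hσ2 : σ ^ 2 = 1 := by
    rcases hσ with h | h <;> rw [h] <;> norm_num
  obtain ⟨w, c, -, hA, hc, hI⟩ := Unfold_step h2 P hP d m hm hK hN g j hj f hf δ hδ μ hμ
  have hK' : ∑ i : Fin 9, m i.castSucc + m (Fin.last 9) ≤ 3 * d := by
    rwa [Fin.sum_univ_castSucc] at hK
  have key := unfold_arith σ hσ2 j g (d * δ - ∑ i : Fin 9, m i.castSucc * μ i.castSucc)
    (3 * d - ∑ i : Fin 9, m i.castSucc) (m (Fin.last 9)) w (μ (Fin.last 9))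
    (3 * (δ : ℝ) - ∑ i : Fin 9, (μ i.castSucc : ℝ)) c
    (2 * j * (j * (3 * d - ∑ i : Fin 9, m i.castSucc) + σ * m (Fin.last 9))) hg rfl hA
    (hm _) (by linarith) hc hI
  set lam : ℝ := 2 * j * (j * (3 * d - ∑ i : Fin 9, m i.castSucc) + σ * m (Fin.last 9)) with hlam
  have h3 : ∑ i : Fin 9, (m i.castSucc + lam) * (μ i.castSucc : ℝ) =
      ∑ i : Fin 9, m i.castSucc * μ i.castSucc + lam * ∑ i : Fin 9, (μ i.castSucc : ℝ) := by
    rw [Finset.mul_sum, ← Finset.sum_add_distrib]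
    apply Finset.sum_congr rfl
    intro i _
    ring
  rw [h3]
  linarith

theorem unfold_zero [IsAlgClosed k] (h2 : (2 : k) ≠ 0) (P : Fin 10 → Fin 2 → k)
    (hP : AlgebraicIndependent (⊥ : Subfield k) (fun ij : Fin 10 × Fin 2 => P ij.1 ij.2))
    (d : ℝ) (m : Fin 10 → ℝ) (hm : ∀ i, 0 ≤ m i) (hK : ∑ i, m i ≤ 3 * d) (hN : NumNef d m) :
    IsNef P d m := by
  refine ⟨hm, ?_⟩
  intro f δ μ hf hδ hμ
  obtain ⟨w, c, hw, hA, hc, hI⟩ := Unfold_step h2 P hP d m hm hK hN 0 1 le_rfl f hf δ hδ μ hμ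
  have hK' : ∑ i : Fin 9, m i.castSucc + m (Fin.last 9) ≤ 3 * d := by
    rwa [Fin.sum_univ_castSucc] at hK
  rw [Fin.sum_univ_castSucc]
  have h0 := hm (Fin.last 9)
  have h1 : m (Fin.last 9) * (μ (Fin.last 9) - w) ≤ m (Fin.last 9) * c := by
    apply mul_le_mul_of_nonneg_left _ h0
    simp only [Nat.cast_zero] at hc
    linarith
  have h3 : w * m (Fin.last 9) ≤ w * (3 * d - ∑ i : Fin 9, m i.castSucc) :=
    mul_le_mul_of_nonneg_left (by linarith) hw
  linarith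

/-- The unfolding theorem. -/
theorem unfolding [IsAlgClosed k] (h2 : (2 : k) ≠ 0) (P : Fin 10 → Fin 2 → k)
    (hP : AlgebraicIndependent (⊥ : Subfield k) (fun ij : Fin 10 × Fin 2 => P ij.1 ij.2))
    (d : ℝ) (m : Fin 10 → ℝ) (hm : ∀ i, 0 ≤ m i) (hK : ∑ i, m i ≤ 3 * d) (hN : NumNef d m)
    (j : ℤ) (e lam : ℝ) (he : e = 3 * d - ∑ i : Fin 9, m i.castSucc)
    (hlam : lam = 2 * j * (j * e + m (Fin.last 9))) :
    IsNef P (d + 3 * lam)
      (fun i => if i = Fin.last 9 then |m (Fin.last 9) + 2 * j * e| else m i + lam) := by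
  have hK' : ∑ i : Fin 9, m i.castSucc + m (Fin.last 9) ≤ 3 * d := by
    rwa [Fin.sum_univ_castSucc] at hK
  have hn0 := hm (Fin.last 9)
  have hne : m (Fin.last 9) ≤ e := by linarith
  have he0 : 0 ≤ e := hn0.trans hne
  have hsum : ∀ (a : ℝ) (μ : Fin 10 → ℕ),
      ∑ i, (if i = Fin.last 9 then a else m i + lam) * (μ i : ℝ) =
        ∑ i : Fin 9, (m i.castSucc + lam) * μ i.castSucc + a * μ (Fin.last 9) := by
    intro a μ
    rw [Fin.sum_univ_castSucc]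
    have h1 : ∀ i : Fin 9, (if i.castSucc = Fin.last 9 then a else m i.castSucc + lam) =
        m i.castSucc + lam := fun i => if_neg (Fin.castSucc_lt_last i).ne
    simp only [h1, if_true]
  have hcase : j = 0 ∨ ∃ (j' : ℕ) (σ : ℝ), 1 ≤ j' ∧ (σ = 1 ∨ σ = -1) ∧ (j : ℝ) = σ * j' := by
    obtain ⟨j', hj'⟩ := j.eq_nat_or_neg
    rcases Nat.eq_zero_or_pos j' with h0 | h0
    · left
      subst h0
      simpa using hj'
    · right
      rcases hj' with h | h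
      · refine ⟨j', 1, h0, Or.inl rfl, ?_⟩
        rw [h]
        push_cast
        ring
      · refine ⟨j', -1, h0, Or.inr rfl, ?_⟩
        rw [h]
        push_cast
        ring
  rcases hcase with hj | ⟨j', σ, hj', hσ, hjσ⟩
  · subst hj
    have hlam0 : lam = 0 := by rw [hlam]; push_cast; ring
    have h := unfold_zero h2 P hP d m hm hK hN
    have e1 : (fun i => if i = Fin.last 9 then |m (Fin.last 9) + 2 * ((0 : ℤ) : ℝ) * e|
        else m i + lam) = m := by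
      funext i
      by_cases hi : i = Fin.last 9
      · rw [if_pos hi, hi, Int.cast_zero, mul_zero, zero_mul, add_zero, abs_of_nonneg hn0]
      · rw [if_neg hi, hlam0, add_zero]
    rw [e1, hlam0, mul_zero, add_zero]
    exact h
  · have hσ2 : σ * σ = 1 := by
      rcases hσ with h | h <;> rw [h] <;> norm_num
    have hj1 : (1 : ℝ) ≤ j' := by exact_mod_cast hj'
    have hlam' : lam = 2 * j' * (j' * (3 * d - ∑ i : Fin 9, m i.castSucc) +
        σ * m (Fin.last 9)) := by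
      rw [hlam, hjσ, ← he]
      linear_combination (2 * (j' : ℝ) ^ 2 * e) * hσ2
    have hσn : -m (Fin.last 9) ≤ σ * m (Fin.last 9) := by
      rcases hσ with h | h <;> rw [h] <;> linarith
    have hje : e ≤ j' * e := le_mul_of_one_le_left he0 hj1
    have hlam0 : 0 ≤ lam := by
      rw [hlam', ← he]
      apply mul_nonneg (by positivity)
      linarith
    have hpos : 0 ≤ σ * m (Fin.last 9) + 2 * j' * e := by nlinarith
    have habs : |m (Fin.last 9) + 2 * (j : ℝ) * e| = σ * m (Fin.last 9) + 2 * j' * e := by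
      rw [← abs_of_nonneg hpos]
      rw [hjσ]
      rcases hσ with h | h
      · rw [h]
        congr 1
        ring
      · rw [h, ← abs_neg]
        congr 1
        ring
    refine ⟨?_, ?_⟩
    · intro i
      simp only
      split_ifs with hi
      · exact abs_nonneg _
      · exact add_nonneg (hm i) hlam0
    · intro f δ μ hf hδ hμ
      have key := unfold_nat h2 P hP d m hm hK hN j' hj' σ hσ f hf δ hδ μ hμ
      rw [← hlam', ← he] at key
      rw [hsum, habs]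
      exact key

end ShghR
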