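import Pool.Agent.ShghR.CoreS
import Pool.Agent.ShghR.Unfold
import Pool.Agent.ShghR.Perp

/-!
# The unfolded classes are strictly positive

`D = (d + 3λ; m_i + λ, |n + 2 j e|)` as in the unfolding theorem. If `K·D > 0` then `D·C > 0` for every
curve `C`.
-/

namespace ShghR

open MvPolynomial ShghE

variable {k : Type*} [Field k]

/-- Equality in `2 q μ ≤ 2 q² Ξ + w` is impossible for curves of positive degree. -/
theorem UnfoldS_arith (q δ w μ Ξ : ℤ) (x : Fin 9 → ℤ) (hq : 1 ≤ q) (hδ : 1 ≤ δ) (hw : 3 * w ≤ δ)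
    (hμ : μ ≤ δ) (hx : ∀ i, 2 * x i = w) (hΞ : Ξ = 3 * δ - ∑ i, x i)
    (heq : 2 * q * μ = 2 * q ^ 2 * Ξ + w) : False := by
  have h1 : 2 * ∑ i, x i = 9 * w := by
    rw [Finset.mul_sum, Finset.sum_congr rfl (fun i _ => hx i)]
    simp
  have h2 : 2 * Ξ = 6 * δ - 9 * w := by linarith
  have h3 : 4 * q * μ = 2 * q ^ 2 * (6 * δ - 9 * w) + 2 * w := by
    rw [← h2]
    linear_combination 2 * heq
  have h4 : 4 * q * μ ≤ 4 * q * δ := mul_le_mul_of_nonneg_left hμ (by linarith)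
  have h5 : (18 * q ^ 2 - 2) * (3 * w) ≤ (18 * q ^ 2 - 2) * δ :=
    mul_le_mul_of_nonneg_left hw (by nlinarith)
  have h6 : 2 * (3 * q - 1) ^ 2 * δ ≤ 0 := by nlinarith
  have h7 : 0 < (3 * q - 1) ^ 2 := by
    have : 0 < 3 * q - 1 := by linarith
    positivity
  nlinarith

/-- The step of the degeneration, with the cases of equality. -/
theorem UnfoldS_step [IsAlgClosed k] (h2 : (2 : k) ≠ 0) (P : Fin 10 → Fin 2 → k)
    (hP : AlgebraicIndependent (⊥ : Subfield k) (fun ij : Fin 10 × Fin 2 => P ij.1 ij.2))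
    (d : ℝ) (m : Fin 10 → ℝ) (hm : ∀ i, 0 ≤ m i) (hK : ∑ i, m i ≤ 3 * d) (hN : NumNef d m)
    (g q : ℕ) (hq : 1 ≤ q)
    (f : MvPolynomial (Fin 2) k) (hf : f ≠ 0) (δ : ℕ) (hδ1 : 1 ≤ δ) (hδ : f.totalDegree ≤ δ)
    (μ : Fin 10 → ℕ) (hμ : ∀ i, f ∈ ptIdeal (P i 0) (P i 1) ^ μ i) :
    ∃ w c : ℕ, 3 * w ≤ δ ∧
      ∑ i : Fin 9, m i.castSucc * ((μ i.castSucc - w : ℕ) : ℝ) + m (Fin.last 9) * c ≤
        d * (δ - 3 * w) ∧
      (2 * g + 1) * (μ (Fin.last 9) : ℤ) -
        2 * g * (g + 1) * (3 * (δ : ℤ) - ∑ i : Fin 9, (μ i.castSucc : ℤ)) - w ≤ c ∧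
      2 * (q : ℤ) * μ (Fin.last 9) <
        2 * (q : ℤ) ^ 2 * (3 * (δ : ℤ) - ∑ i : Fin 9, (μ i.castSucc : ℤ)) + w ∧
      (1 ≤ g → (2 * g + 1) * (μ (Fin.last 9) : ℤ) -
        2 * g * (g + 1) * (3 * (δ : ℤ) - ∑ i : Fin 9, (μ i.castSucc : ℤ)) - w = c →
        ∃ i0 : ℕ, i0 ≤ c ∧ ∀ i : Fin 9, 2 * (μ i.castSucc : ℤ) = w + i0) := by
  classical
  obtain ⟨CD, p, Z, hZ, hI, hp, hz, w, g0, c, hg0, hdeg, hμ0, hc0, hA, hB, hE1, hE2⟩ :=
    coreS h2 P hP f hf δ hδ μ hμ g q hq ((g * (g + 1) + 1) * (δ + 1))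
  set μ' : Fin 10 → ℕ := fun i => if i = Fin.last 9 then c else μ i - w with hμ'
  have hμc : ∀ i : Fin 9, μ' i.castSucc = μ i.castSucc - w := by
    intro i
    rw [hμ']
    simp only
    rw [if_neg (Fin.castSucc_lt_last i).ne]
  have hμl : μ' (Fin.last 9) = c := by
    rw [hμ']
    simp
  have hn := nef_spec h2 CD.toCurveData p g ((g * (g + 1) + 1) * (δ + 1)) hI Z hZ hp hz d m hm hK hN
    g0 hg0 g0.totalDegree le_rfl
    (Nat.mul_le_mul_left _ (by omega)) μ' (by
      intro i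
      refine Fin.lastCases ?_ (fun i => ?_) i
      · rw [hμl]
        exact hc0
      · rw [hμc]
        exact hμ0 i)
  rw [Fin.sum_univ_castSucc, hμl] at hn
  simp only [hμc] at hn
  have hK' : ∑ i : Fin 9, m i.castSucc + m (Fin.last 9) ≤ 3 * d := by
    rwa [Fin.sum_univ_castSucc] at hK
  have hd0 : 0 ≤ d := by
    have h1 : 0 ≤ ∑ i : Fin 9, m i.castSucc := Finset.sum_nonneg fun i _ => hm _
    have h3 := hm (Fin.last 9)
    linarith
  have hdeg' : d * (g0.totalDegree : ℝ) ≤ d * (δ - 3 * w) := by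
    apply mul_le_mul_of_nonneg_left _ hd0
    have h1 : ((g0.totalDegree + 3 * w : ℕ) : ℝ) ≤ (δ : ℝ) := by exact_mod_cast hdeg
    push_cast at h1
    linarith
  have hw : 3 * w ≤ δ := by omega
  refine ⟨w, c, hw, hn.trans hdeg', hA, lt_of_le_of_ne hB ?_, hE2⟩
  intro heq
  have hμδ : μ (Fin.last 9) ≤ δ := (ShghE.le_totalDegree hf (hμ (Fin.last 9))).trans hδ
  exact UnfoldS_arith q δ w (μ (Fin.last 9)) _ (fun i => (μ i.castSucc : ℤ))
    (by exact_mod_cast hq) (by exact_mod_cast hδ1) (by exact_mod_cast hw)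
    (by exact_mod_cast hμδ) (hE1 heq) rfl heq

/-- The cubic through the nine points is nef. -/
theorem UnfoldS_cubic [IsAlgClosed k] (h2 : (2 : k) ≠ 0) (P : Fin 10 → Fin 2 → k)
    (hP : AlgebraicIndependent (⊥ : Subfield k) (fun ij : Fin 10 × Fin 2 => P ij.1 ij.2))
    (f : MvPolynomial (Fin 2) k) (hf : f ≠ 0) (δ : ℕ) (hδ : f.totalDegree ≤ δ)
    (μ : Fin 10 → ℕ) (hμ : ∀ i, f ∈ ptIdeal (P i 0) (P i 1) ^ μ i) :
    ∑ i : Fin 9, (μ i.castSucc : ℝ) ≤ 3 * δ := by
  have hsum : ∑ i : Fin 10, (if i = Fin.last 9 then (0 : ℝ) else 1) = 9 := by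
    rw [Fin.sum_univ_castSucc]
    have h1 : ∀ i : Fin 9, (if i.castSucc = Fin.last 9 then (0 : ℝ) else 1) = 1 :=
      fun i => if_neg (Fin.castSucc_lt_last i).ne
    simp only [h1, if_true]
    simp
  have hsq : ∑ i : Fin 10, (if i = Fin.last 9 then (0 : ℝ) else 1) ^ 2 = 9 := by
    rw [← hsum]
    refine Finset.sum_congr rfl fun i _ => ?_
    split_ifs <;> norm_num
  have h := unfold_zero h2 P hP 3 (fun i => if i = Fin.last 9 then (0 : ℝ) else 1)
    (fun i => by split_ifs <;> norm_num)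
    (by rw [hsum]; norm_num)
    (numNef_perp _ _ (by norm_num) (by rw [hsum]; norm_num) (by rw [hsq]; norm_num))
  have h3 := h.2 f δ μ hf hδ hμ
  rw [Fin.sum_univ_castSucc] at h3
  have h1 : ∀ i : Fin 9, (if i.castSucc = Fin.last 9 then (0 : ℝ) else 1) = 1 :=
    fun i => if_neg (Fin.castSucc_lt_last i).ne
  simp only [h1, if_true, one_mul, zero_mul, add_zero] at h3
  exact h3

theorem unfold_strict_nat [IsAlgClosed k] (h2 : (2 : k) ≠ 0) (P : Fin 10 → Fin 2 → k)
    (hP : AlgebraicIndependent (⊥ : Subfield k) (fun ij : Fin 10 × Fin 2 => P ij.1 ij.2))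
    (d : ℝ) (m : Fin 10 → ℝ) (hm : ∀ i, 0 ≤ m i) (hK : ∑ i, m i ≤ 3 * d) (hN : NumNef d m)
    (j : ℕ) (hj : 1 ≤ j) (σ : ℝ) (hσ : σ = 1 ∨ σ = -1)
    (hpos : 3 * d - ∑ i : Fin 9, m i.castSucc <
      σ * m (Fin.last 9) + 2 * j * (3 * d - ∑ i : Fin 9, m i.castSucc))
    (f : MvPolynomial (Fin 2) k) (hf : f ≠ 0) (δ : ℕ) (hδ1 : 1 ≤ δ) (hδ : f.totalDegree ≤ δ)
    (μ : Fin 10 → ℕ) (hμ : ∀ i, f ∈ ptIdeal (P i 0) (P i 1) ^ μ i) :
    ∑ i : Fin 9, (m i.castSucc + 2 * j * (j * (3 * d - ∑ i : Fin 9, m i.castSucc) +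
          σ * m (Fin.last 9))) * μ i.castSucc +
        (σ * m (Fin.last 9) + 2 * j * (3 * d - ∑ i : Fin 9, m i.castSucc)) * μ (Fin.last 9) <
      (d + 3 * (2 * j * (j * (3 * d - ∑ i : Fin 9, m i.castSucc) + σ * m (Fin.last 9)))) * δ := by
  obtain ⟨e, he⟩ : ∃ e, e = 3 * d - ∑ i : Fin 9, m i.castSucc := ⟨_, rfl⟩
  obtain ⟨n, hn⟩ : ∃ n, n = m (Fin.last 9) := ⟨_, rfl⟩
  have hn0 : 0 ≤ n := hn ▸ hm (Fin.last 9)
  have hne : n ≤ e := by
    rw [Fin.sum_univ_castSucc] at hK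
    linarith
  have he0 : 0 < e := by
    rcases (hn0.trans hne).eq_or_lt with h | h
    · rw [← he, ← hn, ← h] at hpos
      have : n = 0 := le_antisymm (h ▸ hne) hn0
      rw [this] at hpos
      simp at hpos
    · exact h
  rw [← he, ← hn] at hpos
  have hg : ∃ g : ℕ, 2 * (g : ℝ) + 1 = 2 * j + σ ∧ (n = e → 1 ≤ g) := by
    rcases hσ with h | h
    · exact ⟨j, by rw [h], fun _ => hj⟩
    · refine ⟨j - 1, ?_, ?_⟩
      · rw [h, Nat.cast_sub hj]
        push_cast
        ring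
      · intro hne1
        by_contra hcon
        have hj1 : j = 1 := by omega
        rw [hj1, h, hne1] at hpos
        push_cast at hpos
        linarith
  obtain ⟨g, hg, hg1⟩ := hg
  have hσ2 : σ ^ 2 = 1 := by
    rcases hσ with h | h <;> rw [h] <;> norm_num
  have hgσ : (g : ℝ) = j + (σ - 1) / 2 := by linarith
  obtain ⟨Ξ, hΞ⟩ : ∃ Ξ : ℝ, Ξ = 3 * (δ : ℝ) - ∑ i : Fin 9, (μ i.castSucc : ℝ) := ⟨_, rfl⟩
  obtain ⟨ν, hν⟩ : ∃ ν : ℝ, ν = μ (Fin.last 9) := ⟨_, rfl⟩
  obtain ⟨lam, hlam⟩ : ∃ lam : ℝ, lam = 2 * j * (j * e + σ * n) := ⟨_, rfl⟩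
  have hgoal : ∑ i : Fin 9, (m i.castSucc + lam) * μ i.castSucc =
      ∑ i : Fin 9, m i.castSucc * μ i.castSucc + lam * (3 * δ - Ξ) := by
    have h1 : 3 * (δ : ℝ) - Ξ = ∑ i : Fin 9, (μ i.castSucc : ℝ) := by rw [hΞ]; ring
    rw [h1, Finset.mul_sum, ← Finset.sum_add_distrib]
    apply Finset.sum_congr rfl
    intro i _
    ring
  rw [← he, ← hn, ← hlam, ← hν, hgoal]
  -- choice of `q`
  obtain ⟨q, hq1, hqj⟩ : ∃ q : ℕ, 1 ≤ q ∧ (n < e → q = j) ∧ (n = e → q = g) := by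
    rcases hne.eq_or_lt with h | h
    · exact ⟨g, hg1 h, fun h' => absurd h h'.ne, fun _ => rfl⟩
    · exact ⟨j, hj, fun _ => rfl, fun h' => absurd h' h.ne⟩
  obtain ⟨w, c, hw3, hA, hc, hI, hE⟩ := UnfoldS_step h2 P hP d m hm hK hN g q hq1 f hf δ hδ1 hδ μ hμ
  rw [← hn] at hA
  have hIR : 2 * (q : ℝ) * ν < 2 * (q : ℝ) ^ 2 * Ξ + w := by
    rw [hν, hΞ]
    exact_mod_cast hI
  have hcR : (2 * (g : ℝ) + 1) * ν - 2 * g * (g + 1) * Ξ - w ≤ c := by
    rw [hν, hΞ]
    exact_mod_cast hc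
  have hw0 : (0 : ℝ) ≤ w := Nat.cast_nonneg _
  -- the sum over the nine points
  have hterm : ∀ i : Fin 9, m i.castSucc * (μ i.castSucc : ℝ) - w * m i.castSucc ≤
      m i.castSucc * ((μ i.castSucc - w : ℕ) : ℝ) := by
    intro i
    have h3 : μ i.castSucc ≤ (μ i.castSucc - w) + w := by omega
    have h4 : (μ i.castSucc : ℝ) ≤ ((μ i.castSucc - w : ℕ) : ℝ) + w := by exact_mod_cast h3
    have h5 := mul_le_mul_of_nonneg_left h4 (hm i.castSucc)
    linarith
  have hsum : ∑ i : Fin 9, m i.castSucc * μ i.castSucc - w * ∑ i : Fin 9, m i.castSucc ≤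
      ∑ i : Fin 9, m i.castSucc * ((μ i.castSucc - w : ℕ) : ℝ) := by
    rw [Finset.mul_sum, ← Finset.sum_sub_distrib]
    exact Finset.sum_le_sum fun i _ => hterm i
  have hid : d * δ + lam * Ξ - ∑ i : Fin 9, m i.castSucc * μ i.castSucc -
      (σ * n + 2 * j * e) * ν =
      (d * (δ - 3 * w) - n * c -
        (∑ i : Fin 9, m i.castSucc * μ i.castSucc - w * ∑ i : Fin 9, m i.castSucc)) +
      n * (c - ((2 * (g : ℝ) + 1) * ν - 2 * g * (g + 1) * Ξ - w)) +
        (e - n) * (w + 2 * j ^ 2 * Ξ - 2 * j * ν) := by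
    have hS : ∑ i : Fin 9, m i.castSucc = 3 * d - e := by rw [he]; ring
    rw [hS, hlam, hgσ]
    linear_combination (-(n * Ξ) / 2) * hσ2
  have hfin : 0 < d * δ + lam * Ξ - ∑ i : Fin 9, m i.castSucc * μ i.castSucc -
      (σ * n + 2 * j * e) * ν := by
    rw [hid]
    rcases hne.eq_or_lt with hne' | hlt
    · -- `n = e`
      have hg1' := hg1 hne'
      have hqg : q = g := hqj.2 hne'
      rw [hqg] at hIR
      have h0 : (e - n) * (w + 2 * j ^ 2 * Ξ - 2 * j * ν) = 0 := by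
        rw [hne', sub_self, zero_mul]
      rw [h0, add_zero]
      rcases hcR.eq_or_lt with hceq | hclt
      · -- equality
        have hceqZ : (2 * g + 1) * (μ (Fin.last 9) : ℤ) -
            2 * g * (g + 1) * (3 * (δ : ℤ) - ∑ i : Fin 9, (μ i.castSucc : ℤ)) - w = c := by
          rw [hν, hΞ] at hceq
          exact_mod_cast hceq
        obtain ⟨i0, hi0, hx⟩ := hE hg1' hceqZ
        have hxR : ∀ i : Fin 9, 2 * (μ i.castSucc : ℝ) = w + i0 := fun i => by
          exact_mod_cast hx i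
        have hΞ0 : 0 ≤ Ξ := by
          rw [hΞ]
          linarith [UnfoldS_cubic h2 P hP f hf δ hδ μ hμ]
        have hi0R : (i0 : ℝ) ≤ c := by exact_mod_cast hi0
        have hi00 : (0 : ℝ) ≤ i0 := Nat.cast_nonneg _
        have hgR : (1 : ℝ) ≤ g := by exact_mod_cast hg1'
        -- `2 g² Ξ + 2 g (w + i0) < (2 g + 1) w`
        have h5 : 2 * (g : ℝ) ^ 2 * Ξ + 2 * g * (w + i0) < (2 * g + 1) * w := by
          have h6 : 2 * (g : ℝ) * (2 * g * (g + 1) * Ξ + w + i0) ≤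
              2 * g * ((2 * g + 1) * ν) := by
            apply mul_le_mul_of_nonneg_left _ (by positivity)
            linarith
          have h7 : (2 * (g : ℝ) + 1) * (2 * g * ν) < (2 * g + 1) * (2 * g ^ 2 * Ξ + w) :=
            mul_lt_mul_of_pos_left hIR (by positivity)
          nlinarith
        have hwi : (i0 : ℝ) < w := by
          have h8 : 0 ≤ 2 * (g : ℝ) ^ 2 * Ξ := by positivity
          by_contra hcon
          push Not at hcon
          have h9 : (g : ℝ) * w ≤ g * i0 := mul_le_mul_of_nonneg_left hcon (by positivity)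
          nlinarith
        -- positivity of the sum of the `m i`
        have hnd : n ≤ d := by
          have h := hN 1 (fun i => if i = Fin.last 9 then 1 else 0) (by
            rw [Fin.sum_univ_castSucc]
            have h1 : ∀ i : Fin 9, (if i.castSucc = Fin.last 9 then 1 else 0) = 0 :=
              fun i => if_neg (Fin.castSucc_lt_last i).ne
            simp only [h1, if_true, zero_mul, Finset.sum_const_zero]
            norm_num)
          rw [Fin.sum_univ_castSucc] at h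
          have h1 : ∀ i : Fin 9, (if i.castSucc = Fin.last 9 then 1 else 0) = 0 :=
            fun i => if_neg (Fin.castSucc_lt_last i).ne
          simp only [h1, if_true, Nat.cast_zero, Nat.cast_one, mul_zero, mul_one,
            Finset.sum_const_zero, zero_add] at h
          rw [hn]
          exact h
        have hS : 0 < ∑ i : Fin 9, m i.castSucc := by linarith
        have hterm2 : ∀ i : Fin 9, m i.castSucc * (μ i.castSucc : ℝ) - w * m i.castSucc +
            (w - i0) / 2 * m i.castSucc ≤ m i.castSucc * ((μ i.castSucc - w : ℕ) : ℝ) := by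
          intro i
          have h1 : (0 : ℝ) ≤ m i.castSucc * ((μ i.castSucc - w : ℕ) : ℝ) :=
            mul_nonneg (hm _) (Nat.cast_nonneg _)
          have h3 : m i.castSucc * (μ i.castSucc : ℝ) - w * m i.castSucc +
            (w - i0) / 2 * m i.castSucc = 0 := by
            linear_combination (m i.castSucc / 2) * hxR i
          linarith
        have hsum2 : ∑ i : Fin 9, m i.castSucc * μ i.castSucc - w * ∑ i : Fin 9, m i.castSucc +
            (w - i0) / 2 * ∑ i : Fin 9, m i.castSucc ≤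
            ∑ i : Fin 9, m i.castSucc * ((μ i.castSucc - w : ℕ) : ℝ) := by
          rw [Finset.mul_sum, Finset.mul_sum, ← Finset.sum_sub_distrib, ← Finset.sum_add_distrib]
          exact Finset.sum_le_sum fun i _ => hterm2 i
        have hp : 0 < (w - i0) / 2 * ∑ i : Fin 9, m i.castSucc :=
          mul_pos (by linarith) hS
        have hq : n * (c - ((2 * (g : ℝ) + 1) * ν - 2 * g * (g + 1) * Ξ - w)) = 0 := by
          rw [hceq, sub_self, mul_zero]
        linarith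
      · have hn1 : 0 < n := by rw [hne']; exact he0
        have hq : 0 < n * (c - ((2 * (g : ℝ) + 1) * ν - 2 * g * (g + 1) * Ξ - w)) :=
          mul_pos hn1 (by linarith)
        linarith
    · rw [hqj.1 hlt] at hIR
      have h1 : 0 < (e - n) * (w + 2 * j ^ 2 * Ξ - 2 * j * ν) :=
        mul_pos (by linarith) (by linarith)
      have h3 : 0 ≤ n * (c - ((2 * (g : ℝ) + 1) * ν - 2 * g * (g + 1) * Ξ - w)) :=
        mul_nonneg hn0 (by linarith)
      linarith
  linarith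

/-- The unfolded classes with `K·D > 0` are strictly positive on all curves. -/
theorem unfolding_strict [IsAlgClosed k] (h2 : (2 : k) ≠ 0) (P : Fin 10 → Fin 2 → k)
    (hP : AlgebraicIndependent (⊥ : Subfield k) (fun ij : Fin 10 × Fin 2 => P ij.1 ij.2))
    (d : ℝ) (m : Fin 10 → ℝ) (hm : ∀ i, 0 ≤ m i) (hK : ∑ i, m i ≤ 3 * d) (hN : NumNef d m)
    (j : ℤ) (e lam : ℝ) (he : e = 3 * d - ∑ i : Fin 9, m i.castSucc)
    (hlam : lam = 2 * j * (j * e + m (Fin.last 9)))
    (hpos : e < |m (Fin.last 9) + 2 * j * e|) :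
    (∀ i, 0 < (if i = Fin.last 9 then |m (Fin.last 9) + 2 * j * e| else m i + lam)) ∧
    ∀ (f : MvPolynomial (Fin 2) k) (δ : ℕ) (μ : Fin 10 → ℕ), f ≠ 0 → 1 ≤ δ →
      f.totalDegree ≤ δ → (∀ i, f ∈ ptIdeal (P i 0) (P i 1) ^ μ i) →
      ∑ i, (if i = Fin.last 9 then |m (Fin.last 9) + 2 * j * e| else m i + lam) * μ i <
        (d + 3 * lam) * δ := by
  have hK' : ∑ i : Fin 9, m i.castSucc + m (Fin.last 9) ≤ 3 * d := by
    rwa [Fin.sum_univ_castSucc] at hK
  have hn0 := hm (Fin.last 9)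
  have hne : m (Fin.last 9) ≤ e := by linarith
  have he0 : 0 ≤ e := hn0.trans hne
  have hcase : j = 0 ∨ ∃ (j' : ℕ) (σ : ℝ), 1 ≤ j' ∧ (σ = 1 ∨ σ = -1) ∧ (j : ℝ) = σ * j' := by
    obtain ⟨j', hj'⟩ := j.eq_nat_or_neg
    rcases Nat.eq_zero_or_pos j' with h0 | h0
    · left
      subst h0
      simpa using hj'
    · right
      rcases hj' with h | h
      · refine ⟨j', 1, h0, Or.inl rfl, ?_⟩
        rw [h]
        push_cast
        ring
      · refine ⟨j', -1, h0, Or.inr rfl, ?_⟩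
        rw [h]
        push_cast
        ring
  rcases hcase with hj | ⟨j', σ, hj', hσ, hjσ⟩
  · exfalso
    subst hj
    rw [Int.cast_zero, mul_zero, zero_mul, add_zero, abs_of_nonneg hn0] at hpos
    linarith
  · have hσ2 : σ * σ = 1 := by
      rcases hσ with h | h <;> rw [h] <;> norm_num
    have hj1 : (1 : ℝ) ≤ j' := by exact_mod_cast hj'
    have hlam' : lam = 2 * j' * (j' * (3 * d - ∑ i : Fin 9, m i.castSucc) +
        σ * m (Fin.last 9)) := by
      rw [hlam, hjσ, ← he]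
      linear_combination (2 * (j' : ℝ) ^ 2 * e) * hσ2
    have hσn : -m (Fin.last 9) ≤ σ * m (Fin.last 9) := by
      rcases hσ with h | h <;> rw [h] <;> linarith
    have hje : e ≤ j' * e := le_mul_of_one_le_left he0 hj1
    have hpos0 : 0 ≤ σ * m (Fin.last 9) + 2 * j' * e := by nlinarith
    have habs : |m (Fin.last 9) + 2 * (j : ℝ) * e| = σ * m (Fin.last 9) + 2 * j' * e := by
      rw [← abs_of_nonneg hpos0]
      rw [hjσ]
      rcases hσ with h | h
      · rw [h]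
        congr 1
        ring
      · rw [h, ← abs_neg]
        congr 1
        ring
    rw [habs] at hpos
    have hlam0 : 0 < lam := by
      rw [hlam', ← he]
      have h1 : 0 < j' * e + σ * m (Fin.last 9) := by
        rcases hσ with h | h
        · rw [h] at hpos ⊢
          nlinarith
        · rw [h] at hpos ⊢
          nlinarith
      positivity
    refine ⟨?_, ?_⟩
    · intro i
      split_ifs with hi
      · rw [habs]
        linarith
      · linarith [hm i]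
    · intro f δ μ hf hδ1 hδ hμ
      have key := unfold_strict_nat h2 P hP d m hm hK hN j' hj' σ hσ (by rw [← he]; exact hpos)
        f hf δ hδ1 hδ μ hμ
      rw [← hlam', ← he] at key
      rw [Fin.sum_univ_castSucc, habs]
      have h1 : ∀ i : Fin 9, (if i.castSucc = Fin.last 9 then σ * m (Fin.last 9) + 2 * j' * e
          else m i.castSucc + lam) = m i.castSucc + lam :=
        fun i => if_neg (Fin.castSucc_lt_last i).ne
      simp only [h1, if_true]
      exact key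

end ShghR
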