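import Pool.Agent.ShghE.Curve

/-!
# More facts about the function field of `y² = x³ + x`

`CurveData2` extends `ShghE.CurveData` by the converse of `aff` (a function which is regular on the affine
curve and vanishes to order `≥ m` at the point lies in the `m`-th power of the maximal ideal of the point)
and by the orders of `x` and `y` at infinity.

Proof of `exists_curveData2`: copy the file `ShghE/Curve.lean` (its lemmas are private); for the places
`vE (.some a b h) = vA (hOne h)` the converse is `vA_mem_iff` (`ShghE/CurveB.lean`), and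
`vInf_algebraMap`, `curveA_dg_x`, `curveA_dg_y` give the orders at infinity.
-/

namespace ShghR

open WeierstrassCurve WeierstrassCurve.Affine ShghE IsDedekindDomain

variable {k : Type*} [Field k]

structure CurveData2 (k : Type*) [Field k] [DecidableEq k] extends CurveData k where
  aff_conv : ∀ (a b : k) (h : (E0 k).Nonsingular a b) (r : R0 k) (m : ℕ), r ≠ 0 →
    (m : ℤ) ≤ E.v (.some a b h) (algebraMap (R0 k) (K0 k) r) →
    r ∈ (CoordinateRing.XYIdeal (E0 k) a (Polynomial.C b)) ^ m
  vx : E.v 0 (algebraMap (R0 k) (K0 k) (xR k)) = -2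
  vy : E.v 0 (algebraMap (R0 k) (K0 k) (yR k)) = -3

section Curve2_conj

open Polynomial

private theorem Curve2_yR_sq : (yR k) ^ 2 = (xR k) ^ 3 + xR k := by
  have h : (CoordinateRing.mk (E0 k)) (X ^ 2 + C (C 0 * X + C 0) * X -
      C (X ^ 3 + C 0 * X ^ 2 + C 1 * X + C 0)) = 0 := AdjoinRoot.mk_self
  simp only [map_add, map_sub, map_pow, map_zero, map_one, zero_mul, add_zero, one_mul]
    at h
  unfold yR xR
  linear_combination h

/-- The conjugation `y ↦ -y`. -/
private noncomputable def Curve2_conj : R0 k →+* R0 k :=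
  AdjoinRoot.lift (AdjoinRoot.of (E0 k).polynomial) (-(yR k)) (by
    have h := Curve2_yR_sq (k := k)
    change eval₂ (AdjoinRoot.of (E0 k).polynomial) (-(yR k)) (X ^ 2 + C (C 0 * X + C 0) * X -
      C (X ^ 3 + C 0 * X ^ 2 + C 1 * X + C 0)) = 0
    simp only [map_zero, map_one, zero_mul, add_zero, one_mul, eval₂_sub, eval₂_pow,
      eval₂_X, eval₂_C]
    have e : (AdjoinRoot.of (E0 k).polynomial) (X : k[X]) = xR k := rfl
    rw [map_add, map_pow, e]
    linear_combination h)

private theorem Curve2_conj_mk (p q : k[X]) :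
    Curve2_conj (p • (1 : R0 k) + q • CoordinateRing.mk (E0 k) X) =
      p • (1 : R0 k) - q • CoordinateRing.mk (E0 k) X := by
  have h1 : ∀ p : k[X], Curve2_conj (CoordinateRing.mk (E0 k) (C p)) = CoordinateRing.mk (E0 k) (C p) := by
    intro p
    exact AdjoinRoot.lift_of _
  have h2 : Curve2_conj (CoordinateRing.mk (E0 k) X) = - CoordinateRing.mk (E0 k) X := by
    exact AdjoinRoot.lift_root _
  rw [CoordinateRing.smul, CoordinateRing.smul, map_add, map_mul, map_mul, h1, h1, h2, map_one]
  ring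

private theorem Curve2_conj_conj (r : R0 k) : Curve2_conj (Curve2_conj r) = r := by
  obtain ⟨p, q, rfl⟩ := CoordinateRing.exists_smul_basis_eq r
  rw [Curve2_conj_mk, sub_eq_add_neg, ← neg_smul, Curve2_conj_mk, neg_smul, sub_neg_eq_add]

private theorem Curve2_conj_algebraMap (c : k) : Curve2_conj (algebraMap k (R0 k) c) = algebraMap k (R0 k) c := by
  have : algebraMap k (R0 k) c = (C c : k[X]) • (1 : R0 k) + (0 : k[X]) • CoordinateRing.mk (E0 k) X := by
    rw [CoordinateRing.smul, zero_smul, add_zero, mul_one]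
    rfl
  rw [this, Curve2_conj_mk, zero_smul, add_zero, sub_zero]

private theorem Curve2_conj_yR : Curve2_conj (yR k) = - yR k := by
  have : yR k = (0 : k[X]) • (1 : R0 k) + (1 : k[X]) • CoordinateRing.mk (E0 k) X := by
    rw [zero_smul, zero_add, one_smul]; rfl
  rw [this, Curve2_conj_mk, zero_smul, zero_add, zero_sub]

private theorem Curve2_conj_injective : Function.Injective (Curve2_conj (k := k)) :=
  Function.LeftInverse.injective Curve2_conj_conj

private theorem Curve2_dg_conj (r : R0 k) : dg (Curve2_conj r) = dg r := by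
  obtain ⟨p, q, rfl⟩ := CoordinateRing.exists_smul_basis_eq r
  rw [Curve2_conj_mk, sub_eq_add_neg, ← neg_smul]
  unfold dg
  rw [CoordinateRing.norm_smul_basis, CoordinateRing.norm_smul_basis]
  congr 1
  simp only [map_zero, zero_mul, add_zero, mul_zero, sub_zero]
  ring

private theorem Curve2_conj_mem (a b : k) {r : R0 k}
    (m : ℕ) (h : r ∈ (CoordinateRing.XYIdeal (E0 k) a (C b)) ^ m) :
    Curve2_conj r ∈ (CoordinateRing.XYIdeal (E0 k) a (C (-b))) ^ m := by
  have h1 : Ideal.map Curve2_conj (CoordinateRing.XYIdeal (E0 k) a (C b)) ≤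
      CoordinateRing.XYIdeal (E0 k) a (C (-b)) := by
    rw [CoordinateRing.XYIdeal, Ideal.map_span, Ideal.span_le]
    rintro x ⟨y, hy, rfl⟩
    rcases hy with rfl | rfl
    · have : Curve2_conj (CoordinateRing.XClass (E0 k) a) = CoordinateRing.XClass (E0 k) a := by
        exact AdjoinRoot.lift_of _
      rw [this]
      exact Ideal.subset_span (by simp)
    · have : Curve2_conj (CoordinateRing.YClass (E0 k) (C b)) =
          - CoordinateRing.YClass (E0 k) (C (-b)) := by
        unfold CoordinateRing.YClass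
        rw [map_sub, map_sub, map_sub]
        have e1 : Curve2_conj (CoordinateRing.mk (E0 k) X) = - CoordinateRing.mk (E0 k) X :=
          AdjoinRoot.lift_root _
        have e2 : Curve2_conj (CoordinateRing.mk (E0 k) (C (C b))) = CoordinateRing.mk (E0 k) (C (C b)) :=
          AdjoinRoot.lift_of _
        rw [e1, e2, C_neg, C_neg, map_neg]
        ring
      rw [this]
      exact neg_mem (Ideal.subset_span (by simp))
  have h2 := Ideal.mem_map_of_mem Curve2_conj h
  rw [Ideal.map_pow] at h2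
  exact Ideal.pow_right_mono h1 m h2

end Curve2_conj

section Curve2_iota

/-- The extension of the conjugation to the function field. -/
private noncomputable def Curve2_iotaK : K0 k →+* K0 k :=
  IsLocalization.map (M := nonZeroDivisors (R0 k)) (T := nonZeroDivisors (R0 k)) (K0 k) Curve2_conj
    (nonZeroDivisors_le_comap_nonZeroDivisors_of_injective Curve2_conj Curve2_conj_injective)

private theorem Curve2_iotaK_algebraMap (r : R0 k) :
    Curve2_iotaK (algebraMap (R0 k) (K0 k) r) = algebraMap (R0 k) (K0 k) (Curve2_conj r) :=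
  IsLocalization.map_eq _ r

private theorem Curve2_iotaK_iotaK (x : K0 k) : Curve2_iotaK (Curve2_iotaK x) = x := by
  have : (Curve2_iotaK (k := k)).comp Curve2_iotaK = RingHom.id (K0 k) := by
    apply IsLocalization.ringHom_ext (nonZeroDivisors (R0 k))
    refine RingHom.ext fun r => ?_
    simp only [RingHom.comp_apply, RingHom.id_apply]
    rw [Curve2_iotaK_algebraMap, Curve2_iotaK_algebraMap, Curve2_conj_conj]
  exact RingHom.congr_fun this x

private theorem Curve2_algebraMap_eq (c : k) :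
    algebraMap k (K0 k) c = algebraMap (R0 k) (K0 k) (algebraMap k (R0 k) c) :=
  IsScalarTower.algebraMap_apply k (R0 k) (K0 k) c

private theorem Curve2_iotaK_const (c : k) : Curve2_iotaK (algebraMap k (K0 k) c) = algebraMap k (K0 k) c := by
  rw [Curve2_algebraMap_eq, Curve2_iotaK_algebraMap, Curve2_conj_algebraMap]

end Curve2_iota

section Curve2_ord

private theorem Curve2_ord_one {K : Type*} [Field K] {v : K → ℤ} (hv : IsOrd v) : v 1 = 0 := by
  have := hv.mul (x := 1) (y := 1) one_ne_zero one_ne_zero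
  rw [one_mul] at this
  omega

private theorem Curve2_ord_div {v : K0 k → ℤ} (hv : IsOrd v) {r s : R0 k} (hr : r ≠ 0)
    (hs : s ≠ 0) :
    v (algebraMap (R0 k) (K0 k) r / algebraMap (R0 k) (K0 k) s) =
      v (algebraMap (R0 k) (K0 k) r) - v (algebraMap (R0 k) (K0 k) s) := by
  have hr' : algebraMap (R0 k) (K0 k) r ≠ 0 := by
    simpa using hr
  have hs' : algebraMap (R0 k) (K0 k) s ≠ 0 := by
    simpa using hs
  have := hv.mul (x := algebraMap (R0 k) (K0 k) r / algebraMap (R0 k) (K0 k) s)
    (y := algebraMap (R0 k) (K0 k) s) (div_ne_zero hr' hs') hs'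
  rw [div_mul_cancel₀ _ hs'] at this
  omega

/-- Two orders related by a ring endomorphism on `R0` are related on `K0`. -/
private theorem Curve2_ord_ext {v w : K0 k → ℤ} (hv : IsOrd v) (hw : IsOrd w)
    (h : ∀ r : R0 k, r ≠ 0 → v (algebraMap (R0 k) (K0 k) (Curve2_conj r)) =
      w (algebraMap (R0 k) (K0 k) r)) {x : K0 k} (hx : x ≠ 0) : v (Curve2_iotaK x) = w x := by
  obtain ⟨r, s, hs, rfl⟩ := IsFractionRing.div_surjective (A := R0 k) x
  have hs0 : s ≠ 0 := nonZeroDivisors.ne_zero hs
  have hr0 : r ≠ 0 := by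
    rintro rfl
    simp at hx
  rw [map_div₀, Curve2_iotaK_algebraMap, Curve2_iotaK_algebraMap, Curve2_ord_div hv, Curve2_ord_div hw hr0 hs0,
    h r hr0, h s hs0]
  · intro h0
    exact hr0 (Curve2_conj_injective (by rw [h0, map_zero]))
  · intro h0
    exact hs0 (Curve2_conj_injective (by rw [h0, map_zero]))

end Curve2_ord

section Curve2_main

variable [IsAlgClosed k] [DecidableEq k]

/-- The orders. -/
private noncomputable def Curve2_vE [IsDedekindDomain (R0 k)] : (E0 k).Point → K0 k → ℤ
  | .zero => vInf k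
  | .some _ _ h => vA (hOne h)

omit [IsAlgClosed k] [DecidableEq k] in
private theorem Curve2_vE_zero [IsDedekindDomain (R0 k)] : Curve2_vE (0 : (E0 k).Point) = vInf k := rfl

omit [IsAlgClosed k] [DecidableEq k] in
private theorem Curve2_vE_some [IsDedekindDomain (R0 k)] {a b : k} (h : (E0 k).Nonsingular a b) :
    Curve2_vE (.some a b h) = vA (hOne h) := rfl

omit [DecidableEq k] in
private theorem Curve2_vE_ptOf [IsDedekindDomain (R0 k)] (h2 : (2 : k) ≠ 0)
    (p : HeightOneSpectrum (R0 k)) : Curve2_vE (ptOf h2 p) = vA p := by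
  obtain ⟨a, b, h, rfl⟩ := exists_hOne h2 p
  rw [ptOf_hOne, Curve2_vE_some]

omit [DecidableEq k] in
private theorem Curve2_zero_notMem (h2 : (2 : k) ≠ 0) :
    (0 : (E0 k).Point) ∉ Set.range (ptOf h2) := by
  rintro ⟨p, hp⟩
  obtain ⟨a, b, h, rfl⟩ := exists_hOne h2 p
  rw [ptOf_hOne] at hp
  exact Point.some_ne_zero _ hp

omit [DecidableEq k] in
private theorem Curve2_insert_range (h2 : (2 : k) ≠ 0) :
    insert (0 : (E0 k).Point) (Set.range (ptOf h2)) = Set.univ := by
  rw [Set.eq_univ_iff_forall]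
  rintro (_ | ⟨a, b, h⟩)
  · exact Set.mem_insert _ _
  · exact Set.mem_insert_of_mem _ ⟨hOne h, ptOf_hOne h2 h⟩

omit [DecidableEq k] in
private theorem Curve2_finsum_point {M : Type*} [AddCommMonoid M] (h2 : (2 : k) ≠ 0)
    (f : (E0 k).Point → M) (hf : (Function.support f).Finite) :
    ∑ᶠ P, f P = f 0 + ∑ᶠ p : HeightOneSpectrum (R0 k), f (ptOf h2 p) := by
  rw [← finsum_mem_univ, ← Curve2_insert_range h2,
    finsum_mem_insert' f (Curve2_zero_notMem h2) (hf.subset Set.inter_subset_right),
    finsum_mem_range (hOne_ptOf_injective h2)]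

omit [IsAlgClosed k] [DecidableEq k] in
private theorem Curve2_isOrd_vE [IsDedekindDomain (R0 k)] (P : (E0 k).Point) : IsOrd (Curve2_vE P) := by
  rcases P with _ | ⟨a, b, h⟩
  · exact isOrd_vInf
  · exact isOrd_vA _

omit [DecidableEq k] in
private theorem Curve2_vE_fin [IsDedekindDomain (R0 k)] (h2 : (2 : k) ≠ 0) {x : K0 k} (hx : x ≠ 0) :
    {P : (E0 k).Point | Curve2_vE P x ≠ 0}.Finite := by
  refine (((vA_fin hx).image (ptOf h2)).insert 0).subset ?_
  rintro (_ | ⟨a, b, h⟩) hP
  · exact Set.mem_insert _ _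
  · refine Set.mem_insert_of_mem _ ⟨hOne h, hP, ptOf_hOne h2 h⟩

omit [IsAlgClosed k] [DecidableEq k] in
private theorem Curve2_const {v : K0 k → ℤ} (hv : IsOrd v)
    (hs : (∀ r : R0 k, r ≠ 0 → 0 ≤ v (algebraMap (R0 k) (K0 k) r)) ∨
      (∀ r : R0 k, r ≠ 0 → v (algebraMap (R0 k) (K0 k) r) ≤ 0)) {c : k} (hc : c ≠ 0) :
    v (algebraMap k (K0 k) c) = 0 := by
  have hr : algebraMap k (R0 k) c ≠ 0 := by simpa using hc
  have hr' : algebraMap k (R0 k) c⁻¹ ≠ 0 := by simpa using hc
  have hK : algebraMap (R0 k) (K0 k) (algebraMap k (R0 k) c) ≠ 0 := by simpa using hc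
  have hK' : algebraMap (R0 k) (K0 k) (algebraMap k (R0 k) c⁻¹) ≠ 0 := by simpa using hc
  have h1 := hv.mul hK hK'
  rw [← map_mul, ← map_mul, mul_inv_cancel₀ hc, map_one, map_one, Curve2_ord_one hv] at h1
  rw [Curve2_algebraMap_eq]
  rcases hs with h | h
  · have := h _ hr
    have := h _ hr'
    omega
  · have := h _ hr
    have := h _ hr'
    omega

omit [IsAlgClosed k] [DecidableEq k] in
private theorem Curve2_vA_nonneg [IsDedekindDomain (R0 k)] (p : HeightOneSpectrum (R0 k)) {r : R0 k}
    (hr : r ≠ 0) : 0 ≤ vA p (algebraMap (R0 k) (K0 k) r) := by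
  have := vA_mem p hr 0 (by simp)
  simpa using this

omit [IsAlgClosed k] [DecidableEq k] in
private theorem Curve2_vA_conj_le [IsDedekindDomain (R0 k)] {a b b' : k} (hb : b' = -b)
    (h : (E0 k).Nonsingular a b) (h' : (E0 k).Nonsingular a b') {r : R0 k} (hr : r ≠ 0) :
    vA (hOne h) (algebraMap (R0 k) (K0 k) r) ≤
      vA (hOne h') (algebraMap (R0 k) (K0 k) (Curve2_conj r)) := by
  obtain ⟨m, hm⟩ := Int.eq_ofNat_of_zero_le (Curve2_vA_nonneg (hOne h) hr)
  have h1 : r ∈ (hOne h).asIdeal ^ m := (vA_mem_iff (hOne h) hr m).mpr (by rw [hm])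
  have h2 := Curve2_conj_mem a b m h1
  have hr' : Curve2_conj r ≠ 0 := by
    intro h0
    exact hr (Curve2_conj_injective (by rw [h0, map_zero]))
  subst hb
  rw [hm]
  exact vA_mem (hOne h') hr' m h2

omit [IsAlgClosed k] [DecidableEq k] in
private theorem Curve2_vA_conj [IsDedekindDomain (R0 k)] {a b b' : k} (hb : b' = -b)
    (h : (E0 k).Nonsingular a b) (h' : (E0 k).Nonsingular a b') {r : R0 k} (hr : r ≠ 0) :
    vA (hOne h) (algebraMap (R0 k) (K0 k) (Curve2_conj r)) =
      vA (hOne h') (algebraMap (R0 k) (K0 k) r) := by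
  have hr' : Curve2_conj r ≠ 0 := by
    intro h0
    exact hr (Curve2_conj_injective (by rw [h0, map_zero]))
  apply le_antisymm
  · have := Curve2_vA_conj_le hb h h' hr'
    rw [Curve2_conj_conj] at this
    exact this
  · exact Curve2_vA_conj_le (by rw [hb, neg_neg]) h' h hr

omit [IsAlgClosed k] [DecidableEq k] in
theorem Curve2_yR_ne_zero : yR k ≠ 0 := by
  intro h
  have h1 := CoordinateRing.smul_basis_eq_zero (W' := E0 k) (p := 0) (q := 1) (by
    rw [zero_smul, zero_add, one_smul]; exact h)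
  exact one_ne_zero h1.2

omit [IsAlgClosed k] [DecidableEq k] in
theorem Curve2_xR_ne_zero : xR k ≠ 0 := by
  intro h
  have h1 := CoordinateRing.smul_basis_eq_zero (W' := E0 k) (p := Polynomial.X) (q := 0) (by
    rw [zero_smul, add_zero, CoordinateRing.smul, mul_one]; exact h)
  exact Polynomial.X_ne_zero h1.1

omit [IsAlgClosed k] [DecidableEq k] in
private theorem Curve2_vA_yR [IsDedekindDomain (R0 k)] (hT : (E0 k).Nonsingular 0 0) :
    vA (hOne hT) (algebraMap (R0 k) (K0 k) (yR k)) = 1 := by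
  have hx : (hOne hT).asIdeal = Ideal.span {xR k, yR k} := by
    change CoordinateRing.XYIdeal (E0 k) 0 (Polynomial.C 0) = _
    rw [CoordinateRing.XYIdeal, CoordinateRing.XClass, CoordinateRing.YClass]
    simp only [Polynomial.C_0, sub_zero]
    rfl
  have h1 : yR k ∈ (hOne hT).asIdeal ^ 1 := by
    rw [pow_one, hx]
    exact Ideal.subset_span (by simp)
  have hx1 : xR k ∈ (hOne hT).asIdeal := by
    rw [hx]
    exact Ideal.subset_span (by simp)
  have h2 : yR k ∉ (hOne hT).asIdeal ^ 2 := by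
    intro h
    have hx2 : xR k ∈ (hOne hT).asIdeal ^ 2 := by
      have e : xR k = yR k * yR k - xR k * (xR k * xR k) := by
        have := Curve2_yR_sq (k := k)
        linear_combination (-1 : R0 k) * this
      rw [e]
      refine sub_mem (Ideal.mul_mem_left _ _ h) (Ideal.mul_mem_left _ _ ?_)
      rw [pow_two]
      exact Ideal.mul_mem_mul hx1 hx1
    have hle : (hOne hT).asIdeal ≤ (hOne hT).asIdeal ^ 2 := by
      conv_lhs => rw [hx]
      rw [Ideal.span_le]
      rintro z hz
      rcases hz with rfl | rfl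
      · exact hx2
      · exact h
    exact absurd (lt_of_le_of_lt hle (Ideal.pow_lt_self _ (hOne hT).ne_bot
      (hOne hT).isPrime.ne_top 2 le_rfl)) (lt_irrefl _)
  have h3 := vA_mem (hOne hT) Curve2_yR_ne_zero 1 h1
  have h4 : ¬ ((2 : ℕ) : ℤ) ≤ vA (hOne hT) (algebraMap (R0 k) (K0 k) (yR k)) :=
    fun hh => h2 ((vA_mem_iff (hOne hT) Curve2_yR_ne_zero 2).mpr hh)
  push_cast at h3 h4
  omega

omit [IsAlgClosed k] [DecidableEq k] in
private theorem Curve2_exists_res_R0 {a b : k} (h : (E0 k).Nonsingular a b) (d : R0 k) :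
    ∃ c : k, d - algebraMap k (R0 k) c ∈ (hOne h).asIdeal := by
  have hev : ((E0 k).polynomial.eval (Polynomial.C b)).eval a = 0 := h.1
  let e := CoordinateRing.quotientXYIdealEquiv (W' := E0 k) hev
  refine ⟨e (Ideal.Quotient.mk _ d), ?_⟩
  change d - algebraMap k (R0 k) _ ∈ CoordinateRing.XYIdeal (E0 k) a (Polynomial.C b)
  rw [← Ideal.Quotient.eq_zero_iff_mem]
  apply e.injective
  rw [map_sub, map_sub, map_zero]
  have : e (Ideal.Quotient.mk _ (algebraMap k (R0 k) (e (Ideal.Quotient.mk _ d)))) =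
      algebraMap k k (e (Ideal.Quotient.mk _ d)) := e.commutes _
  rw [this, Algebra.algebraMap_self_apply, sub_self]

omit [IsAlgClosed k] [DecidableEq k] in
private theorem Curve2_exists_res [IsDedekindDomain (R0 k)] {a b : k} (h : (E0 k).Nonsingular a b)
    {x : K0 k} (hx : x ≠ 0) (h0 : 0 ≤ vA (hOne h) x) :
    ∃ c : k, x - algebraMap k (K0 k) c ≠ 0 → 1 ≤ vA (hOne h) (x - algebraMap k (K0 k) c) := by
  rcases eq_or_lt_of_le h0 with h0' | h0'
  swap
  · refine ⟨0, fun _ => ?_⟩
    rw [map_zero, sub_zero]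
    omega
  obtain ⟨r, s, hs, rfl⟩ := IsFractionRing.div_surjective (A := R0 k) x
  have hs0 : s ≠ 0 := nonZeroDivisors.ne_zero hs
  have hr0 : r ≠ 0 := by
    rintro rfl
    simp at hx
  rw [Curve2_ord_div (isOrd_vA _) hr0 hs0] at h0'
  obtain ⟨n, hn⟩ := Int.eq_ofNat_of_zero_le (Curve2_vA_nonneg (hOne h) hs0)
  have hrn : r ∈ (hOne h).asIdeal ^ n := (vA_mem_iff (hOne h) hr0 n).mpr (by omega)
  have hsn : s ∈ (hOne h).asIdeal ^ n := (vA_mem_iff (hOne h) hs0 n).mpr (by omega)
  have hsn' : s ∉ (hOne h).asIdeal ^ (n + 1) := by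
    intro hh
    have := vA_mem (hOne h) hs0 (n + 1) hh
    push_cast at this
    omega
  have := (hOne h).isPrime
  obtain ⟨d, e, he, hde⟩ := Ideal.exists_mul_add_mem_pow_succ (hOne h).ne_bot s r hsn hsn' hrn
  obtain ⟨c, hc⟩ := Curve2_exists_res_R0 h d
  refine ⟨c, fun hne => ?_⟩
  have hmem : r - algebraMap k (R0 k) c * s ∈ (hOne h).asIdeal ^ (n + 1) := by
    have e1 : r - algebraMap k (R0 k) c * s = s * (d - algebraMap k (R0 k) c) + e := by
      rw [← hde]; ring
    rw [e1]
    refine add_mem ?_ he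
    rw [pow_succ]
    exact Ideal.mul_mem_mul hsn hc
  have hsK : algebraMap (R0 k) (K0 k) s ≠ 0 := by simpa using hs0
  have e2 : algebraMap (R0 k) (K0 k) r / algebraMap (R0 k) (K0 k) s - algebraMap k (K0 k) c =
      algebraMap (R0 k) (K0 k) (r - algebraMap k (R0 k) c * s) / algebraMap (R0 k) (K0 k) s := by
    rw [map_sub, map_mul, Curve2_algebraMap_eq]
    field_simp
  have hne' : r - algebraMap k (R0 k) c * s ≠ 0 := by
    intro h1
    rw [e2, h1, map_zero, zero_div] at hne
    exact hne rfl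
  rw [e2, Curve2_ord_div (isOrd_vA _) hne' hs0]
  have := vA_mem (hOne h) hne' (n + 1) hmem
  rw [Nat.cast_add, Nat.cast_one] at this
  omega

end Curve2_main

theorem exists_curveData2 [IsAlgClosed k] [DecidableEq k] (h2 : (2 : k) ≠ 0) :
    Nonempty (CurveData2 k) := by
  have hD := isDedekindDomain_R0 h2
  have hT : (E0 k).Nonsingular 0 0 := nonsingular_of_eq h2 (by norm_num)
  let T : (E0 k).Point := .some 0 0 hT
  refine ⟨⟨⟨⟨Curve2_vE, Curve2_isOrd_vE, fun x hx => Curve2_vE_fin h2 hx, fun x hx => ?_, fun x hx => ?_,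
    fun d hd h0 hs => ?_, fun c hc P => ?_, Curve2_iotaK, Curve2_iotaK_iotaK, Curve2_iotaK_const, fun P x hx => ?_,
    T, ?_, algebraMap (R0 k) (K0 k) (yR k),
    fun e => Curve2_yR_ne_zero (IsFractionRing.injective (R0 k) (K0 k) (by rw [e, map_zero])),
    ?_, ?_, fun x hx h0 => ?_⟩, hT, rfl, rfl,
    fun a b h r m hr hm => ?_, fun f hf => ?_⟩, fun a b h r m hr hm => ?_, ?_, ?_⟩⟩
  · rw [Curve2_finsum_point h2 _ (Curve2_vE_fin h2 hx), Curve2_vE_zero, add_comm, finsum_congr (fun p => by rw [Curve2_vE_ptOf]),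
      sum_vA h2 hx]
  · have hfin : (Function.support fun P : (E0 k).Point => Curve2_vE P x • P).Finite := by
      refine (Curve2_vE_fin h2 hx).subset fun P hP => ?_
      intro h0
      exact hP (by simp only [h0, zero_smul])
    rw [Curve2_finsum_point h2 _ hfin, smul_zero, zero_add, finsum_congr (fun p => by rw [Curve2_vE_ptOf]),
      sum_vA_smul h2 hx]
  · -- existence
    have hs' : ∑ᶠ p : HeightOneSpectrum (R0 k), d (ptOf h2 p) • ptOf h2 p = 0 := by
      have hfin : (Function.support fun P : (E0 k).Point => d P • P).Finite := by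
        refine hd.subset fun P hP => ?_
        intro h0
        exact hP (by simp only [h0, zero_smul])
      rw [Curve2_finsum_point h2 _ hfin, smul_zero, zero_add] at hs
      exact hs
    have hd' : (Function.support fun p : HeightOneSpectrum (R0 k) => d (ptOf h2 p)).Finite :=
      Set.Finite.preimage (hOne_ptOf_injective h2).injOn hd
    obtain ⟨x, hx, hv⟩ := exists_of_sum h2 (fun p => d (ptOf h2 p)) hd' hs'
    refine ⟨x, hx, ?_⟩
    have h1 := sum_vA h2 hx
    rw [finsum_congr hv] at h1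
    rw [Curve2_finsum_point h2 _ hd] at h0
    rintro (_ | ⟨a, b, h⟩)
    · change vInf k x = d 0
      linarith
    · have := hv (hOne h)
      rw [ptOf_hOne] at this
      exact this
  · rcases P with _ | ⟨a, b, h⟩
    · refine Curve2_const isOrd_vInf (Or.inr fun r hr => ?_) hc
      rw [vInf_algebraMap hr]
      omega
    · exact Curve2_const (isOrd_vA _) (Or.inl fun r hr => Curve2_vA_nonneg _ hr) hc
  · rcases P with _ | ⟨a, b, h⟩
    · refine Curve2_ord_ext isOrd_vInf isOrd_vInf (fun r hr => ?_) hx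
      have hr' : Curve2_conj r ≠ 0 := by
        intro h0
        exact hr (Curve2_conj_injective (by rw [h0, map_zero]))
      rw [vInf_algebraMap hr', vInf_algebraMap hr, Curve2_dg_conj]
    · rw [Point.neg_some]
      refine Curve2_ord_ext (isOrd_vA _) (isOrd_vA _) (fun r hr => ?_) hx
      exact Curve2_vA_conj (by simp [WeierstrassCurve.Affine.negY]) h _ hr
  · exact Point.add_of_Y_eq rfl (by simp [WeierstrassCurve.Affine.negY])
  · exact Curve2_vA_yR hT
  · rw [Curve2_iotaK_algebraMap, Curve2_conj_yR, map_neg]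
  · exact Curve2_exists_res hT hx h0
  · exact vA_mem (hOne h) hr m hm
  · change - 3 * (f.totalDegree : ℤ) ≤ vInf k (algebraMap (R0 k) (K0 k) (psi k f))
    rw [vInf_algebraMap hf]
    have := dg_psi f
    omega
  · exact (vA_mem_iff (hOne h) hr m).mpr hm
  · change vInf k (algebraMap (R0 k) (K0 k) (xR k)) = -2
    rw [vInf_algebraMap Curve2_xR_ne_zero, curveA_dg_x]
    rfl
  · change vInf k (algebraMap (R0 k) (K0 k) (yR k)) = -3
    rw [vInf_algebraMap Curve2_yR_ne_zero, curveA_dg_y]
    rfl

end ShghR
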