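import Pool.Agent.ShghR.Defs
import Pool.Agent.ShghE.Transfer

/-!
# Dimension counts
-/

namespace ShghR

open MvPolynomial ShghE

variable {k : Type*} [Field k]

/-- The number of exponents of degree `< n`. -/
theorem card_degree_lt (n : ℕ) :
    2 * (Finsupp.finite_of_degree_lt (σ := Fin 2) n).toFinset.card = n * (n + 1) := by
  have h1 : (Finsupp.finite_of_degree_lt (σ := Fin 2) n).toFinset.card =
      ((Finset.range n).sigma fun d => Finset.HasAntidiagonal.antidiagonal d).card := by
    refine Finset.card_nbij' (fun e => ⟨e 0 + e 1, (e 0, e 1)⟩)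
      (fun p => Finsupp.equivFunOnFinite.symm ![p.2.1, p.2.2]) ?_ ?_ ?_ ?_
    · intro e he
      have he' : e.degree < n := by simpa using he
      rw [Finsupp.degree_eq_sum, Fin.sum_univ_two] at he'
      simpa using he'
    · rintro ⟨d, a, b⟩ hp
      have hp' : d < n ∧ a + b = d := by simpa using hp
      have : (Finsupp.equivFunOnFinite.symm ![a, b] : Fin 2 →₀ ℕ).degree < n := by
        rw [Finsupp.degree_eq_sum, Fin.sum_univ_two]
        simp only [Finsupp.equivFunOnFinite_symm_apply_apply, Matrix.cons_val_zero,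
          Matrix.cons_val_one]
        omega
      simpa using this
    · intro e _
      ext i
      fin_cases i <;> simp
    · rintro ⟨d, a, b⟩ hp
      have hp' : d < n ∧ a + b = d := by simpa using hp
      obtain ⟨_, rfl⟩ := hp'
      simp
  rw [h1, Finset.card_sigma]
  simp only [Finset.Nat.card_antidiagonal]
  clear h1
  induction n with
  | zero => simp
  | succ n ih =>
    rw [Finset.sum_range_succ, mul_add, ih]
    ring

theorem Mult_card_le (n : ℕ) : 2 * Fintype.card (tfS n) = (n + 1) * (n + 2) := by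
  have h : (tfS n).card = (Finsupp.finite_of_degree_lt (σ := Fin 2) (n + 1)).toFinset.card := by
    congr 1
    ext e
    rw [mem_tfS]
    simp
  rw [Fintype.card_coe, h, card_degree_lt]

/-- the polynomial with given coefficients -/
noncomputable def Mult_pol (k : Type*) [Field k] (n : ℕ) :
    (tfS n → k) →ₗ[k] MvPolynomial (Fin 2) k where
  toFun c := ∑ e : tfS n, monomial (e : Fin 2 →₀ ℕ) (c e)
  map_add' c c' := by
    simp only [Pi.add_apply, map_add, Finset.sum_add_distrib]
  map_smul' a c := by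
    simp only [Pi.smul_apply, RingHom.id_apply, Finset.smul_sum, smul_monomial]

theorem Mult_pol_inj (n : ℕ) : Function.Injective (Mult_pol k n) := by
  intro c c' h
  ext e
  have h1 := tf_sum_coeff c e
  have h2 := tf_sum_coeff c' e
  rw [← h1, ← h2]
  exact congrArg (fun f => coeff (e : Fin 2 →₀ ℕ) f) h

/-- the linear conditions -/
noncomputable def Mult_cond {ι : Type*} (q : ι → Fin 2 → k) (ν : ι → ℕ) (n : ℕ) :
    (tfS n → k) →ₗ[k]
      ((Σ i : ι, ((Finsupp.finite_of_degree_lt (σ := Fin 2) (ν i)).toFinset)) → k) :=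
  (Matrix.of fun (r : Σ i : ι, ((Finsupp.finite_of_degree_lt (σ := Fin 2) (ν i)).toFinset))
    (e : tfS n) => tfM (q r.1 0) (q r.1 1) (e : Fin 2 →₀ ℕ) r.2).mulVecLin

theorem Mult_cond_iff {ι : Type*} (q : ι → Fin 2 → k) (ν : ι → ℕ) (n : ℕ) (c : tfS n → k)
    (h : Mult_cond q ν n c = 0) (i : ι) : Mult_pol k n c ∈ ptIdeal (q i 0) (q i 1) ^ ν i := by
  refine (tf_mem_iff _ _ _ _).2 fun x hx => ?_
  have h1 := congrFun h ⟨i, ⟨x, by simpa using hx⟩⟩
  have h2 : (tfShift (q i 0) (q i 1) (∑ e : tfS n, monomial (e : Fin 2 →₀ ℕ) (c e))).coeff x =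
      ∑ e : tfS n, tfM (q i 0) (q i 1) (e : Fin 2 →₀ ℕ) x * c e := tf_coeff _ _ _ _ _
  change (tfShift (q i 0) (q i 1) (∑ e : tfS n, monomial (e : Fin 2 →₀ ℕ) (c e))).coeff x = 0
  rw [h2]
  simpa [Mult_cond, Matrix.mulVecLin_apply, Matrix.mulVec, dotProduct] using h1

theorem Mult_rows {ι : Type*} [Fintype ι] (ν : ι → ℕ) :
    2 * Fintype.card (Σ i : ι, ((Finsupp.finite_of_degree_lt (σ := Fin 2) (ν i)).toFinset)) =
      ∑ i, ν i * (ν i + 1) := by
  rw [Fintype.card_sigma, Finset.mul_sum]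
  refine Finset.sum_congr rfl fun i _ => ?_
  rw [Fintype.card_coe, card_degree_lt]

/-- Dimension count: the space of polynomials of degree `≤ n` has dimension `(n+1)(n+2)/2`
(`ShghE.tfS`, `tf_expand`, `tf_sum_coeff`), multiplicity `≥ ν` at a point is given by `ν(ν+1)/2`
linear conditions (`ShghE.tf_mem_iff`, `tf_coeff`). -/
theorem exists_of_count {ι : Type*} [Fintype ι] (q : ι → Fin 2 → k) (ν : ι → ℕ) (n : ℕ)
    (h : ∑ i, ν i * (ν i + 1) < (n + 1) * (n + 2)) :
    ∃ f : MvPolynomial (Fin 2) k, f ≠ 0 ∧ f.totalDegree ≤ n ∧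
      ∀ i, f ∈ ptIdeal (q i 0) (q i 1) ^ ν i := by
  have h1 : LinearMap.ker (Mult_cond q ν n) ≠ ⊥ := by
    apply LinearMap.ker_ne_bot_of_finrank_lt
    rw [Module.finrank_fintype_fun_eq_card, Module.finrank_fintype_fun_eq_card]
    have h2 := Mult_card_le n
    have h3 := Mult_rows ν
    omega
  obtain ⟨c, hc, hc0⟩ := Submodule.exists_mem_ne_zero_of_ne_bot h1
  rw [LinearMap.mem_ker] at hc
  refine ⟨Mult_pol k n c, ?_, tf_sum_degree c, fun i => Mult_cond_iff q ν n c hc i⟩
  intro h0
  exact hc0 (Mult_pol_inj n (by rw [h0, map_zero]))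

/-- Dimension count modulo the multiples of a polynomial `F` of degree `a`: these form a subspace of
dimension `(n-a+1)(n-a+2)/2` of the polynomials of degree `≤ n`. -/
theorem exists_not_dvd {ι : Type*} [Fintype ι] (q : ι → Fin 2 → k) (ν : ι → ℕ) (n : ℕ)
    (F : MvPolynomial (Fin 2) k) (hF : F ≠ 0) (hn : F.totalDegree ≤ n)
    (h : ∑ i, ν i * (ν i + 1) + (n - F.totalDegree + 1) * (n - F.totalDegree + 2) <
      (n + 1) * (n + 2)) :
    ∃ g : MvPolynomial (Fin 2) k, ¬ F ∣ g ∧ g.totalDegree ≤ n ∧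
      ∀ i, g ∈ ptIdeal (q i 0) (q i 1) ^ ν i := by
  set a := F.totalDegree with ha
  set R1 : Submodule k (MvPolynomial (Fin 2) k) :=
    LinearMap.range ((LinearMap.mulLeft k F).comp (Mult_pol k (n - a))) with hR1
  set R2 : Submodule k (MvPolynomial (Fin 2) k) :=
    LinearMap.range ((Mult_pol k n).comp (LinearMap.ker (Mult_cond q ν n)).subtype) with hR2
  have d1 : Module.finrank k R1 ≤ Fintype.card (tfS (n - a)) := by
    refine (LinearMap.finrank_range_le _).trans ?_
    rw [Module.finrank_fintype_fun_eq_card]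
  have d2 : Module.finrank k R2 = Module.finrank k (LinearMap.ker (Mult_cond q ν n)) := by
    apply LinearMap.finrank_range_of_inj
    intro x y hxy
    exact Subtype.ext (Mult_pol_inj n hxy)
  have d3 := LinearMap.finrank_range_add_finrank_ker (Mult_cond q ν n)
  have d4 : Module.finrank k (LinearMap.range (Mult_cond q ν n)) ≤
      Fintype.card (Σ i : ι, ((Finsupp.finite_of_degree_lt (σ := Fin 2) (ν i)).toFinset)) := by
    refine (Submodule.finrank_le _).trans ?_
    rw [Module.finrank_fintype_fun_eq_card]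
  rw [Module.finrank_fintype_fun_eq_card] at d3
  have e1 := Mult_card_le n
  have e2 := Mult_card_le (n - a)
  have e3 := Mult_rows ν
  have hlt : Module.finrank k R1 < Module.finrank k R2 := by omega
  have hnot : ¬ R2 ≤ R1 := by
    intro hle
    have := Submodule.finrank_mono hle
    omega
  obtain ⟨g, hg2, hg1⟩ := SetLike.not_le_iff_exists.1 hnot
  obtain ⟨⟨c, hc⟩, rfl⟩ := hg2
  rw [LinearMap.mem_ker] at hc
  refine ⟨Mult_pol k n c, ?_, tf_sum_degree c, fun i => Mult_cond_iff q ν n c hc i⟩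
  rintro ⟨t, ht⟩
  apply hg1
  change Mult_pol k n c ∈ R1
  by_cases ht0 : t = 0
  · rw [ht, ht0, mul_zero]
    exact zero_mem _
  have hdeg : t.totalDegree ≤ n - a := by
    have h1 := totalDegree_mul_of_isDomain hF ht0
    have h2 : (Mult_pol k n c).totalDegree ≤ n := tf_sum_degree c
    rw [ht, h1] at h2
    omega
  refine ⟨fun e => t.coeff e, ?_⟩
  rw [ht]
  change F * (∑ e : tfS (n - a), monomial (e : Fin 2 →₀ ℕ) (t.coeff e)) = F * t
  rw [← tf_expand hdeg]

end ShghR
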