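import Pool.Agent.ShghE.Fm

/-!
# The end point of the curve `C_m`
-/

set_option linter.unusedSectionVars false

namespace ShghR

open Polynomial ShghE

variable {k K A : Type*} [Field k] [Field K] [Algebra k K] [AddCommGroup A]
variable (E : EField k K A) (n : E.Twist)

private lemma EndPt_pair {f : A → ℤ} (hf : (Function.support f).Finite) (h0 : ∀ P, 0 ≤ f P)
    {P Q : A} (hPQ : P ≠ Q) : f P + f Q ≤ ∑ᶠ R, f R := by
  classical
  have h1 : ∑ᶠ R, f R = ∑ R ∈ hf.toFinset ∪ {P, Q}, f R := by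
    apply finsum_eq_sum_of_support_subset
    intro R hR
    simp only [Finset.coe_union, Set.Finite.coe_toFinset]
    exact Or.inl hR
  rw [h1]
  have h2 : f P + f Q = ∑ R ∈ ({P, Q} : Finset A), f R := by
    rw [Finset.sum_pair hPQ]
  rw [h2]
  exact Finset.sum_le_sum_of_subset_of_nonneg Finset.subset_union_right (fun R _ _ => h0 R)

private lemma EndPt_single {f : A → ℤ} (hf : (Function.support f).Finite) (h0 : ∀ P, 0 ≤ f P)
    (P : A) : f P ≤ ∑ᶠ R, f R := by
  classical
  have h1 : ∑ᶠ R, f R = ∑ R ∈ hf.toFinset ∪ {P}, f R := by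
    apply finsum_eq_sum_of_support_subset
    intro R hR
    simp only [Finset.coe_union, Set.Finite.coe_toFinset]
    exact Or.inl hR
  rw [h1]
  have h2 : f P = ∑ R ∈ ({P} : Finset A), f R := by
    rw [Finset.sum_singleton]
  conv_lhs => rw [h2]
  exact Finset.sum_le_sum_of_subset_of_nonneg Finset.subset_union_right (fun R _ _ => h0 R)

/-- a function which vanishes off one place -/
private lemma EndPt_smul {f : A → ℤ} {z : A} (h : ∀ P, P ≠ z → f P = 0) :
    ∑ᶠ P, f P • P = f z • z := by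
  rw [finsum_eq_single _ z]
  intro P hP
  rw [h P hP, zero_smul]

/-- See the private lemma `SMain_odd` in `ShghE/SMain.lean`: `τ ≥ 0`, `Σ τ_P = b(C) = 1`
(`sum_tau`), so `τ` is one at one place `z`, which is determined by `sum_tau_smul`. -/
theorem end_tau {v0 : k} {g : ℕ} {C : K[X]} (hC : E.IsC n v0 g C) :
    E.tau n (E.T - ((g * (g + 1) : ℕ) : ℤ) • n.s) C = 1 := by
  have hC0 : C ≠ 0 := hC.irr.ne_zero
  have hfin := E.tau_fin n hC0
  have hsum := E.sum_tau n hC0
  rw [hC.b] at hsum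
  have hz : ∃ z, E.tau n z C = 1 ∧ ∀ P, P ≠ z → E.tau n P C = 0 := by
    have h1 : ∃ z, 0 < E.tau n z C := by
      by_contra hcon
      push Not at hcon
      have h2 : ∀ P, E.tau n P C = 0 := fun P => le_antisymm (hcon P) (E.tau_nonneg n P hC0)
      simp only [h2, finsum_zero] at hsum
      exact zero_ne_one hsum
    obtain ⟨z, hz⟩ := h1
    have h2 := EndPt_single hfin (fun P => E.tau_nonneg n P hC0) z
    rw [hsum] at h2
    have h3 : E.tau n z C = 1 := by omega
    refine ⟨z, h3, fun P hP => ?_⟩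
    have h4 := EndPt_pair hfin (fun P => E.tau_nonneg n P hC0) hP
    rw [hsum, h3] at h4
    have h5 := E.tau_nonneg n P hC0
    linarith
  obtain ⟨z, hz1, hz2⟩ := hz
  have hzeq : z = E.T - ((g * (g + 1) : ℕ) : ℤ) • n.s := by
    have h1 := E.sum_tau_smul n hC0
    rw [EndPt_smul (f := fun P => E.tau n P C) hz2, hC.cls, hC.deg] at h1
    simp only [hz1, one_smul] at h1
    rw [h1]
    have h2 : ((2 * g * (g + 1) : ℕ) : ℤ) = ((g * (g + 1) : ℕ) : ℤ) + ((g * (g + 1) : ℕ) : ℤ) := by
      push_cast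
      ring
    rw [h2, add_smul]
    abel
  rw [hzeq] at hz1
  exact hz1

/-- If `C^a ∣ F`, `deg F ≤ D` and `w_z(F) ≥ 0`, `n_z = 0`, then the coefficient of `X^D` of `F` has order
`≥ a` at `z`: it is zero or the leading coefficient; use `tau_mul`, `tau_nonneg` and the definition
`tau_z(F) = v_z(lc F) - deg F n_z - w_z(F)`. -/
theorem end_coeff {z : A} (hz : n.n z = 0) {C F : K[X]} (hC : C ≠ 0) (hF : F ≠ 0)
    (htau : E.tau n z C = 1) {a D : ℕ} (hdvd : C ^ a ∣ F) (hD : F.natDegree ≤ D)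
    (hw : 0 ≤ E.w n z F) (hc : F.coeff D ≠ 0) : (a : ℤ) ≤ E.v z (F.coeff D) := by
  have hDeq : F.natDegree = D := by
    by_contra hne
    exact hc (coeff_eq_zero_of_natDegree_lt (lt_of_le_of_ne hD hne))
  obtain ⟨G, rfl⟩ := hdvd
  have hpow : ∀ j : ℕ, C ^ j ≠ 0 := fun j => pow_ne_zero j hC
  have hG : G ≠ 0 := right_ne_zero_of_mul hF
  have htp : ∀ j : ℕ, E.tau n z (C ^ j) = j := by
    intro j
    induction j with
    | zero =>
      have h1 := E.tau_mul n z (one_ne_zero (α := K[X])) (one_ne_zero (α := K[X]))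
      rw [mul_one] at h1
      rw [pow_zero]
      push_cast
      linarith
    | succ j ih =>
      rw [pow_succ, E.tau_mul n z (hpow j) hC, ih, htau]
      push_cast
      ring
  have h1 := E.tau_mul n z (hpow a) hG
  rw [htp] at h1
  have h2 := E.tau_nonneg n z hG
  have h3 : E.tau n z (C ^ a * G) = E.v z ((C ^ a * G).coeff D) - E.w n z (C ^ a * G) := by
    unfold EField.tau
    rw [hz, mul_zero, sub_zero, leadingCoeff, hDeq]
  linarith

end ShghR
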