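import Pool.Agent.ShghR.MultC
import Pool.Agent.ShghR.ResCEq

/-!
# The multiplicity along `C_m`: the case of equality

If the bound of `mult_C` is sharp the line bundle on `C` is trivial, which gives a relation between the
points.
-/

set_option linter.unusedSectionVars false

namespace ShghR

open Polynomial ShghE

variable {k K A : Type*} [Field k] [Field K] [Algebra k K] [AddCommGroup A]
variable (E : EField k K A) (n : E.Twist)

private lemma MultCEq_fin_smul {f : A → ℤ} (hf : (Function.support f).Finite) :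
    (Function.support fun P => f P • P).Finite := by
  apply hf.subset
  intro P hP
  rw [Function.mem_support] at hP ⊢
  intro h
  apply hP
  rw [h, zero_smul]

theorem mult_C_eq {v0 : k} (h0 : v0 ≠ 0) {g : ℕ} (hg : 1 ≤ g) {C : K[X]} (hC : E.IsC n v0 g C)
    (O : A) (hO : O ≠ E.T) (F F' : ℕ → K[X]) (w : ℕ) (hdeg : ∀ i, (F i).natDegree ≤ w + i)
    (hdeg' : ∀ i, (F' i).natDegree ≤ w + i)
    (Mf : A → ℤ) (hMf : (Function.support Mf).Finite) (hMT : Mf E.T = 0)
    (hFP : ∀ i P, P ≠ O → F i ≠ 0 → - Mf P ≤ E.w n P (F i))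
    (hFO : ∀ i, F' i ≠ 0 → - Mf O ≤ E.w n O (F' i))
    (μ : ℤ) (hμ : ∀ i, F i ≠ 0 → μ ≤ oo (E.v E.T) (algebraMap k K v0) (F i))
    (hlead : ∀ N i0 : ℕ, i0 ≤ N → (∀ i ≤ N, C ^ (N - i) ∣ F i) →
      (∀ i < i0, C ^ (N + 1 - i) ∣ F i) → C ^ (N - i0) ∣ F' i0 ∧ C ^ (N + 1 - i0) ∣ F i0 - F' i0)
    (N : ℕ) (hN : (N : ℤ) = (2 * g + 1) * μ - 2 * g * (g + 1) * (∑ᶠ P, Mf P) - w) :
    (∀ i < N + 1, C ^ (N + 1 - i) ∣ F i) ∨
    ∃ i0 ≤ N, ∃ t : ℤ, (2 * (g : ℤ) * (g + 1)) • (∑ᶠ P, Mf P • P) =
      ((g : ℤ) * (g + 1) * (w + i0)) • n.s + t • E.T := by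
  have hC0 : C ≠ 0 := hC.irr.ne_zero
  have hwpow : ∀ (P : A) (a : ℕ), E.w n P (C ^ a) = a * E.w n P C := by
    intro P a
    induction a with
    | zero =>
      have h1 := E.w_mul n P (F := (1 : K[X])) (G := 1) one_ne_zero one_ne_zero
      rw [mul_one] at h1
      rw [pow_zero]
      push_cast
      linarith
    | succ a ih =>
      rw [pow_succ, E.w_mul n P (pow_ne_zero a hC0) hC0, ih]
      push_cast
      ring
  have hopow : ∀ a : ℕ, oo (E.v E.T) (algebraMap k K v0) (C ^ a) =
      a * oo (E.v E.T) (algebraMap k K v0) C := by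
    intro a
    induction a with
    | zero =>
      have h1 := oo_mul (E.ord E.T) (algebraMap k K v0) (F := (1 : K[X])) (G := 1)
        one_ne_zero one_ne_zero
      rw [mul_one] at h1
      rw [pow_zero]
      push_cast
      linarith
    | succ a ih =>
      rw [pow_succ, oo_mul (E.ord E.T) _ (pow_ne_zero a hC0) hC0, ih]
      push_cast
      ring
  have hooC : oo (E.v E.T) (algebraMap k K v0) C = 2 * g + 1 + E.w n E.T C := by
    have h1 := hC.m
    unfold EField.m mu at h1
    unfold EField.w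
    rw [n.nT]
    linarith
  have hbC : ∑ᶠ P, E.w n P C = -1 := by
    have h1 := hC.b
    unfold EField.b at h1
    linarith
  have ihN := mult_C E n h0 hg hC O hO F F' w hdeg hdeg' Mf hMf hMT hFP hFO μ hμ hlead N hN.le
  have hall : ∀ i ≤ N, C ^ (N - i) ∣ F i := by
    intro i hi
    rcases Nat.lt_or_ge i N with h | h
    · exact ihN i h
    · rw [show N - i = 0 by omega, pow_zero]
      exact one_dvd _
  by_contra hcon0
  rw [not_or] at hcon0
  obtain ⟨hcon1, hcon2⟩ := hcon0
  apply hcon1
  intro i0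
  induction i0 using Nat.strong_induction_on with
  | _ i0 ih0 =>
    intro hi0
    by_contra hcon
    have hi0N : i0 ≤ N := by omega
    have hprev : ∀ i < i0, C ^ (N + 1 - i) ∣ F i := fun i hi => ih0 i hi (by omega)
    obtain ⟨hd', hdd⟩ := hlead N i0 hi0N hall hprev
    obtain ⟨a, ha⟩ : ∃ a, a = N - i0 := ⟨_, rfl⟩
    have ha1 : N + 1 - i0 = a + 1 := by omega
    rw [← ha] at hd'
    rw [ha1] at hdd hcon
    obtain ⟨Q, hQ⟩ := hall i0 hi0N
    rw [← ha] at hQ
    obtain ⟨Q', hQ'⟩ := hd'
    have hCa : C ^ a ≠ 0 := pow_ne_zero a hC0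
    have hQQ : C ∣ Q - Q' := by
      rw [hQ, hQ', ← mul_sub, pow_succ] at hdd
      exact (mul_dvd_mul_iff_left hCa).1 hdd
    have hnQ : ¬ C ∣ Q := by
      intro h
      apply hcon
      rw [hQ, pow_succ]
      exact mul_dvd_mul_left _ h
    have hnQ' : ¬ C ∣ Q' := by
      intro h
      apply hnQ
      have h3 := dvd_add hQQ h
      rwa [sub_add_cancel] at h3
    have hQ0 : Q ≠ 0 := fun h => hnQ (h ▸ dvd_zero C)
    have hQ0' : Q' ≠ 0 := fun h => hnQ' (h ▸ dvd_zero C)
    have hF0 : F i0 ≠ 0 := by rw [hQ]; exact mul_ne_zero hCa hQ0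
    have hF0' : F' i0 ≠ 0 := by rw [hQ']; exact mul_ne_zero hCa hQ0'
    have hdQ : a * (2 * g * (g + 1)) + Q.natDegree ≤ w + i0 := by
      have h3 := hdeg i0
      rw [hQ, natDegree_mul hCa hQ0, natDegree_pow, hC.deg] at h3
      exact h3
    have hdQ' : a * (2 * g * (g + 1)) + Q'.natDegree ≤ w + i0 := by
      have h3 := hdeg' i0
      rw [hQ', natDegree_mul hCa hQ0', natDegree_pow, hC.deg] at h3
      exact h3
    have hfin : (Function.support fun P => - Mf P - a * E.w n P C).Finite := by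
      refine (hMf.union (E.w_fin n hC0)).subset ?_
      intro P hP
      rw [Function.mem_support] at hP
      by_contra hcon2
      rw [Set.mem_union, not_or, Function.mem_support, Function.mem_support, not_not,
        not_not] at hcon2
      apply hP
      rw [hcon2.1, hcon2.2]
      ring
    have hsum : ∑ᶠ P, (- Mf P - a * E.w n P C) = - ∑ᶠ P, Mf P + a := by
      have h3 : ∀ P, - Mf P - a * E.w n P C = - Mf P + (-(a : ℤ)) * E.w n P C := fun P => by ring
      simp_rw [h3]
      rw [finsum_add_distrib, finsum_neg_distrib, ← mul_finsum, hbC]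
      · ring
      · refine hMf.subset fun P hP => ?_
        rw [Function.mem_support] at hP ⊢
        exact neg_ne_zero.1 hP
      · refine (E.w_fin n hC0).subset fun P hP => ?_
        rw [Function.mem_support] at hP ⊢
        exact right_ne_zero_of_mul hP
    have hDc : ((w + i0 - a * (2 * g * (g + 1)) : ℕ) : ℤ) =
        w + i0 - a * (2 * g * (g + 1)) := by
      rw [Nat.cast_sub (by omega)]
      push_cast
      ring
    have haN : (a : ℤ) = N - i0 := by rw [ha, Nat.cast_sub hi0N]
    have hres := res_norm_eq E n h0 hg hC O hO hnQ hQQ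
      (D := w + i0 - a * (2 * g * (g + 1))) (by omega) (by omega)
      (fun P => - Mf P - a * E.w n P C) hfin
      (by
        intro P hP
        have h3 := hFP i0 P hP hF0
        rw [hQ, E.w_mul n P hCa hQ0, hwpow] at h3
        show - Mf P - a * E.w n P C ≤ _
        linarith)
      (by
        have h3 := hFO i0 hF0'
        rw [hQ', E.w_mul n O hCa hQ0', hwpow] at h3
        show - Mf O - a * E.w n O C ≤ _
        linarith)
      (μ - a * oo (E.v E.T) (algebraMap k K v0) C)
      (by
        have h3 := hμ i0 hF0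
        rw [hQ, oo_mul (E.ord E.T) _ hCa hQ0, hopow] at h3
        linarith)
      (by
        rw [hsum, hooC, hMT, hDc]
        have h5 : (a : ℤ) * ((2 * g + 1) ^ 2 - 2 * (2 * g * (g + 1))) = a := by ring
        linear_combination -hN - h5 - haN)
    have hsm : ∑ᶠ P, (- Mf P - a * E.w n P C) • P = - ∑ᶠ P, Mf P • P + (a : ℤ) • E.cls n C := by
      have h3 : ∀ P, (- Mf P - a * E.w n P C) • P =
          (-1 : ℤ) • (Mf P • P) + (-(a : ℤ)) • (E.w n P C • P) := fun P => by
        rw [sub_smul, neg_smul, neg_smul, neg_smul, one_smul, mul_smul]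
        abel
      simp_rw [h3]
      rw [finsum_add_distrib, ← smul_finsum' _ (MultCEq_fin_smul hMf),
        ← smul_finsum' _ (MultCEq_fin_smul (E.w_fin n hC0))]
      · unfold EField.cls
        rw [neg_smul, one_smul, neg_smul, smul_neg]
      · exact (MultCEq_fin_smul hMf).subset fun P hP => by
          rw [Function.mem_support] at hP ⊢
          exact fun h => hP (by rw [h, smul_zero])
      · exact (MultCEq_fin_smul (E.w_fin n hC0)).subset fun P hP => by
          rw [Function.mem_support] at hP ⊢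
          exact fun h => hP (by rw [h, smul_zero])
    apply hcon2
    rw [hsm, hDc, hC.cls] at hres
    refine ⟨i0, hi0N, (2 * (g : ℤ) * (g + 1)) * a - (w + i0 - a * (2 * g * (g + 1))) +
      (2 * (g : ℤ) + 1) * (μ - a * oo (E.v E.T) (algebraMap k K v0) C -
        (- Mf E.T - a * E.w n E.T C)), ?_⟩
    rw [← sub_eq_zero, ← neg_eq_zero, ← hres]
    obtain ⟨S, hS⟩ : ∃ S, S = ∑ᶠ P, Mf P • P := ⟨_, rfl⟩
    rw [← hS]
    push_cast
    module

end ShghR
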