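import Pool.Agent.ShghR.MultEndEq
import Pool.Agent.ShghR.CoreR

/-!
# The degeneration, with the cases of equality
-/

namespace ShghR

open MvPolynomial ShghE WeierstrassCurve WeierstrassCurve.Affine

variable {k : Type*} [Field k]

private theorem CoreS_some {a b a' b' : k} (h : (E0 k).Nonsingular a b)
    (h' : (E0 k).Nonsingular a' b') (ea : a = a') (eb : b = b') :
    (Point.some a b h : (E0 k).Point) = Point.some a' b' h' := by
  subst ea eb
  rfl

private theorem CoreS_coords [DecidableEq k] {z : (E0 k).Point} (hz : z ≠ 0) :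
    ∃ (a b : k) (h : (E0 k).Nonsingular a b), z = .some a b h := by
  rcases z with _ | ⟨a, b, h⟩
  · exact absurd rfl hz
  · exact ⟨a, b, h, rfl⟩

private theorem CoreS_rel {A : Type*} [AddCommGroup A] {p : Fin 9 → A} {T : A} {B : ℕ}
    (hI : Indep p T B) (x : Fin 9 → ℤ) (c : ℤ) (hc : c ≠ 0) (hb : ∀ i, |c * x i| ≤ B) (t : ℤ)
    (h : ∑ i, (c * x i) • p i = t • T) (i : Fin 9) : x i = 0 := by
  have h1 := congrFun (hI _ hb t h) i
  simp only [Pi.zero_apply] at h1
  exact (mul_eq_zero.1 h1).resolve_left hc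

/-- `coreR` together with the consequences of equality in the two inequalities. -/
theorem coreS [IsAlgClosed k] [DecidableEq k] (h2 : (2 : k) ≠ 0)
    (P : Fin 10 → Fin 2 → k)
    (hP : AlgebraicIndependent (⊥ : Subfield k) (fun ij : Fin 10 × Fin 2 => P ij.1 ij.2))
    (f : MvPolynomial (Fin 2) k) (hf : f ≠ 0) (δ : ℕ) (hdeg : f.totalDegree ≤ δ) (μ : Fin 10 → ℕ)
    (hμ : ∀ i, f ∈ ptIdeal (P i 0) (P i 1) ^ μ i) (g q : ℕ) (hq : 1 ≤ q) (B : ℕ) :
    ∃ (CD : CurveData2 k) (p : Fin 9 → (E0 k).Point) (Z : Fin 10 → Fin 2 → k)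
      (hZ : ∀ i, (E0 k).Nonsingular (Z i 0) (Z i 1)),
      Indep p CD.E.T B ∧
      (∀ i : Fin 9, p i = Point.some (Z i.castSucc 0) (Z i.castSucc 1) (hZ i.castSucc)) ∧
      (Point.some (Z (Fin.last 9) 0) (Z (Fin.last 9) 1) (hZ (Fin.last 9)) : (E0 k).Point) =
        CD.E.T + ((g * (g + 1) : ℕ) : ℤ) • ∑ i, p i ∧
      ∃ (w : ℕ) (g0 : MvPolynomial (Fin 2) k) (c : ℕ), g0 ≠ 0 ∧ g0.totalDegree + 3 * w ≤ δ ∧
        (∀ i : Fin 9, g0 ∈ ptIdeal (Z i.castSucc 0) (Z i.castSucc 1) ^ (μ i.castSucc - w)) ∧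
        g0 ∈ ptIdeal (Z (Fin.last 9) 0) (Z (Fin.last 9) 1) ^ c ∧
        (2 * g + 1) * (μ (Fin.last 9) : ℤ) -
          2 * g * (g + 1) * (3 * (δ : ℤ) - ∑ i : Fin 9, (μ i.castSucc : ℤ)) - w ≤ c ∧
        2 * (q : ℤ) * μ (Fin.last 9) ≤
          2 * (q : ℤ) ^ 2 * (3 * (δ : ℤ) - ∑ i : Fin 9, (μ i.castSucc : ℤ)) + w ∧
        (2 * (q : ℤ) * μ (Fin.last 9) =
          2 * (q : ℤ) ^ 2 * (3 * (δ : ℤ) - ∑ i : Fin 9, (μ i.castSucc : ℤ)) + w →
          ∀ i : Fin 9, 2 * (μ i.castSucc : ℤ) = w) ∧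
        (1 ≤ g → (2 * g + 1) * (μ (Fin.last 9) : ℤ) -
          2 * g * (g + 1) * (3 * (δ : ℤ) - ∑ i : Fin 9, (μ i.castSucc : ℤ)) - w = c →
          ∃ i0 : ℕ, i0 ≤ c ∧ ∀ i : Fin 9, 2 * (μ i.castSucc : ℤ) = w + i0) := by
  classical
  obtain ⟨CD⟩ := exists_curveData2 (k := k) h2
  obtain ⟨B1, hB1⟩ : ∃ B1 : ℕ, B1 = 2 * g * (g + 1) + 2 * q * (q + 1) + δ + 1 +
    (2 * g * (g + 1)) * (4 * δ) + (2 * q * (q + 1)) * (4 * δ) := ⟨_, rfl⟩
  obtain ⟨p, hI'⟩ := exists_indep (k := k) h2 CD.E.T CD.E.T_two (B + B1)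
  have hI : Indep p CD.E.T (B + B1) := hI'
  have hBB : 1 ≤ B + B1 := by omega
  have hp0 := hI.ne_zero hBB
  have hpT := hI.ne_T hBB
  have hpi := hI.inj hBB
  have hT0 : CD.E.T ≠ 0 := by
    rw [CD.T_eq]
    exact Point.some_ne_zero _
  choose a b hns hpab using fun i => CoreS_coords (hp0 i)
  let n : CD.E.Twist :=
    { n := divf 9 (fun _ => -1) p
      fin := divf_fin _ _ _
      deg := by rw [divf_sum]; simp
      nT := divf_eq_zero _ _ _ hT0 (fun i => (hpT i).symm) }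
  obtain ⟨v0, hv0, hsym⟩ := CD.E.exists_sym n h2
  obtain ⟨F0, hF00, hF0d, hF0m, hF0J⟩ :=
    transfer_special0 P hP (fun i => ![a i, b i]) v0 δ μ ⟨f, hf, hdeg, hμ⟩
  have hF0 : F0 ≠ 0 := by
    rintro rfl
    exact hF00 (Polynomial.coeff_zero 0)
  obtain ⟨w, gg, hgg, l0, hl0, hl0G⟩ := exists_w F0 hF0
  have hs : n.s = - ∑ i, p i := by
    change ∑ᶠ Q, divf 9 (fun _ => -1) p Q • Q = _
    rw [divf_sum_smul]
    simp
  have hN : g * (g + 1) + 1 ≤ B + B1 := by
    have h : g * (g + 1) ≤ 2 * g * (g + 1) := by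
      rw [mul_assoc]
      exact Nat.le_mul_of_pos_left _ (by norm_num)
    omega
  -- the end point
  obtain ⟨z, hz⟩ : ∃ z, z = CD.E.T + ((g * (g + 1) : ℕ) : ℤ) • ∑ i, p i := ⟨_, rfl⟩
  have hz0 : z ≠ 0 := by
    intro h
    have h1 : ∑ i, ((g * (g + 1) : ℕ) : ℤ) • p i = (-1 : ℤ) • CD.E.T := by
      rw [← Finset.smul_sum, neg_smul, one_smul]
      rw [hz] at h
      exact (neg_eq_of_add_eq_zero_right h).symm
    have h3 := hI (fun _ => ((g * (g + 1) : ℕ) : ℤ)) (fun i => by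
      rw [abs_of_nonneg (by positivity)]
      exact_mod_cast (by omega : g * (g + 1) ≤ B + B1)) (-1) h1
    have h4 : ((g * (g + 1) : ℕ) : ℤ) = 0 := congrFun h3 0
    rw [hz, h4, zero_smul, add_zero] at h
    exact hT0 h
  have hzp : ∀ i, z ≠ p i := by
    intro i h
    have h1 : ∑ j : Fin 9, (((g * (g + 1) : ℕ) : ℤ) - if j = i then 1 else 0) • p j =
        (-1 : ℤ) • CD.E.T := by
      simp only [sub_smul, Finset.sum_sub_distrib, ite_smul, one_smul, zero_smul,
        Finset.sum_ite_eq', Finset.mem_univ, if_true, ← Finset.smul_sum]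
      rw [← h, hz]
      simp
    have h3 := hI _ (fun j => ?_) (-1) h1
    · have h4 := congrFun h3 i
      simp only [if_true, Pi.zero_apply] at h4
      have h5 : ((g * (g + 1) : ℕ) : ℤ) = 1 := by linarith
      have h6 : g * (g + 1) = 1 := by exact_mod_cast h5
      have h7 := Nat.even_mul_succ_self g
      rw [h6] at h7
      exact absurd h7 (by decide)
    · have h4 : (0 : ℤ) ≤ (g * (g + 1) : ℕ) := by positivity
      have h5 : ((g * (g + 1) : ℕ) : ℤ) + 1 ≤ ((B + B1 : ℕ) : ℤ) := by exact_mod_cast hN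
      rw [abs_le]
      split_ifs <;> constructor <;> linarith
  obtain ⟨za, zb, hzns, hzab⟩ := CoreS_coords hz0
  obtain ⟨Z, hZdef⟩ : ∃ Z : Fin 10 → Fin 2 → k,
    Z = Fin.snoc (α := fun _ => Fin 2 → k) (fun i => ![a i, b i]) ![za, zb] := ⟨_, rfl⟩
  have hZ1 : ∀ i : Fin 9, Z i.castSucc = ![a i, b i] := by
    intro i
    rw [hZdef]
    exact Fin.snoc_castSucc _ _ _
  have hZ2 : Z (Fin.last 9) = ![za, zb] := by
    rw [hZdef]
    exact Fin.snoc_last _ _
  have hZ : ∀ i, (E0 k).Nonsingular (Z i 0) (Z i 1) := by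
    intro i
    refine Fin.lastCases ?_ (fun i => ?_) i
    · rw [hZ2]
      exact hzns
    · rw [hZ1]
      exact hns i
  have hpZ : ∀ i : Fin 9, p i = Point.some (Z i.castSucc 0) (Z i.castSucc 1)
      (hZ i.castSucc) := by
    intro i
    rw [hpab i]
    exact CoreS_some _ _ (by rw [hZ1]; rfl) (by rw [hZ1]; rfl)
  have hzZ : (Point.some (Z (Fin.last 9) 0) (Z (Fin.last 9) 1) (hZ (Fin.last 9)) :
      (E0 k).Point) = z := by
    rw [hzab]
    exact CoreS_some _ _ (by rw [hZ2]; rfl) (by rw [hZ2]; rfl)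
  have hF0m' : ∀ l, ∀ i : Fin 9,
      F0.coeff l ∈ ptIdeal (Z i.castSucc 0) (Z i.castSucc 1) ^ μ i.castSucc := by
    intro l i
    rw [hZ1]
    exact hF0m l i
  have hc0 : F0.coeff 0 = Geq k ^ w * gg 0 := by
    have h := hgg 0 (Nat.zero_le _)
    rwa [Nat.sub_zero] at h
  have hg0 : gg 0 ≠ 0 := by
    intro h
    rw [h, mul_zero] at hc0
    exact hF00 hc0
  have hdw : (gg 0).totalDegree + 3 * w ≤ δ := by
    have h := hF0d 0
    rw [hc0, totalDegree_Geq_pow_mul w hg0] at h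
    omega
  have htors : ∀ j : ℕ, 1 ≤ j → j ≤ B1 → j • n.s ≠ 0 := by
    intro j hj hjB h
    have h1 : ∑ i, (j : ℤ) • p i = (0 : ℤ) • CD.E.T := by
      rw [hs, smul_neg, neg_eq_zero] at h
      rw [← Finset.smul_sum, zero_smul, ← h, natCast_zsmul]
    have h3 := hI (fun _ => (j : ℤ)) (fun i => by
      rw [abs_of_nonneg (by positivity)]
      exact_mod_cast (by omega : j ≤ B + B1)) 0 h1
    have h4 : (j : ℤ) = 0 := congrFun h3 0
    omega
  obtain ⟨cb, hcb⟩ : ∃ cb : ℤ, cb = (2 * g + 1) * (μ (Fin.last 9) : ℤ) -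
      2 * g * (g + 1) * (3 * (δ : ℤ) - ∑ i : Fin 9, (μ i.castSucc : ℤ)) - w := ⟨_, rfl⟩
  have hmem : gg 0 ∈ ptIdeal (Z (Fin.last 9) 0) (Z (Fin.last 9) 1) ^ cb.toNat := by
    rw [hcb]
    rcases Nat.eq_zero_or_pos g with hg | hg
    · have h1 : z = CD.E.T := by
        rw [hz, hg]
        simp
      rw [h1, CD.T_eq] at hzab
      have h3 : (0 : k) = za ∧ (0 : k) = zb := by
        simpa using hzab
      rw [hZ2]
      show gg 0 ∈ ptIdeal za zb ^ _
      rw [← h3.1, ← h3.2]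
      have h4 : ((2 * (g : ℤ) + 1) * (μ (Fin.last 9) : ℤ) -
          2 * g * (g + 1) * (3 * (δ : ℤ) - ∑ i : Fin 9, (μ i.castSucc : ℤ)) - w).toNat =
          μ (Fin.last 9) - w := by
        rw [hg]
        simp
      rw [h4]
      exact mult_zero h2 v0 F0 _ hF0J w gg hgg
    · rcases le_or_gt 0 ((2 * (g : ℤ) + 1) * (μ (Fin.last 9) : ℤ) -
        2 * g * (g + 1) * (3 * (δ : ℤ) - ∑ i : Fin 9, (μ i.castSucc : ℤ)) - w) with h | h
      · refine mult_end h2 CD n v0 hv0 hsym B1 htors g hg (by omega) p hp0 hpT hpi rfl Z hZ hpZ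
          ?_ ?_ F0 δ μ hF0d hF0m' hF0J w gg hgg _ ?_
        · rw [hzZ, hz, hs, smul_neg, sub_neg_eq_add]
        · intro i
          rw [hzZ]
          exact hzp i
        · rw [Int.toNat_of_nonneg h]
      · rw [Int.toNat_of_nonpos h.le, pow_zero, Ideal.one_eq_top]
        exact Submodule.mem_top
  have hδ0 : ∀ i, μ i ≤ δ := fun i => (le_totalDegree hf (hμ i)).trans hdeg
  have hwδ : w ≤ δ := by omega
  have hcδ : cb.toNat ≤ δ := (le_totalDegree hg0 hmem).trans (by omega)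
  obtain ⟨ψ, U, hψ, hU, hflow⟩ := exists_flow (k := k) h2
  have hOmI : Om F0 w = OmI δ F0 w := by
    have hV : PowerSeries.constantCoeff (U ^ δ) = 1 := by rw [map_pow, hU, one_pow]
    obtain ⟨-, -, h5⟩ := lead_transfer_shift (0 : Polynomial (K0 k)) ψ hψ (U ^ δ) hV (Om F0)
      (OmI δ F0) (hflow δ F0 hF0d) w (Om_lt h2 F0 w gg hgg) 0 0 le_rfl (fun i _ => by
        rw [Nat.zero_sub, pow_zero]
        exact one_dvd _) (fun i hi => absurd hi (Nat.not_lt_zero i))
    simpa [sub_eq_zero] using h5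
  have hFne : Om F0 w ≠ 0 := by
    intro h
    have h1 := Om_coeff F0 w (w - l0)
    rw [Om_eq h2 F0 w gg hgg] at h
    have h3 := congrArg (fun q => Polynomial.coeff q (w - l0)) h
    simp only [Polynomial.finsetSum_coeff, Polynomial.coeff_C_mul, Polynomial.coeff_X_pow,
      Polynomial.coeff_zero] at h3
    rw [Finset.sum_eq_single (w - l0)] at h3
    · rw [if_pos rfl, mul_one, show w - (w - l0) = l0 by omega,
        map_eq_zero_iff _ (IsFractionRing.injective (R0 k) (K0 k)), psi_eq_zero_iff] at h3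
      exact hl0G h3
    · intro j _ hj
      rw [if_neg (Ne.symm hj), mul_zero]
    · intro h4
      exact absurd (Finset.mem_range.2 (by omega)) h4
  have hnd : (Om F0 w).natDegree ≤ w := diag_natDegree _ _
  have hpl : ∀ Q, 0 ≤ divf (3 * δ) (fun i => -(μ i.castSucc : ℤ)) p Q +
      CD.E.w n Q (Om F0 w) := by
    intro Q
    have h : - (divf (3 * δ) (fun i => -(μ i.castSucc : ℤ)) p Q) ≤ CD.E.w n Q (Om F0 w) := by
      by_cases hQ : Q = 0
      · rw [hQ]
        unfold EField.w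
        have e2 : n.n 0 = 9 := divf_zero _ _ _ hp0
        rw [e2, divf_zero _ _ _ hp0, hOmI]
        have h := OmI_inf CD δ F0 hF0d w (by rw [← hOmI]; exact hFne)
        linarith
      · exact MultEnd_place CD n p hp0 hpi rfl Z hZ hpZ F0 δ μ hF0m' w Q hQ hFne
    linarith
  have hBq : 2 * q * (q + 1) ≤ B1 := by
    rw [hB1]
    have := Nat.zero_le ((2 * g * (g + 1)) * (4 * δ) + (2 * q * (q + 1)) * (4 * δ))
    omega
  have hBg : 2 * g * (g + 1) ≤ B1 := by
    rw [hB1]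
    have := Nat.zero_le ((2 * g * (g + 1)) * (4 * δ) + (2 * q * (q + 1)) * (4 * δ))
    omega
  have hBδ : δ + 1 ≤ B1 := by
    rw [hB1]
    have := Nat.zero_le ((2 * g * (g + 1)) * (4 * δ) + (2 * q * (q + 1)) * (4 * δ))
    omega
  have hMsum : ∑ᶠ P, divf (3 * δ) (fun i => -(μ i.castSucc : ℤ)) p P • P =
      ∑ i : Fin 9, (-(μ i.castSucc : ℤ)) • p i := divf_sum_smul _ _ _
  have hmain := CD.E.sec_even n hv0 hsym B1 htors q hq hBq hFne (by omega)
    (divf (3 * δ) (fun i => -(μ i.castSucc : ℤ)) p) (divf_fin _ _ _)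
    (divf_eq_zero _ _ _ hT0 (fun i => (hpT i).symm)) hpl _
    (MultEnd_T CD v0 F0 _ hF0J w hFne)
  rw [divf_sum, Finset.sum_neg_distrib, ← sub_eq_add_neg] at hmain
  have hnd' : ((Om F0 w).natDegree : ℤ) ≤ w := by exact_mod_cast hnd
  have hE1 : 2 * (q : ℤ) * μ (Fin.last 9) =
      2 * (q : ℤ) ^ 2 * (3 * (δ : ℤ) - ∑ i : Fin 9, (μ i.castSucc : ℤ)) + w →
      ∀ i : Fin 9, 2 * (μ i.castSucc : ℤ) = w := by
    intro heq
    have hndw : ((Om F0 w).natDegree : ℤ) = w := by linarith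
    obtain ⟨c, hc1, hc2, hc3⟩ := CD.E.sec_even_eq n hv0 hsym B1 htors q hq hBq hFne (by omega)
      (divf (3 * δ) (fun i => -(μ i.castSucc : ℤ)) p) (divf_fin _ _ _)
      (divf_eq_zero _ _ _ hT0 (fun i => (hpT i).symm)) hpl _
      (MultEnd_T CD v0 F0 _ hF0J w hFne) (by
        rw [divf_sum, Finset.sum_neg_distrib, ← sub_eq_add_neg, hndw]
        exact heq)
    rw [hMsum, hs, hndw] at hc3
    intro i
    have h1 := CoreS_rel hI (fun i => 2 * (μ i.castSucc : ℤ) - w) c (by omega) ?_ 0 ?_ i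
    · linarith
    · intro i
      have e1 : (μ i.castSucc : ℤ) ≤ δ := by exact_mod_cast hδ0 i.castSucc
      have e2 : (0 : ℤ) ≤ μ i.castSucc := Int.natCast_nonneg _
      have e3 : (w : ℤ) ≤ δ := by exact_mod_cast hwδ
      have e4 : (0 : ℤ) ≤ w := Int.natCast_nonneg _
      have e5 : |2 * (μ i.castSucc : ℤ) - w| ≤ 4 * δ := by
        rw [abs_le]
        constructor <;> linarith
      have e6 : (c : ℤ) ≤ 2 * q * (q + 1) := by exact_mod_cast hc2
      have e7 : (0 : ℤ) ≤ c := Int.natCast_nonneg _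
      rw [abs_mul, abs_of_nonneg e7]
      calc (c : ℤ) * |2 * (μ i.castSucc : ℤ) - w| ≤ (2 * q * (q + 1)) * (4 * δ) :=
            mul_le_mul e6 e5 (abs_nonneg _) (by positivity)
        _ ≤ ((B + B1 : ℕ) : ℤ) := by
            have : (2 * q * (q + 1)) * (4 * δ) ≤ B + B1 := by
              rw [hB1]
              have := Nat.zero_le ((2 * g * (g + 1)) * (4 * δ))
              omega
            exact_mod_cast this
    · rw [zero_smul]
      have h5 : ∑ i : Fin 9, ((c : ℤ) * (2 * (μ i.castSucc : ℤ) - w)) • p i =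
          ((c : ℤ) * w) • (- ∑ i, p i) -
            (2 * (c : ℤ)) • (∑ i : Fin 9, (-(μ i.castSucc : ℤ)) • p i) := by
        rw [Finset.smul_sum, smul_neg, Finset.smul_sum, ← Finset.sum_neg_distrib,
          ← Finset.sum_sub_distrib]
        refine Finset.sum_congr rfl fun i _ => ?_
        module
      rw [h5, hc3, sub_self]
  have hE2 : ∃ c : ℕ, gg 0 ∈ ptIdeal (Z (Fin.last 9) 0) (Z (Fin.last 9) 1) ^ c ∧ cb ≤ c ∧
      (1 ≤ g → cb = c → ∃ i0 : ℕ, i0 ≤ c ∧ ∀ i : Fin 9, 2 * (μ i.castSucc : ℤ) = w + i0) := by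
    by_cases hg : 1 ≤ g
    · rcases lt_or_ge cb 0 with hneg | hpos
      · refine ⟨cb.toNat, hmem, Int.self_le_toNat _, fun _ h => ?_⟩
        have : (0 : ℤ) ≤ cb.toNat := Int.natCast_nonneg _
        omega
      · have htn : (cb.toNat : ℤ) = cb := Int.toNat_of_nonneg hpos
        have hme := mult_end_eq h2 CD n v0 hv0 hsym B1 htors g hg hBg p hp0 hpT hpi rfl Z hZ hpZ
          (by rw [hzZ, hz, hs, smul_neg, sub_neg_eq_add])
          (by
            intro i
            rw [hzZ]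
            exact hzp i)
          F0 δ μ hF0d hF0m' hF0J w gg hgg cb.toNat (by rw [htn, hcb])
        rcases hme with hme | ⟨i0, hi0, t, ht⟩
        · refine ⟨cb.toNat + 1, hme, ?_, fun _ h => ?_⟩
          · push_cast
            linarith
          · push_cast at h
            omega
        · refine ⟨cb.toNat, hmem, Int.self_le_toNat _, fun _ _ => ⟨i0, hi0, ?_⟩⟩
          rw [hMsum, hs] at ht
          intro i
          have hgg0 : ((g * (g + 1) : ℕ) : ℤ) ≠ 0 := by
            have : 0 < g * (g + 1) := by positivity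
            exact_mod_cast this.ne'
          have h1 := CoreS_rel hI (fun i => (w : ℤ) + i0 - 2 * (μ i.castSucc : ℤ))
            ((g * (g + 1) : ℕ) : ℤ) hgg0 ?_ t ?_ i
          · linarith
          · intro i
            have e1 : (μ i.castSucc : ℤ) ≤ δ := by exact_mod_cast hδ0 i.castSucc
            have e2 : (0 : ℤ) ≤ μ i.castSucc := Int.natCast_nonneg _
            have e3 : (w : ℤ) ≤ δ := by exact_mod_cast hwδ
            have e4 : (0 : ℤ) ≤ w := Int.natCast_nonneg _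
            have e8 : (i0 : ℤ) ≤ δ := by exact_mod_cast hi0.trans hcδ
            have e9 : (0 : ℤ) ≤ i0 := Int.natCast_nonneg _
            have e5 : |(w : ℤ) + i0 - 2 * (μ i.castSucc : ℤ)| ≤ 4 * δ := by
              rw [abs_le]
              constructor <;> linarith
            have e7 : (0 : ℤ) ≤ ((g * (g + 1) : ℕ) : ℤ) := Int.natCast_nonneg _
            rw [abs_mul, abs_of_nonneg e7]
            calc ((g * (g + 1) : ℕ) : ℤ) * |(w : ℤ) + i0 - 2 * (μ i.castSucc : ℤ)| ≤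
                  ((g * (g + 1) : ℕ) : ℤ) * (4 * δ) :=
                  mul_le_mul_of_nonneg_left e5 e7
              _ ≤ ((B + B1 : ℕ) : ℤ) := by
                  have h6 : (g * (g + 1)) * (4 * δ) ≤ (2 * g * (g + 1)) * (4 * δ) := by
                    apply Nat.mul_le_mul_right
                    rw [mul_assoc]
                    exact Nat.le_mul_of_pos_left _ (by norm_num)
                  have : (g * (g + 1)) * (4 * δ) ≤ B + B1 := by
                    rw [hB1]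
                    have := Nat.zero_le ((2 * q * (q + 1)) * (4 * δ))
                    omega
                  exact_mod_cast this
          · have h5 : ∑ i : Fin 9, (((g * (g + 1) : ℕ) : ℤ) *
                ((w : ℤ) + i0 - 2 * (μ i.castSucc : ℤ))) • p i =
                (2 * (g : ℤ) * (g + 1)) • (∑ i : Fin 9, (-(μ i.castSucc : ℤ)) • p i) -
                ((g : ℤ) * (g + 1) * (w + i0)) • (- ∑ i, p i) := by
              rw [Finset.smul_sum, smul_neg, Finset.smul_sum, sub_neg_eq_add,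
                ← Finset.sum_add_distrib]
              refine Finset.sum_congr rfl fun i _ => ?_
              push_cast
              module
            rw [h5, ht]
            abel
    · exact ⟨cb.toNat, hmem, Int.self_le_toNat _, fun h => absurd h hg⟩
  obtain ⟨c, hc1, hc2, hc3⟩ := hE2
  rw [hcb] at hc2 hc3
  refine ⟨CD, p, Z, hZ, ?_, hpZ, by rw [hzZ, hz], w, gg 0, c, hg0, hdw, ?_, hc1, hc2, ?_, hE1,
    hc3⟩
  · intro c hc ε h
    refine hI c (fun i => (hc i).trans ?_) ε h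
    exact_mod_cast Nat.le_add_right B B1
  · intro i
    refine colon h2 (eq_of_nonsingular (hZ i.castSucc)) w _ ?_
    rw [← hc0]
    exact hF0m' 0 i
  · linarith

end ShghR
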