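import Pool.Agent.ShghR.Mult

/-!
# Bezout's inequality with multiplicities

Linear algebra proof. `S = k[x,y]`, `V n` = polynomials of degree `≤ n`, `t(n) = (n+1)(n+2)/2 = dim V n`.
`a = deg f`, `b = deg g`, `N_i = μ_i + ν_i`, `𝔪_i` the ideal of `q_i`.

(A) For `n ≥ a + b` the subspace `f V(n-a) + g V(n-b)` of `V n` has dimension
`≥ t(n-a) + t(n-b) - t(n-a-b)`: the kernel of `(u,v) ↦ f u + g v` consists of the `(g w, - f w)` with
`w ∈ V(n-a-b)` (`f`, `g` relatively prime; degrees are additive). Hence its codimension is `≤ a b`.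
(B) The linear map `S → (exponents of degree < N) → k` given by the coefficients of `tfShift f` is
surjective with kernel `𝔪^N`; so `dim S/𝔪^N = N(N+1)/2` (`card_degree_lt`).
(C) `dim S/(𝔪^(μ+ν) + (f,g)) ≥ μ ν` if `f ∈ 𝔪^μ`, `g ∈ 𝔪^ν`: the image of `(f,g)` in `S/𝔪^(μ+ν)` is the
image of `S/𝔪^ν × S/𝔪^μ`, `(u,v) ↦ f u + g v`, so it has dimension at most `ν(ν+1)/2 + μ(μ+1)/2`.
(D) `S → Π_i S/(𝔪_i^(N_i) + (f,g))` is surjective (Chinese remainder theorem, the ideals are pairwise
coprime), kills `(f,g)`, and already `V n` maps onto the finite dimensional product if `n` is large.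
So `Σ μ_i ν_i ≤ dim V n / (f V(n-a) + g V(n-b)) ≤ a b`.
-/

namespace ShghR

open MvPolynomial ShghE Module

variable {k : Type*} [Field k]

/-- The polynomials of degree at most `n`. -/
noncomputable abbrev Bezout_V (k : Type*) [Field k] (n : ℕ) : Submodule k (MvPolynomial (Fin 2) k) :=
  restrictTotalDegree (Fin 2) k n

theorem Bezout_card (n : ℕ) : 2 * Nat.card {e : Fin 2 →₀ ℕ | (e.sum fun _ a => a) ≤ n} =
    (n + 1) * (n + 2) := by
  have h := card_degree_lt (n + 1)
  rw [← Nat.card_eq_card_finite_toFinset] at h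
  rw [← h]
  congr 1
  apply Nat.card_congr
  apply Equiv.setCongr
  ext e
  change e.degree ≤ n ↔ e.degree < n + 1
  omega

theorem Bezout_finrank (n : ℕ) : 2 * finrank k (Bezout_V k n) = (n + 1) * (n + 2) := by
  have h : finrank k (Bezout_V k n) = Nat.card {e : Fin 2 →₀ ℕ | (e.sum fun _ a => a) ≤ n} :=
    Module.finrank_eq_nat_card_basis (basisRestrictSupport k _)
  rw [h, Bezout_card]

/-- `(u, v) ↦ f u + g v` -/
noncomputable def Bezout_m (f g : MvPolynomial (Fin 2) k) :
    (MvPolynomial (Fin 2) k × MvPolynomial (Fin 2) k) →ₗ[k] MvPolynomial (Fin 2) k :=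
  (LinearMap.mulLeft k f).coprod (LinearMap.mulLeft k g)

theorem Bezout_m_apply (f g u v : MvPolynomial (Fin 2) k) :
    Bezout_m f g (u, v) = f * u + g * v := by
  simp [Bezout_m]

/-- (A): the pairs `(u, v)` of bounded degrees with `f u + g v = 0`. -/
theorem Bezout_ker (f g : MvPolynomial (Fin 2) k) (hg : g ≠ 0)
    (hfg : IsRelPrime f g) (n : ℕ) (hn : f.totalDegree + g.totalDegree ≤ n) :
    finrank k (LinearMap.ker ((Bezout_m f g).comp
      ((Bezout_V k (n - f.totalDegree)).subtype.prodMap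
        (Bezout_V k (n - g.totalDegree)).subtype))) ≤
    finrank k (Bezout_V k (n - f.totalDegree - g.totalDegree)) := by
  classical
  set a := f.totalDegree with ha
  set b := g.totalDegree with hb
  -- the map w ↦ (g w, - f w)
  let L : Bezout_V k (n - a - b) →ₗ[k] (Bezout_V k (n - a) × Bezout_V k (n - b)) :=
    (LinearMap.codRestrict _ ((LinearMap.mulLeft k g).comp (Bezout_V k (n - a - b)).subtype) (by
        rintro ⟨w, hw⟩
        rw [mem_restrictTotalDegree] at hw
        rw [mem_restrictTotalDegree]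
        change (g * w).totalDegree ≤ n - a
        have := totalDegree_mul g w
        omega)).prod
    (LinearMap.codRestrict _ ((-(LinearMap.mulLeft k f)).comp (Bezout_V k (n - a - b)).subtype) (by
        rintro ⟨w, hw⟩
        rw [mem_restrictTotalDegree] at hw
        rw [mem_restrictTotalDegree]
        change (-(f * w)).totalDegree ≤ n - b
        rw [totalDegree_neg]
        have := totalDegree_mul f w
        omega))
  have hsub : LinearMap.ker ((Bezout_m f g).comp ((Bezout_V k (n - a)).subtype.prodMap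
      (Bezout_V k (n - b)).subtype)) ≤ LinearMap.range L := by
    rintro ⟨⟨u, hu⟩, ⟨v, hv⟩⟩ h
    rw [LinearMap.mem_ker, LinearMap.comp_apply, LinearMap.prodMap_apply, Bezout_m_apply] at h
    rw [mem_restrictTotalDegree] at hu hv
    simp only [Submodule.subtype_apply] at h
    have h1 : g ∣ f * u := ⟨-v, by linear_combination h⟩
    obtain ⟨w, hw⟩ := hfg.symm.dvd_of_dvd_mul_left h1
    have h2 : v = -(f * w) := by
      have h3 : g * (v + f * w) = 0 := by rw [hw] at h; linear_combination h
      rcases mul_eq_zero.1 h3 with h4 | h4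
      · exact absurd h4 hg
      · linear_combination h4
    have h3 : w.totalDegree ≤ n - a - b := by
      by_cases hw0 : w = 0
      · rw [hw0, totalDegree_zero]
        exact Nat.zero_le _
      · have h4 := totalDegree_mul_of_isDomain hg hw0
        rw [← hw] at h4
        omega
    refine ⟨⟨w, (mem_restrictTotalDegree _ _ _).2 h3⟩, ?_⟩
    apply Prod.ext
    · apply Subtype.ext
      exact hw.symm
    · apply Subtype.ext
      exact h2.symm
  exact (Submodule.finrank_mono hsub).trans (LinearMap.finrank_range_le L)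

/-- The exponents of degree less than `N i`, for all points `i`. -/
abbrev Bezout_I {ι : Type*} (N : ι → ℕ) : Type _ :=
  Σ i : ι, ((Finsupp.finite_of_degree_lt (σ := Fin 2) (N i)).toFinset)

theorem Bezout_deg {ι : Type*} {N : ι → ℕ} (x : Bezout_I N) :
    (x.2 : Fin 2 →₀ ℕ).degree < N x.1 := by
  have h := x.2.2
  rw [Set.Finite.mem_toFinset] at h
  exact h

theorem Bezout_cardI {ι : Type*} [Fintype ι] (N : ι → ℕ) :
    2 * Fintype.card (Bezout_I N) = ∑ i, N i * (N i + 1) := by
  rw [Fintype.card_sigma, Finset.mul_sum]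
  apply Finset.sum_congr rfl
  intro i _
  rw [Fintype.card_coe, card_degree_lt]

/-- (B): the coefficients of degree less than `N i` at the point `q i`. -/
noncomputable def Bezout_c {ι : Type*} (q : ι → Fin 2 → k) (N : ι → ℕ) :
    MvPolynomial (Fin 2) k →ₗ[k] (Bezout_I N → k) :=
  LinearMap.pi fun x => (lcoeff k (x.2 : Fin 2 →₀ ℕ)).comp (tfShift (q x.1 0) (q x.1 1)).toLinearMap

theorem Bezout_c_apply {ι : Type*} (q : ι → Fin 2 → k) (N : ι → ℕ) (f : MvPolynomial (Fin 2) k)
    (x : Bezout_I N) : Bezout_c q N f x = (tfShift (q x.1 0) (q x.1 1) f).coeff x.2 := rfl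

theorem Bezout_c_eq {ι : Type*} (q : ι → Fin 2 → k) (N : ι → ℕ) (f : MvPolynomial (Fin 2) k) :
    Bezout_c q N f = 0 ↔ ∀ i, f ∈ ptIdeal (q i 0) (q i 1) ^ N i := by
  constructor
  · intro h i
    rw [ptIdeal, tf_mem_iff]
    intro x hx
    have hx' : x ∈ (Finsupp.finite_of_degree_lt (σ := Fin 2) (N i)).toFinset := by
      simpa using hx
    exact congrFun h ⟨i, ⟨x, hx'⟩⟩
  · intro h
    funext x
    have h1 := h x.1
    rw [ptIdeal, tf_mem_iff] at h1
    exact h1 _ (Bezout_deg x)

/-- Two different points have coprime ideals. -/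
theorem Bezout_coprime {p q : Fin 2 → k} (h : p ≠ q) (m n : ℕ) :
    IsCoprime (ptIdeal (p 0) (p 1) ^ m) (ptIdeal (q 0) (q 1) ^ n) := by
  apply IsCoprime.pow
  rw [Ideal.isCoprime_iff_exists]
  obtain ⟨i, hi⟩ := Function.ne_iff.1 h
  have hu : (C (p i - q i) : MvPolynomial (Fin 2) k) * C (p i - q i)⁻¹ = 1 := by
    rw [← C_mul, mul_inv_cancel₀ (sub_ne_zero.2 hi), C_1]
  have hmem : ∀ r : Fin 2 → k, (X i - C (r i) : MvPolynomial (Fin 2) k) ∈ ptIdeal (r 0) (r 1) := by
    intro r
    fin_cases i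
    · exact Ideal.subset_span (Or.inl rfl)
    · exact Ideal.subset_span (Or.inr rfl)
  refine ⟨-(C (p i - q i)⁻¹ * (X i - C (p i))), ?_, C (p i - q i)⁻¹ * (X i - C (q i)), ?_, ?_⟩
  · exact neg_mem (Ideal.mul_mem_left _ _ (hmem p))
  · exact Ideal.mul_mem_left _ _ (hmem q)
  · rw [← hu, C_sub]
    ring

theorem Bezout_c_surj {ι : Type*} [Fintype ι] (q : ι → Fin 2 → k) (hq : Function.Injective q)
    (N : ι → ℕ) : Function.Surjective (Bezout_c q N) := by
  classical
  intro t
  -- one point at a time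
  have h1 : ∀ i, ∃ h : MvPolynomial (Fin 2) k, ∀ x : ((Finsupp.finite_of_degree_lt (σ := Fin 2)
      (N i)).toFinset), (tfShift (q i 0) (q i 1) h).coeff x = t ⟨i, x⟩ := by
    intro i
    refine ⟨tfShift (-(q i 0)) (-(q i 1)) (∑ x : ((Finsupp.finite_of_degree_lt (σ := Fin 2)
      (N i)).toFinset), monomial (x : Fin 2 →₀ ℕ) (t ⟨i, x⟩)), fun x => ?_⟩
    have h2 := tfShift_neg (-(q i 0)) (-(q i 1)) (∑ x : ((Finsupp.finite_of_degree_lt (σ := Fin 2)
      (N i)).toFinset), monomial (x : Fin 2 →₀ ℕ) (t ⟨i, x⟩))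
    rw [neg_neg, neg_neg] at h2
    rw [h2, coeff_sum, Finset.sum_eq_single x]
    · rw [coeff_monomial, if_pos rfl]
    · intro y _ hy
      rw [coeff_monomial, if_neg fun h => hy (Subtype.ext h)]
    · intro h
      exact absurd (Finset.mem_univ _) h
  choose h hh using h1
  obtain ⟨r, hr⟩ := Ideal.exists_forall_sub_mem_ideal
    (I := fun i => ptIdeal (q i 0) (q i 1) ^ N i) (fun i j hij =>
      Bezout_coprime (fun e => hij (hq e)) _ _) h
  refine ⟨r, ?_⟩
  funext x
  have h3 := hr x.1
  rw [ptIdeal, tf_mem_iff] at h3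
  have h4 := h3 x.2 (Bezout_deg x)
  rw [map_sub, coeff_sub, sub_eq_zero] at h4
  rw [Bezout_c_apply, h4, hh]

/-- If `ker A ≤ ker B` then `rank B ≤ rank A`. -/
theorem Bezout_rank {M P Q : Type*} [AddCommGroup M] [Module k M] [AddCommGroup P] [Module k P]
    [AddCommGroup Q] [Module k Q] [Module.Finite k P] (A : M →ₗ[k] P) (B : M →ₗ[k] Q)
    (h : LinearMap.ker A ≤ LinearMap.ker B) :
    finrank k (LinearMap.range B) ≤ finrank k P := by
  have e := A.quotKerEquivRange
  have : Module.Finite k (M ⧸ LinearMap.ker A) := Module.Finite.equiv e.symm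
  have h1 : LinearMap.range B = LinearMap.range ((LinearMap.ker A).liftQ B h) := by
    rw [Submodule.range_liftQ]
  rw [h1]
  refine (LinearMap.finrank_range_le _).trans ?_
  rw [e.finrank_eq]
  exact Submodule.finrank_le _

/-- (C) -/
theorem Bezout_image {ι : Type*} [Fintype ι] (q : ι → Fin 2 → k)
    (μ ν : ι → ℕ) (f g : MvPolynomial (Fin 2) k)
    (hμ : ∀ i, f ∈ ptIdeal (q i 0) (q i 1) ^ μ i)
    (hν : ∀ i, g ∈ ptIdeal (q i 0) (q i 1) ^ ν i) :
    2 * finrank k (LinearMap.range ((Bezout_c q (fun i => μ i + ν i)).comp (Bezout_m f g))) ≤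
      ∑ i, ν i * (ν i + 1) + ∑ i, μ i * (μ i + 1) := by
  have h := Bezout_rank ((Bezout_c q ν).prodMap (Bezout_c q μ))
    ((Bezout_c q (fun i => μ i + ν i)).comp (Bezout_m f g)) (by
      rintro ⟨u, v⟩ huv
      rw [LinearMap.mem_ker] at huv ⊢
      rw [LinearMap.comp_apply, Bezout_m_apply, Bezout_c_eq]
      rw [LinearMap.prodMap_apply, Prod.mk_eq_zero, Bezout_c_eq, Bezout_c_eq] at huv
      intro i
      rw [pow_add]
      apply Ideal.add_mem
      · exact Ideal.mul_mem_mul (hμ i) (huv.1 i)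
      · rw [mul_comm g v]
        exact Ideal.mul_mem_mul (huv.2 i) (hν i))
  rw [Module.finrank_prod, Module.finrank_fintype_fun_eq_card,
    Module.finrank_fintype_fun_eq_card] at h
  rw [← Bezout_cardI, ← Bezout_cardI]
  omega

theorem Bezout_rk {U V P : Type*} [AddCommGroup U] [Module k U] [AddCommGroup V] [Module k V]
    [AddCommGroup P] [Module k P] [Module.Finite k U] [Module.Finite k V]
    (M : U →ₗ[k] V) (Φ : V →ₗ[k] P) :
    finrank k (LinearMap.range M) ≤ finrank k (LinearMap.range (Φ.comp M)) +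
      finrank k (LinearMap.ker Φ) := by
  have h1 := LinearMap.finrank_range_add_finrank_ker M
  have h2 := LinearMap.finrank_range_add_finrank_ker (Φ.comp M)
  let J : LinearMap.ker (Φ.comp M) →ₗ[k] LinearMap.ker Φ :=
    LinearMap.codRestrict _ (M.comp (LinearMap.ker (Φ.comp M)).subtype) (fun x => x.2)
  have h3 := LinearMap.finrank_range_add_finrank_ker J
  have h4 : finrank k (LinearMap.range J) ≤ finrank k (LinearMap.ker Φ) := Submodule.finrank_le _
  let J' : LinearMap.ker J →ₗ[k] LinearMap.ker M :=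
    LinearMap.codRestrict _ ((LinearMap.ker (Φ.comp M)).subtype.comp (LinearMap.ker J).subtype)
      (fun x => by
        have := x.2
        rw [LinearMap.mem_ker] at this ⊢
        exact congrArg Subtype.val this)
  have h5 : finrank k (LinearMap.ker J) ≤ finrank k (LinearMap.ker M) := by
    apply LinearMap.finrank_le_finrank_of_injective (f := J')
    intro x y hxy
    apply Subtype.ext
    apply Subtype.ext
    exact congrArg (fun z : LinearMap.ker M => (z : U)) hxy
  omega

theorem bezout {ι : Type*} [Fintype ι] (q : ι → Fin 2 → k) (hq : Function.Injective q)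
    (μ ν : ι → ℕ) (f g : MvPolynomial (Fin 2) k) (hf : f ≠ 0) (hg : g ≠ 0)
    (hfg : IsRelPrime f g) (hμ : ∀ i, f ∈ ptIdeal (q i 0) (q i 1) ^ μ i)
    (hν : ∀ i, g ∈ ptIdeal (q i 0) (q i 1) ^ ν i) :
    ∑ i, μ i * ν i ≤ f.totalDegree * g.totalDegree := by
  classical
  set a := f.totalDegree with ha
  set b := g.totalDegree with hb
  set N : ι → ℕ := fun i => μ i + ν i with hN
  -- choice of n
  obtain ⟨n, hn, hsurj⟩ : ∃ n, a + b ≤ n ∧
      LinearMap.range ((Bezout_c q N).domRestrict (Bezout_V k n)) = ⊤ := by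
    have hs := Bezout_c_surj q hq N
    let B := Pi.basisFun k (Bezout_I N)
    choose h hh using fun x => hs (B x)
    refine ⟨a + b + ∑ x, (h x).totalDegree, Nat.le_add_right _ _, ?_⟩
    rw [eq_top_iff, ← B.span_eq, Submodule.span_le]
    rintro _ ⟨x, rfl⟩
    refine ⟨⟨h x, (mem_restrictTotalDegree _ _ _).2 ?_⟩, hh x⟩
    refine le_trans ?_ (Nat.le_add_left _ _)
    exact Finset.single_le_sum (f := fun x => (h x).totalDegree) (fun _ _ => Nat.zero_le _)
      (Finset.mem_univ x)
  -- the map (u, v) ↦ f u + g v in bounded degrees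
  let M : (Bezout_V k (n - a) × Bezout_V k (n - b)) →ₗ[k] Bezout_V k n :=
    LinearMap.codRestrict _ ((Bezout_m f g).comp
      ((Bezout_V k (n - a)).subtype.prodMap (Bezout_V k (n - b)).subtype)) (by
    rintro ⟨⟨u, hu⟩, ⟨v, hv⟩⟩
    rw [mem_restrictTotalDegree] at hu hv
    rw [mem_restrictTotalDegree, LinearMap.comp_apply, LinearMap.prodMap_apply, Bezout_m_apply]
    simp only [Submodule.subtype_apply]
    have h1 := totalDegree_mul f u
    have h2 := totalDegree_mul g v
    have h3 := totalDegree_add (f * u) (g * v)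
    omega)
  let Φ : Bezout_V k n →ₗ[k] (Bezout_I N → k) := (Bezout_c q N).domRestrict (Bezout_V k n)
  have k1 : finrank k (LinearMap.ker M) ≤ finrank k (Bezout_V k (n - a - b)) := by
    have h1 := Bezout_ker f g hg hfg n hn
    rwa [← LinearMap.ker_codRestrict] at h1
  have k2 := LinearMap.finrank_range_add_finrank_ker M
  have k3 : finrank k (LinearMap.range (Φ.comp M)) ≤
      finrank k (LinearMap.range ((Bezout_c q N).comp (Bezout_m f g))) := by
    apply Submodule.finrank_mono
    rintro _ ⟨u, rfl⟩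
    exact ⟨(u.1.1, u.2.1), rfl⟩
  have k4 : 2 * finrank k (LinearMap.range ((Bezout_c q N).comp (Bezout_m f g))) ≤
      ∑ i, ν i * (ν i + 1) + ∑ i, μ i * (μ i + 1) := Bezout_image q μ ν f g hμ hν
  have k5 := Bezout_rk M Φ
  have k6 := LinearMap.finrank_range_add_finrank_ker Φ
  have k7 : finrank k (LinearMap.range Φ) = Fintype.card (Bezout_I N) := by
    change finrank k (LinearMap.range ((Bezout_c q N).domRestrict (Bezout_V k n))) = _
    rw [hsurj, finrank_top, Module.finrank_fintype_fun_eq_card]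
  have k8 := Bezout_cardI N
  rw [Module.finrank_prod] at k2
  have t1 := Bezout_finrank (k := k) n
  have t2 := Bezout_finrank (k := k) (n - a)
  have t3 := Bezout_finrank (k := k) (n - b)
  have t4 := Bezout_finrank (k := k) (n - a - b)
  have k9 : ∑ i, N i * (N i + 1) = ∑ i, ν i * (ν i + 1) + ∑ i, μ i * (μ i + 1) +
      2 * ∑ i, μ i * ν i := by
    rw [Finset.mul_sum, ← Finset.sum_add_distrib, ← Finset.sum_add_distrib]
    apply Finset.sum_congr rfl
    intro i _
    simp only [hN]
    ring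
  obtain ⟨c, rfl⟩ := Nat.exists_eq_add_of_le hn
  have e1 : a + b + c - a = b + c := by omega
  have e2 : a + b + c - b = a + c := by omega
  have e3 : b + c - b = c := by omega
  have e5 : a + b + c - a - b = c := by omega
  have t2' : (a + b + c - a + 1) * (a + b + c - a + 2) = (b + c + 1) * (b + c + 2) := by rw [e1]
  have t3' : (a + b + c - b + 1) * (a + b + c - b + 2) = (a + c + 1) * (a + c + 2) := by rw [e2]
  have t4' : (a + b + c - a - b + 1) * (a + b + c - a - b + 2) = (c + 1) * (c + 2) := by rw [e5]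
  rw [t2'] at t2
  rw [t3'] at t3
  rw [t4'] at t4
  have e4 : (a + b + c + 1) * (a + b + c + 2) + (c + 1) * (c + 2) =
      (b + c + 1) * (b + c + 2) + (a + c + 1) * (a + c + 2) + 2 * (a * b) := by ring
  omega

end ShghR
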