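import Pool.Agent.ShghR.Slice

/-!
# Between the round slices

Convexity of the nef cone: for `n = m_9` between two consecutive odd multiples of
`e = 3d - Σ_{i<9} m_i`, `n = (2j+1) e + r`, `0 ≤ r ≤ 2e`, the class is nef as soon as `D² ≥ r (2e - r)`.
-/

namespace ShghR

open MvPolynomial ShghE

variable {k : Type*} [Field k]

theorem conv_nef [IsAlgClosed k] (h2 : (2 : k) ≠ 0) (P : Fin 10 → Fin 2 → k)
    (hP : AlgebraicIndependent (⊥ : Subfield k) (fun ij : Fin 10 × Fin 2 => P ij.1 ij.2))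
    (j : ℕ) (d : ℝ) (m : Fin 10 → ℝ) (e r : ℝ) (he : e = 3 * d - ∑ i : Fin 9, m i.castSucc)
    (hr : m (Fin.last 9) = (2 * j + 1) * e + r) (hr0 : 0 ≤ r) (hr2 : r ≤ 2 * e)
    (hd : 0 ≤ d) (hsq : ∑ i, m i ^ 2 + r * (2 * e - r) ≤ d ^ 2) : IsNef P d m := by
  have he0 : 0 ≤ e := by linarith
  rcases he0.eq_or_lt with he1 | he1
  · -- `e = 0`
    have hr1 : r = 0 := by linarith
    refine slice_nef h2 P hP j d m ?_ hd ?_ ?_
    · rw [hr, ← he, hr1]; ring
    · rw [hr, ← he1, hr1]; norm_num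
    · rw [hr1] at hsq; linarith
  · set x : ℝ := (2 * j + 2) * r with hx
    set y : ℝ := (2 * j + 2) * (2 * e - r) with hy
    let m1 : Fin 10 → ℝ := fun i => if i = Fin.last 9 then (2 * j + 1) * e else m i - x
    let m2 : Fin 10 → ℝ := fun i => if i = Fin.last 9 then (2 * j + 3) * e else m i + y
    have hsum : ∀ (a b : ℝ) (i : Fin 9), (if i.castSucc = Fin.last 9 then a else b) = b :=
      fun a b i => if_neg (Fin.castSucc_lt_last i).ne
    have hj0 : (0 : ℝ) ≤ j := Nat.cast_nonneg j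
    have s1 : ∑ i : Fin 9, m1 i.castSucc = ∑ i : Fin 9, m i.castSucc - 9 * x := by
      simp only [m1, hsum, Finset.sum_sub_distrib]; simp
    have s2 : ∑ i : Fin 9, m2 i.castSucc = ∑ i : Fin 9, m i.castSucc + 9 * y := by
      simp only [m2, hsum, Finset.sum_add_distrib]; simp
    have l1 : m1 (Fin.last 9) = (2 * j + 1) * e := by simp [m1]
    have l2 : m2 (Fin.last 9) = (2 * j + 3) * e := by simp [m2]
    have q1 : ∑ i, m1 i ^ 2 = ∑ i : Fin 9, m i.castSucc ^ 2 - 2 * x * ∑ i : Fin 9, m i.castSucc +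
        9 * x ^ 2 + ((2 * j + 1) * e) ^ 2 := by
      rw [Fin.sum_univ_castSucc, l1]
      have : ∀ i : Fin 9, m1 i.castSucc ^ 2 = m i.castSucc ^ 2 - 2 * x * m i.castSucc + x ^ 2 := by
        intro i; simp only [m1, hsum]; ring
      simp only [this, Finset.sum_add_distrib, Finset.sum_sub_distrib, ← Finset.mul_sum]
      simp
    have q2 : ∑ i, m2 i ^ 2 = ∑ i : Fin 9, m i.castSucc ^ 2 + 2 * y * ∑ i : Fin 9, m i.castSucc +
        9 * y ^ 2 + ((2 * j + 3) * e) ^ 2 := by
      rw [Fin.sum_univ_castSucc, l2]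
      have : ∀ i : Fin 9, m2 i.castSucc ^ 2 = m i.castSucc ^ 2 + 2 * y * m i.castSucc + y ^ 2 := by
        intro i; simp only [m2, hsum]; ring
      simp only [this, Finset.sum_add_distrib, ← Finset.mul_sum]
      simp
    have hsq' : ∑ i : Fin 9, m i.castSucc ^ 2 + ((2 * j + 1) * e + r) ^ 2 + r * (2 * e - r) ≤
        d ^ 2 := by
      rw [Fin.sum_univ_castSucc, hr] at hsq; exact hsq
    have hS : ∑ i : Fin 9, m i.castSucc = 3 * d - e := by linarith
    rw [hS] at q1 q2 s1 s2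
    have Q1 : ∑ i, m1 i ^ 2 ≤ (d - 3 * x) ^ 2 := by
      rw [q1, hx]; nlinarith [hsq']
    have Q2 : ∑ i, m2 i ^ 2 ≤ (d + 3 * y) ^ 2 := by
      rw [q2, hy]; nlinarith [hsq']
    have D1 : 0 ≤ d - 3 * x := by
      refine deg_nonneg (d - 3 * x) (fun i => m1 i.castSucc) (m1 (Fin.last 9)) ?_ ?_
      · rw [s1]; linarith
      · rw [Fin.sum_univ_castSucc] at Q1; exact Q1
    have D2 : 0 ≤ d + 3 * y := by
      have : 0 ≤ y := by rw [hy]; exact mul_nonneg (by positivity) (by linarith)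
      linarith
    have N1 : IsNef P (d - 3 * x) m1 := by
      refine slice_nef h2 P hP j _ m1 ?_ D1 ?_ Q1
      · rw [l1, s1]; ring
      · rw [l1]; positivity
    have N2 : IsNef P (d + 3 * y) m2 := by
      refine slice_nef h2 P hP (j + 1) _ m2 ?_ D2 ?_ Q2
      · rw [l2, s2]; push_cast; ring
      · rw [l2]; positivity
    -- the convex combination, multiplied by `2 e`
    have hcomb : ∀ i, 2 * e * m i = (2 * e - r) * m1 i + r * m2 i := by
      intro i
      refine Fin.lastCases ?_ (fun i => ?_) i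
      · rw [l1, l2, hr]; ring
      · simp only [m1, m2, hsum]; rw [hx, hy]; ring
    refine ⟨fun i => ?_, fun f δ μ hf hδ hμ => ?_⟩
    · have h1 := N1.1 i
      have h3 := N2.1 i
      have h4 : 0 ≤ (2 * e - r) * m1 i + r * m2 i :=
        add_nonneg (mul_nonneg (by linarith) h1) (mul_nonneg hr0 h3)
      rw [← hcomb] at h4
      exact nonneg_of_mul_nonneg_right h4 (by linarith)
    · have h1 := N1.2 f δ μ hf hδ hμ
      have h3 := N2.2 f δ μ hf hδ hμ
      have h4 : 2 * e * ∑ i, m i * μ i = (2 * e - r) * ∑ i, m1 i * μ i + r * ∑ i, m2 i * μ i := by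
        rw [Finset.mul_sum, Finset.mul_sum, Finset.mul_sum, ← Finset.sum_add_distrib]
        refine Finset.sum_congr rfl fun i _ => ?_
        rw [← mul_assoc, hcomb i]; ring
      have h5 : (2 * e - r) * ∑ i, m1 i * μ i ≤ (2 * e - r) * ((d - 3 * x) * δ) :=
        mul_le_mul_of_nonneg_left h1 (by linarith)
      have h6 : r * ∑ i, m2 i * μ i ≤ r * ((d + 3 * y) * δ) := mul_le_mul_of_nonneg_left h3 hr0
      have h7 : (2 * e - r) * ((d - 3 * x) * δ) + r * ((d + 3 * y) * δ) = 2 * e * (d * δ) := by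
        rw [hx, hy]; ring
      have h8 : 2 * e * ∑ i, m i * μ i ≤ 2 * e * (d * δ) := by rw [h4]; linarith
      exact le_of_mul_le_mul_left h8 (by linarith)

end ShghR
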