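import Pool.Agent.ShghE.CurveDefs

/-!
# Unfolding the nef cone of the plane blown up at ten generic points: definitions
-/

namespace ShghR

open MvPolynomial ShghE

/-- `d H - Σ m_i E_i` is nef on the blow-up of the plane at the points `P i`. -/
def IsNef {k : Type*} [Field k] (P : Fin 10 → Fin 2 → k) (d : ℝ) (m : Fin 10 → ℝ) : Prop :=
  (∀ i, 0 ≤ m i) ∧ ∀ (f : MvPolynomial (Fin 2) k) (δ : ℕ) (μ : Fin 10 → ℕ), f ≠ 0 →
    f.totalDegree ≤ δ → (∀ i, f ∈ ptIdeal (P i 0) (P i 1) ^ μ i) → ∑ i, m i * μ i ≤ d * δ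

/-- `d H - Σ m_i E_i` is nonnegative on all classes of positive expected dimension. -/
def NumNef (d : ℝ) (m : Fin 10 → ℝ) : Prop :=
  ∀ (a : ℕ) (ν : Fin 10 → ℕ), ∑ i, ν i * (ν i + 1) < (a + 1) * (a + 2) → ∑ i, m i * ν i ≤ d * a

end ShghR
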