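import Pool.Agent.ShghR.Mult
import Pool.Agent.ShghE.Main

/-!
# Intersection of a plane curve with the cubic
-/

namespace ShghR

open MvPolynomial ShghE WeierstrassCurve WeierstrassCurve.Affine

section EInt_div

variable {A ι : Type*} [AddCommGroup A] [Fintype ι]

open Classical in
/-- The divisor `c0 [0] + Σ c_i [p_i]`. -/
noncomputable def EInt_divf (c0 : ℤ) (c : ι → ℤ) (p : ι → A) (P : A) : ℤ :=
  c0 * (if P = 0 then 1 else 0) + ∑ i, c i * (if P = p i then 1 else 0)

variable (c0 : ℤ) (c : ι → ℤ) (p : ι → A)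

theorem EInt_divf_eq_zero {P : A} (h0 : P ≠ 0) (h : ∀ i, P ≠ p i) : EInt_divf c0 c p P = 0 := by
  unfold EInt_divf
  rw [if_neg h0, Finset.sum_eq_zero]
  · simp
  · intro i _
    rw [if_neg (h i)]
    simp

open Classical in
theorem EInt_divf_support :
    Function.support (EInt_divf c0 c p) ⊆ ((insert 0 (Finset.univ.image p) : Finset A) : Set A) := by
  intro P hP
  by_contra h
  apply hP
  simp only [Finset.coe_insert, Finset.coe_image, Finset.coe_univ, Set.image_univ,
    Set.mem_insert_iff, Set.mem_range, not_or, not_exists] at h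
  exact EInt_divf_eq_zero c0 c p h.1 (fun i e => h.2 i e.symm)

theorem EInt_divf_fin : (Function.support (EInt_divf c0 c p)).Finite := by
  classical
  exact (Finset.finite_toSet _).subset (EInt_divf_support c0 c p)

theorem EInt_divf_sum : ∑ᶠ P, EInt_divf c0 c p P = c0 + ∑ i, c i := by
  classical
  rw [finsum_eq_sum_of_support_subset _ (EInt_divf_support c0 c p)]
  have h1 : ∑ x ∈ insert 0 (Finset.image p Finset.univ), (c0 * if x = 0 then 1 else 0) = c0 := by
    rw [Finset.sum_eq_single 0]
    · simp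
    · intro b _ hb
      simp [hb]
    · intro h
      exact absurd (Finset.mem_insert_self _ _) h
  have h2 : ∑ x ∈ insert 0 (Finset.image p Finset.univ), ∑ i, (c i * if x = p i then 1 else 0) =
      ∑ i, c i := by
    rw [Finset.sum_comm]
    refine Finset.sum_congr rfl fun i _ => ?_
    rw [Finset.sum_eq_single (p i)]
    · simp
    · intro b _ hb
      simp [hb]
    · intro h
      exfalso
      apply h
      simp
  unfold EInt_divf
  rw [Finset.sum_add_distrib, h1, h2]

theorem EInt_divf_sum_smul : ∑ᶠ P, EInt_divf c0 c p P • P = ∑ i, c i • p i := by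
  classical
  rw [finsum_eq_sum_of_support_subset (s := insert 0 (Finset.univ.image p))]
  · unfold EInt_divf
    simp only [add_smul, Finset.sum_add_distrib, Finset.sum_smul]
    rw [Finset.sum_comm]
    have h1 : ∑ x ∈ insert 0 (Finset.image p Finset.univ), (c0 * if x = 0 then 1 else 0) • x = 0 := by
      refine Finset.sum_eq_zero fun x _ => ?_
      by_cases hx : x = 0
      · simp [hx]
      · simp [hx]
    rw [h1, zero_add]
    refine Finset.sum_congr rfl fun i _ => ?_
    rw [Finset.sum_eq_single (p i)]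
    · simp
    · intro b _ hb
      simp [hb]
    · intro h
      exfalso
      apply h
      simp
  · refine Set.Subset.trans ?_ (EInt_divf_support c0 c p)
    intro P hP h
    apply hP
    simp only [h, zero_smul]

theorem EInt_divf_zero (h : ∀ i, p i ≠ 0) : EInt_divf c0 c p 0 = c0 := by
  unfold EInt_divf
  rw [Finset.sum_eq_zero]
  · simp
  · intro i _
    rw [if_neg (fun e => h i e.symm)]
    simp

theorem EInt_divf_apply (h : ∀ i, p i ≠ 0) (hp : Function.Injective p) (i : ι) :
    EInt_divf c0 c p (p i) = c i := by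
  unfold EInt_divf
  rw [if_neg (h i), Finset.sum_eq_single i]
  · simp
  · intro j _ hj
    rw [if_neg (fun e => hj (hp e).symm)]
    simp
  · simp

end EInt_div

variable {k : Type*} [Field k]

/-- Let `L` be not divisible by `Geq`, with multiplicities `≥ ν_i` at ten distinct affine points of the
curve. Then `Σ ν_i ≤ 3 deg L`, and in the case of equality `Σ ν_i • P_i = 0` in the group: the function
`psi L` has at `P_i` order `≥ ν_i` (`CD.aff`, `psi_mem`), it is regular on the affine curve and has at
infinity order `≥ - 3 deg L` (`CD.inf`); use `E.deg`, `E.sum`. -/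
theorem e_int [DecidableEq k] (CD : CurveData k) (Z : Fin 10 → Fin 2 → k)
    (hZ : ∀ i, (E0 k).Nonsingular (Z i 0) (Z i 1)) (hZinj : Function.Injective Z)
    (L : MvPolynomial (Fin 2) k) (hL : ¬ Geq k ∣ L) (ν : Fin 10 → ℕ)
    (hν : ∀ i, L ∈ ptIdeal (Z i 0) (Z i 1) ^ ν i) :
    ∑ i, ν i ≤ 3 * L.totalDegree ∧
      (∑ i, ν i = 3 * L.totalDegree →
        ∑ i, (ν i : ℤ) • (Point.some (Z i 0) (Z i 1) (hZ i) : (E0 k).Point) = 0) := by
  have halinj : Function.Injective (algebraMap (R0 k) (K0 k)) :=
    IsFractionRing.injective (R0 k) (K0 k)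
  have hpsi : psi k L ≠ 0 := fun h => hL ((psi_eq_zero_iff L).mp h)
  obtain ⟨x, hx⟩ : ∃ x : K0 k, x = algebraMap (R0 k) (K0 k) (psi k L) := ⟨_, rfl⟩
  have hx0 : x ≠ 0 := by
    intro h
    apply hpsi
    apply halinj
    rw [← hx, h, map_zero]
  obtain ⟨p, hp⟩ : ∃ p : Fin 10 → (E0 k).Point, p = fun i => .some (Z i 0) (Z i 1) (hZ i) :=
    ⟨_, rfl⟩
  have hpi' : ∀ i, p i = .some (Z i 0) (Z i 1) (hZ i) := fun i => by rw [hp]
  have hp0 : ∀ i, p i ≠ 0 := fun i => by rw [hpi']; exact Point.some_ne_zero _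
  have hpi : Function.Injective p := by
    intro i j h
    apply hZinj
    rw [hpi', hpi'] at h
    have h1 := Point.some.inj h
    funext t
    fin_cases t
    · exact h1.1
    · exact h1.2
  obtain ⟨c, hc⟩ : ∃ c : (E0 k).Point → ℤ,
    c = EInt_divf (- (3 * (L.totalDegree : ℤ))) (fun i => (ν i : ℤ)) p := ⟨_, rfl⟩
  have hle : ∀ P, c P ≤ CD.E.v P x := by
    intro P
    rcases P with _ | ⟨a, b, hab⟩
    · have e1 : c Point.zero = - (3 * (L.totalDegree : ℤ)) := by
        rw [hc]
        exact EInt_divf_zero _ _ _ hp0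
      have e2 := CD.inf L hpsi
      rw [← hx] at e2
      rw [e1]
      have e3 : CD.E.v Point.zero x = CD.E.v 0 x := rfl
      rw [e3]
      linarith
    · by_cases hQ : ∃ i, (Point.some a b hab : (E0 k).Point) = p i
      · obtain ⟨i, hi⟩ := hQ
        rw [hi, hc, EInt_divf_apply _ _ _ hp0 hpi, hpi', hx]
        exact CD.aff (Z i 0) (Z i 1) (hZ i) (psi k L) (ν i) hpsi (psi_mem (hν i))
      · push Not at hQ
        have h0 : (Point.some a b hab : (E0 k).Point) ≠ 0 := Point.some_ne_zero _
        rw [hc, EInt_divf_eq_zero _ _ _ h0 hQ, hx]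
        have := CD.aff a b hab (psi k L) 0 hpsi (by simp)
        simpa using this
  have hvfin : (Function.support fun P => CD.E.v P x).Finite := CD.E.fin x hx0
  have hcfin : (Function.support c).Finite := by
    rw [hc]
    exact EInt_divf_fin _ _ _
  have hdsum : ∑ᶠ P, (CD.E.v P x - c P) = 3 * (L.totalDegree : ℤ) - ∑ i, (ν i : ℤ) := by
    rw [finsum_sub_distrib hvfin hcfin, CD.E.deg x hx0, hc, EInt_divf_sum]
    ring
  have hnn : ∀ P, 0 ≤ CD.E.v P x - c P := fun P => sub_nonneg.mpr (hle P)
  have h1 : (0 : ℤ) ≤ 3 * (L.totalDegree : ℤ) - ∑ i, (ν i : ℤ) := by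
    rw [← hdsum]
    exact finsum_nonneg hnn
  constructor
  · have h2 : ((∑ i, ν i : ℕ) : ℤ) ≤ ((3 * L.totalDegree : ℕ) : ℤ) := by
      push_cast
      linarith
    exact_mod_cast h2
  · intro heq
    have h2 : ∑ᶠ P, (CD.E.v P x - c P) = 0 := by
      rw [hdsum]
      have h3 : ((∑ i, ν i : ℕ) : ℤ) = ((3 * L.totalDegree : ℕ) : ℤ) := by rw [heq]
      push_cast at h3
      linarith
    have hdfin : (Function.support fun P => CD.E.v P x - c P).Finite := by
      refine (hvfin.union hcfin).subset ?_
      intro P hP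
      by_contra hcon
      simp only [Set.mem_union, Function.mem_support, not_or, not_not] at hcon
      apply hP
      simp only [hcon.1, hcon.2, sub_zero]
    have h3 : ∀ P, CD.E.v P x = c P := by
      intro P
      by_contra hcon
      rw [finsum_eq_sum _ hdfin] at h2
      have h4 := (Finset.sum_eq_zero_iff_of_nonneg (fun P _ => hnn P)).mp h2 P
        (by simpa [sub_eq_zero] using hcon)
      exact hcon (sub_eq_zero.mp h4)
    have h4 := CD.E.sum x hx0
    have h5 : ∑ᶠ P, CD.E.v P x • P = ∑ᶠ P, c P • P := finsum_congr fun P => by rw [h3]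
    rw [h5, hc, EInt_divf_sum_smul] at h4
    rw [← h4]
    refine Finset.sum_congr rfl fun i _ => ?_
    rw [hpi']

end ShghR
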