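import Mathlib

/-!
# A quadratic equation in power series
-/

namespace ShghR

private theorem Quad_fix {A : Type*} [CommRing A] (e f : PowerSeries A) :
    ∃ r : PowerSeries A, e + PowerSeries.X * f * r ^ 2 = r := by
  let s : ℕ → PowerSeries A := fun k => Nat.rec 0 (fun _ r => e + PowerSeries.X * f * r ^ 2) k
  have hs : ∀ k, s (k + 1) = e + PowerSeries.X * f * (s k) ^ 2 := fun k => rfl
  have h1 : ∀ k, (PowerSeries.X : PowerSeries A) ^ k ∣ s (k + 1) - s k := by
    intro k
    induction k with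
    | zero => simp
    | succ k ih =>
      obtain ⟨c, hc⟩ := ih
      refine ⟨f * c * (s (k + 1) + s k), ?_⟩
      have h2 : s (k + 1 + 1) - s (k + 1) =
          PowerSeries.X * f * ((s (k + 1) - s k) * (s (k + 1) + s k)) := by
        rw [hs (k + 1)]
        nth_rewrite 2 [hs k]
        ring
      rw [h2, hc]
      ring
  have h2 : ∀ k j, (PowerSeries.X : PowerSeries A) ^ k ∣ s (k + j) - s k := by
    intro k j
    induction j with
    | zero => simp
    | succ j ih =>
      have h3 : s (k + (j + 1)) - s k = (s (k + j + 1) - s (k + j)) + (s (k + j) - s k) := by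
        rw [← add_assoc]; ring
      rw [h3]
      exact dvd_add ((pow_dvd_pow _ (by omega)).trans (h1 (k + j))) ih
  refine ⟨PowerSeries.mk fun n => PowerSeries.coeff n (s (n + 1)), ?_⟩
  set r : PowerSeries A := PowerSeries.mk fun n => PowerSeries.coeff n (s (n + 1)) with hr
  have h3 : ∀ n, (PowerSeries.X : PowerSeries A) ^ n ∣ r - s n := by
    intro n
    rw [PowerSeries.X_pow_dvd_iff]
    intro m hm
    obtain ⟨j, rfl⟩ : ∃ j, n = m + 1 + j := ⟨n - (m + 1), by omega⟩
    have h4 := (PowerSeries.X_pow_dvd_iff.1 (h2 (m + 1) j)) m (by omega)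
    rw [map_sub, sub_eq_zero] at h4 ⊢
    rw [h4, hr, PowerSeries.coeff_mk]
  have h5 : ∀ n, (PowerSeries.X : PowerSeries A) ^ (n + 1) ∣
      (e + PowerSeries.X * f * r ^ 2) - r := by
    intro n
    have h6 : (e + PowerSeries.X * f * r ^ 2) - r =
        PowerSeries.X * f * ((r - s n) * (r + s n)) - (r - s (n + 1)) := by
      rw [hs n]
      ring
    rw [h6]
    refine dvd_sub ?_ (h3 (n + 1))
    obtain ⟨c, hc⟩ := h3 n
    refine ⟨f * c * (r + s n), ?_⟩
    rw [hc]
    ring
  rw [← sub_eq_zero]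
  ext n
  rw [map_zero]
  exact (PowerSeries.X_pow_dvd_iff.1 (h5 n)) n (by omega)

/-- Solving a quadratic equation in power series. With `e = -(2a+b)⁻¹ (a+b+c)`, `f = -(2a+b)⁻¹ a` one needs
`ρ = e + f ρ²` with `ρ` divisible by the variable: recursion on the coefficients, or
`ρ = e C(e f)` with the Catalan series `C(t) = 1 + t C(t)²`. -/
theorem exists_quad {A : Type*} [CommRing A] (a b c : PowerSeries A)
    (h : PowerSeries.constantCoeff (a + b + c) = 0) (hu : IsUnit (2 * a + b)) :
    ∃ r : PowerSeries A, a * (1 + PowerSeries.X * r) ^ 2 + b * (1 + PowerSeries.X * r) + c = 0 := by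
  obtain ⟨v, hv⟩ := hu.exists_right_inv
  obtain ⟨s, hs⟩ := PowerSeries.X_dvd_iff.2 h
  obtain ⟨r, hr⟩ := Quad_fix (-(v * s)) (-(v * a))
  refine ⟨r, ?_⟩
  have h1 : a * (1 + PowerSeries.X * r) ^ 2 + b * (1 + PowerSeries.X * r) + c =
      (a + b + c) + (2 * a + b) * (PowerSeries.X * r) + a * (PowerSeries.X * r) ^ 2 := by ring
  rw [h1, hs]
  have h2 : (2 * a + b) * r = - s - a * PowerSeries.X * r ^ 2 := by
    calc (2 * a + b) * r =
          (2 * a + b) * (-(v * s) + PowerSeries.X * -(v * a) * r ^ 2) := by rw [hr]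
      _ = -(((2 * a + b) * v) * s) - ((2 * a + b) * v) * a * PowerSeries.X * r ^ 2 := by ring
      _ = _ := by rw [hv]; ring
  linear_combination PowerSeries.X * h2

end ShghR
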