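import Pool.Agent.ShghR.OmegaInf
import Pool.Agent.ShghR.Quad

/-!
# Comparison of the two expansions

`S = K[X]⟦ξ⟧`, `K = K0 k`, `t = X ξ`, `u = x + be t`, `v = y + al t`. In `S` one has
`u³ - v² + u = - t (1 + c2 t + c3 t²)` (compare `Th_Geq`) and `2 u³ - v²` has the constant term
`2 x³ - y² = x³ - x`, a nonzero element of `K`, so it is a unit.

1. (`exists_quad`) there is `ρ₁ ∈ S` such that `Λ = 1 + ξ ρ₁` satisfies `u³ Λ² - v² Λ + u = 0`. Dividing
   by `ξ` one finds that the constant term of `ρ₁` is `X / (x³ - x)`.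
2. `x̂ = Λ u`, `ŷ = Λ v` satisfy `ŷ² - x̂³ - x̂ = - Λ (u³ Λ² - v² Λ + u) = 0` and have the constant terms
   `x`, `y`. So there is a ring homomorphism `R0 → S`, `x ↦ x̂`, `y ↦ ŷ`, constant on `k`; composed with
   the constant term it is the inclusion `R0 → K → K[X]`, so nonzero elements are mapped to units and it
   extends to `ψ_K : K → S`.
3. `X̂ = ρ₁ (x̂³ - x̂)` has the constant term `X`; let `ψ : K[X] → S` be the extension with `X ↦ X̂`.
   Then the constant term of `ψ a` is `a`.
4. `ψ(1/(x³-x)) X̂ ξ = ρ₁ ξ = Λ - 1`. So (with `ξ ↦ ξ`)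
   `x^p y^q (1 + X ξ/(x³-x))^(δ-p-q) ↦ x̂^p ŷ^q Λ^(δ-p-q) = Λ^δ u^p v^q`, which is `Λ^δ` times the image of
   `Th (x^p y^q)` at `s = X ξ`. Sum over the monomials of the `f_l`, multiplied by `ξ^l`.
-/

namespace ShghR

open ShghE

section general

/-- coefficients of a polynomial evaluated at `Z ξ` -/
theorem Flow_B {K S : Type*} [CommRing K] [CommRing S] (g : K →+* PowerSeries S)
    (Z : PowerSeries S) (θ : Polynomial K) (m : ℕ) :
    PowerSeries.coeff m (Polynomial.eval₂ g (Z * PowerSeries.X) θ) =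
      ∑ j ∈ Finset.range (m + 1), PowerSeries.coeff (m - j) (g (θ.coeff j) * Z ^ j) := by
  have hN : θ.natDegree < θ.natDegree + 1 + m := by omega
  rw [Polynomial.eval₂_eq_sum_range' g hN, map_sum]
  have h : ∀ j ∈ Finset.range (θ.natDegree + 1 + m),
      PowerSeries.coeff m (g (θ.coeff j) * (Z * PowerSeries.X) ^ j) =
        if j ≤ m then PowerSeries.coeff (m - j) (g (θ.coeff j) * Z ^ j) else 0 := by
    intro j _
    rw [mul_pow, ← mul_assoc, PowerSeries.coeff_mul_X_pow']
  rw [Finset.sum_congr rfl h, ← Finset.sum_filter]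
  refine Finset.sum_congr ?_ fun _ _ => rfl
  ext j
  rw [Finset.mem_filter, Finset.mem_range, Finset.mem_range]
  omega

/-- the series of the images of the pieces -/
theorem Flow_A {K S : Type*} [CommRing K] [CommRing S] (ψ : Polynomial K →+* PowerSeries S)
    (θ : ℕ → Polynomial K) (n M : ℕ) (h : n ≤ M) :
    ∑ x ∈ Finset.HasAntidiagonal.antidiagonal n, PowerSeries.coeff x.2 (ψ (diag θ x.1)) =
      PowerSeries.coeff n (∑ l ∈ Finset.range (M + 1), PowerSeries.X ^ l *
        Polynomial.eval₂ (ψ.comp Polynomial.C) (ψ Polynomial.X * PowerSeries.X) (θ l)) := by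
  obtain ⟨f, hf⟩ : ∃ f : ℕ → ℕ → S, f = fun l j => PowerSeries.coeff (n - (l + j))
    (ψ.comp Polynomial.C ((θ l).coeff j) * ψ Polynomial.X ^ j) := ⟨_, rfl⟩
  have h1 : ∑ x ∈ Finset.HasAntidiagonal.antidiagonal n, PowerSeries.coeff x.2 (ψ (diag θ x.1)) =
      ∑ i ∈ Finset.range (n + 1), ∑ l ∈ Finset.range (i + 1), f l (i - l) := by
    rw [Finset.Nat.sum_antidiagonal_eq_sum_range_succ
      (fun i m => PowerSeries.coeff m (ψ (diag θ i)))]
    refine Finset.sum_congr rfl fun i hi => ?_
    rw [Finset.mem_range] at hi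
    unfold diag
    rw [map_sum, map_sum, ← Finset.sum_flip]
    refine Finset.sum_congr rfl fun l hl => ?_
    rw [Finset.mem_range] at hl
    have e1 : i - (i - l) = l := by omega
    have e2 : n - (l + (i - l)) = n - i := by omega
    rw [hf, e1, map_mul, map_pow]
    show _ = PowerSeries.coeff (n - (l + (i - l)))
      (ψ.comp Polynomial.C ((θ l).coeff (i - l)) * ψ Polynomial.X ^ (i - l))
    rw [e2]
    rfl
  have h2 : PowerSeries.coeff n (∑ l ∈ Finset.range (M + 1), PowerSeries.X ^ l *
        Polynomial.eval₂ (ψ.comp Polynomial.C) (ψ Polynomial.X * PowerSeries.X) (θ l)) =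
      ∑ l ∈ Finset.range (n + 1), ∑ j ∈ Finset.range (n + 1 - l), f l j := by
    rw [map_sum]
    have h3 : ∀ l ∈ Finset.range (M + 1), PowerSeries.coeff n (PowerSeries.X ^ l *
        Polynomial.eval₂ (ψ.comp Polynomial.C) (ψ Polynomial.X * PowerSeries.X) (θ l)) =
        if l ≤ n then PowerSeries.coeff (n - l)
          (Polynomial.eval₂ (ψ.comp Polynomial.C) (ψ Polynomial.X * PowerSeries.X) (θ l))
          else 0 := by
      intro l _
      rw [PowerSeries.coeff_X_pow_mul']
    rw [Finset.sum_congr rfl h3, ← Finset.sum_filter]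
    have h4 : (Finset.range (M + 1)).filter (fun l => l ≤ n) = Finset.range (n + 1) := by
      ext l
      rw [Finset.mem_filter, Finset.mem_range, Finset.mem_range]
      omega
    rw [h4]
    refine Finset.sum_congr rfl fun l hl => ?_
    rw [Finset.mem_range] at hl
    rw [Flow_B]
    have e3 : n - l + 1 = n + 1 - l := by omega
    rw [e3]
    refine Finset.sum_congr rfl fun j _ => ?_
    rw [hf]
    show _ = PowerSeries.coeff (n - (l + j)) _
    rw [Nat.sub_sub]
  rw [h1, h2, Finset.sum_range_diag_flip]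

end general

variable {k : Type*} [Field k]

/-- constants -/
noncomputable def Flow_i (k : Type*) [Field k] : K0 k →+* PowerSeries (Polynomial (K0 k)) :=
  (PowerSeries.C).comp Polynomial.C

/-- evaluation of a point of the plane over a ring -/
noncomputable def Flow_R {S : Type*} [CommRing S] (i : k →+* S) (a b : S)
    (h : b ^ 2 = a ^ 3 + a) : R0 k →+* S :=
  AdjoinRoot.lift (Polynomial.eval₂RingHom i a) b (by
    change Polynomial.eval₂ _ b (Polynomial.X ^ 2 + Polynomial.C (Polynomial.C 0 * Polynomial.X +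
      Polynomial.C 0) * Polynomial.X - Polynomial.C (Polynomial.X ^ 3 +
      Polynomial.C 0 * Polynomial.X ^ 2 + Polynomial.C 1 * Polynomial.X + Polynomial.C 0)) = 0
    simp only [map_zero, map_one, zero_mul, add_zero, one_mul, Polynomial.eval₂_sub,
      Polynomial.eval₂_pow, Polynomial.eval₂_X, Polynomial.eval₂_C, Polynomial.coe_eval₂RingHom,
      Polynomial.eval₂_add]
    linear_combination h)

theorem Flow_R_psi {S : Type*} [CommRing S] (i : k →+* S) (a b : S) (h : b ^ 2 = a ^ 3 + a)
    (f : MvPolynomial (Fin 2) k) :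
    Flow_R i a b h (psi k f) = MvPolynomial.eval₂ i ![a, b] f := by
  have hx : Flow_R i a b h (xR k) = a := by
    show AdjoinRoot.lift _ b _ (AdjoinRoot.mk _ (Polynomial.C Polynomial.X)) = a
    rw [AdjoinRoot.lift_mk, Polynomial.eval₂_C, Polynomial.coe_eval₂RingHom, Polynomial.eval₂_X]
  have hy : Flow_R i a b h (yR k) = b := by
    show AdjoinRoot.lift _ b _ (AdjoinRoot.mk _ Polynomial.X) = b
    rw [AdjoinRoot.lift_mk, Polynomial.eval₂_X]
  have hc : ∀ c : k, Flow_R i a b h (algebraMap k (R0 k) c) = i c := by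
    intro c
    show AdjoinRoot.lift _ b _ (AdjoinRoot.mk _ (Polynomial.C (Polynomial.C c))) = i c
    rw [AdjoinRoot.lift_mk, Polynomial.eval₂_C, Polynomial.coe_eval₂RingHom, Polynomial.eval₂_C]
  have e : (Flow_R i a b h).comp (psi k).toRingHom = MvPolynomial.eval₂Hom i ![a, b] := by
    apply MvPolynomial.ringHom_ext
    · intro c
      rw [RingHom.comp_apply, MvPolynomial.coe_eval₂Hom, MvPolynomial.eval₂_C]
      show Flow_R i a b h (psi k (MvPolynomial.C c)) = i c
      rw [← hc c]
      congr 1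
      exact MvPolynomial.aeval_C _ c
    · intro j
      rw [RingHom.comp_apply, MvPolynomial.coe_eval₂Hom, MvPolynomial.eval₂_X]
      show Flow_R i a b h (psi k (MvPolynomial.X j)) = _
      rw [psi, MvPolynomial.aeval_X]
      fin_cases j
      · exact hx
      · exact hy
  exact congrArg (fun φ => φ f) e

theorem Flow_R_x {S : Type*} [CommRing S] (i : k →+* S) (a b : S) (h : b ^ 2 = a ^ 3 + a) :
    Flow_R i a b h (xR k) = a := by
  have e := Flow_R_psi i a b h (MvPolynomial.X 0)
  rw [psi, MvPolynomial.aeval_X, MvPolynomial.eval₂_X] at e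
  exact e

theorem Flow_R_y {S : Type*} [CommRing S] (i : k →+* S) (a b : S) (h : b ^ 2 = a ^ 3 + a) :
    Flow_R i a b h (yR k) = b := by
  have e := Flow_R_psi i a b h (MvPolynomial.X 1)
  rw [psi, MvPolynomial.aeval_X, MvPolynomial.eval₂_X] at e
  exact e

theorem Flow_R_c {S : Type*} [CommRing S] (i : k →+* S) (a b : S) (h : b ^ 2 = a ^ 3 + a)
    (c : k) : Flow_R i a b h (algebraMap k (R0 k) c) = i c := by
  have e := Flow_R_psi i a b h (MvPolynomial.C c)
  rw [psi, MvPolynomial.aeval_C, MvPolynomial.eval₂_C] at e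
  exact e

/-- the affine expansion at `s = X ξ` -/
theorem Flow_Th (p : MvPolynomial (Fin 2) k) :
    Polynomial.eval₂ (Flow_i k) (PowerSeries.C Polynomial.X * PowerSeries.X)
      ((Th k p).map (algebraMap (R0 k) (K0 k))) =
    MvPolynomial.eval₂ ((Flow_i k).comp (algebraMap k (K0 k)))
      ![Flow_i k (xK k) + Flow_i k (algebraMap (R0 k) (K0 k) (be k)) *
          (PowerSeries.C Polynomial.X * PowerSeries.X),
        Flow_i k (yK k) + Flow_i k (algebraMap (R0 k) (K0 k) (al k)) *
          (PowerSeries.C Polynomial.X * PowerSeries.X)] p := by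
  have e : (Polynomial.eval₂RingHom (Flow_i k) (PowerSeries.C Polynomial.X * PowerSeries.X)).comp
      ((Polynomial.mapRingHom (algebraMap (R0 k) (K0 k))).comp (Th k).toRingHom) =
      MvPolynomial.eval₂Hom ((Flow_i k).comp (algebraMap k (K0 k)))
      ![Flow_i k (xK k) + Flow_i k (algebraMap (R0 k) (K0 k) (be k)) *
          (PowerSeries.C Polynomial.X * PowerSeries.X),
        Flow_i k (yK k) + Flow_i k (algebraMap (R0 k) (K0 k) (al k)) *
          (PowerSeries.C Polynomial.X * PowerSeries.X)] := by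
    apply MvPolynomial.ringHom_ext
    · intro c
      rw [RingHom.comp_apply, RingHom.comp_apply, MvPolynomial.coe_eval₂Hom, MvPolynomial.eval₂_C]
      show Polynomial.eval₂ _ _ (Polynomial.map _ (Th k (MvPolynomial.C c))) = _
      rw [Th, MvPolynomial.aeval_C, Polynomial.algebraMap_apply, Polynomial.map_C,
        Polynomial.eval₂_C, ← IsScalarTower.algebraMap_apply]
      rfl
    · intro j
      rw [RingHom.comp_apply, RingHom.comp_apply, MvPolynomial.coe_eval₂Hom, MvPolynomial.eval₂_X]
      show Polynomial.eval₂ _ _ (Polynomial.map _ (Th k (MvPolynomial.X j))) = _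
      rw [Th, MvPolynomial.aeval_X]
      fin_cases j
      · show Polynomial.eval₂ _ _ (Polynomial.map _ (Polynomial.C (xR k) +
          Polynomial.C (be k) * Polynomial.X)) = Flow_i k (xK k) +
          Flow_i k (algebraMap (R0 k) (K0 k) (be k)) *
          (PowerSeries.C Polynomial.X * PowerSeries.X)
        rw [Polynomial.map_add, Polynomial.map_mul, Polynomial.map_C, Polynomial.map_C,
          Polynomial.map_X, Polynomial.eval₂_add, Polynomial.eval₂_mul, Polynomial.eval₂_C,
          Polynomial.eval₂_C, Polynomial.eval₂_X]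
      · show Polynomial.eval₂ _ _ (Polynomial.map _ (Polynomial.C (yR k) +
          Polynomial.C (al k) * Polynomial.X)) = Flow_i k (yK k) +
          Flow_i k (algebraMap (R0 k) (K0 k) (al k)) *
          (PowerSeries.C Polynomial.X * PowerSeries.X)
        rw [Polynomial.map_add, Polynomial.map_mul, Polynomial.map_C, Polynomial.map_C,
          Polynomial.map_X, Polynomial.eval₂_add, Polynomial.eval₂_mul, Polynomial.eval₂_C,
          Polynomial.eval₂_C, Polynomial.eval₂_X]
  exact congrArg (fun φ => φ p) e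

theorem exists_flow (h2 : (2 : k) ≠ 0) :
    ∃ (ψ : Polynomial (K0 k) →+* PowerSeries (Polynomial (K0 k)))
      (U : PowerSeries (Polynomial (K0 k))),
      (∀ a, PowerSeries.constantCoeff (ψ a) = a) ∧ PowerSeries.constantCoeff U = 1 ∧
      ∀ (δ : ℕ) (f : Polynomial (MvPolynomial (Fin 2) k)),
        (∀ l, (f.coeff l).totalDegree ≤ δ) → ∀ n,
        ∑ x ∈ Finset.HasAntidiagonal.antidiagonal n, PowerSeries.coeff x.2 (ψ (OmI δ f x.1)) =
          PowerSeries.coeff n (U ^ δ * PowerSeries.mk (Om f)) := by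
  classical
  have hinj : Function.Injective (algebraMap (R0 k) (K0 k)) := IsFractionRing.injective _ _
  have hxy : yK k ^ 2 = xK k ^ 3 + xK k := by
    have h := congrArg (algebraMap (R0 k) (K0 k)) (yR_sq (k := k))
    rw [map_pow, map_add, map_pow] at h
    exact h
  have hba : 2 * yK k * algebraMap (R0 k) (K0 k) (al k) -
      (3 * xK k ^ 2 + 1) * algebraMap (R0 k) (K0 k) (be k) = 1 := by
    have h := congrArg (algebraMap (R0 k) (K0 k)) (be_al h2)
    rw [map_sub, map_mul, map_mul, map_mul, map_add, map_mul, map_pow, map_one, map_ofNat,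
      map_ofNat] at h
    exact h
  -- `x³ - x` is not zero
  have hne : xK k ^ 3 - xK k ≠ 0 := by
    intro h
    have h1 : (xR k) ^ 3 - xR k = 0 := by
      apply hinj
      rw [map_zero, map_sub, map_pow]
      exact h
    have h3 : (Polynomial.X ^ 3 - Polynomial.X : Polynomial k) •
        (1 : WeierstrassCurve.Affine.CoordinateRing (E0 k)) +
        (0 : Polynomial k) • WeierstrassCurve.Affine.CoordinateRing.mk (E0 k) Polynomial.X = 0 := by
      rw [WeierstrassCurve.Affine.CoordinateRing.smul, zero_smul, add_zero, mul_one, map_sub,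
        map_pow, map_sub, map_pow]
      exact h1
    have h4 := (WeierstrassCurve.Affine.CoordinateRing.smul_basis_eq_zero h3).1
    have h5 := congrArg (fun q => Polynomial.coeff q 3) h4
    simp only [Polynomial.coeff_sub, Polynomial.coeff_X_pow, Polynomial.coeff_X,
      Polynomial.coeff_zero] at h5
    norm_num at h5
  -- the quadratic equation
  obtain ⟨x, hx⟩ : ∃ x, x = Flow_i k (xK k) := ⟨_, rfl⟩
  obtain ⟨y, hy⟩ : ∃ y, y = Flow_i k (yK k) := ⟨_, rfl⟩
  obtain ⟨b, hb⟩ : ∃ b, b = Flow_i k (algebraMap (R0 k) (K0 k) (be k)) := ⟨_, rfl⟩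
  obtain ⟨a, ha⟩ : ∃ a, a = Flow_i k (algebraMap (R0 k) (K0 k) (al k)) := ⟨_, rfl⟩
  obtain ⟨t, ht⟩ : ∃ t : PowerSeries (Polynomial (K0 k)),
    t = PowerSeries.C Polynomial.X * PowerSeries.X := ⟨_, rfl⟩
  obtain ⟨u, hu⟩ : ∃ u, u = x + b * t := ⟨_, rfl⟩
  obtain ⟨v, hv⟩ : ∃ v, v = y + a * t := ⟨_, rfl⟩
  have hxy' : y ^ 2 = x ^ 3 + x := by
    rw [hx, hy, ← map_pow, hxy, map_add, map_pow]
  have hba' : 2 * y * a - (3 * x ^ 2 + 1) * b = 1 := by
    have h := congrArg (Flow_i k) hba
    rw [map_sub, map_mul, map_mul, map_mul, map_add, map_mul, map_pow, map_one, map_ofNat,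
      map_ofNat] at h
    rw [hx, hy, ha, hb]
    exact h
  have hquad : u ^ 3 + -v ^ 2 + u = -(t * (1 + (a ^ 2 - 3 * x * b ^ 2) * t - b ^ 3 * t ^ 2)) := by
    rw [hu, hv]
    linear_combination -hxy' - t * hba'
  have hct : PowerSeries.constantCoeff t = 0 := by
    rw [ht, map_mul, PowerSeries.constantCoeff_X, mul_zero]
  have hcx : PowerSeries.constantCoeff x = Polynomial.C (xK k) := by
    rw [hx]
    exact PowerSeries.constantCoeff_C _
  have hcy : PowerSeries.constantCoeff y = Polynomial.C (yK k) := by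
    rw [hy]
    exact PowerSeries.constantCoeff_C _
  have hcu : PowerSeries.constantCoeff u = Polynomial.C (xK k) := by
    rw [hu, map_add, map_mul, hct, mul_zero, add_zero, hcx]
  have hcv : PowerSeries.constantCoeff v = Polynomial.C (yK k) := by
    rw [hv, map_add, map_mul, hct, mul_zero, add_zero, hcy]
  have hc2 : PowerSeries.constantCoeff (2 * u ^ 3 + -v ^ 2) = Polynomial.C (xK k ^ 3 - xK k) := by
    have h := congrArg (Polynomial.C : K0 k →+* Polynomial (K0 k)) hxy
    rw [map_pow, map_add, map_pow] at h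
    rw [map_add, map_mul, map_neg, map_pow, map_pow, hcu, hcv, map_ofNat, map_sub, map_pow]
    linear_combination -h
  have hunit : IsUnit (2 * u ^ 3 + -v ^ 2) := by
    rw [PowerSeries.isUnit_iff_constantCoeff, hc2]
    exact Polynomial.isUnit_C.2 (isUnit_iff_ne_zero.2 hne)
  have hc0 : PowerSeries.constantCoeff (u ^ 3 + -v ^ 2 + u) = 0 := by
    rw [hquad, map_neg, map_mul, hct, zero_mul, neg_zero]
  obtain ⟨r, hr⟩ := exists_quad (u ^ 3) (-v ^ 2) u hc0 hunit
  obtain ⟨Λ, hΛ⟩ : ∃ Λ, Λ = 1 + PowerSeries.X * r := ⟨_, rfl⟩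
  rw [← hΛ] at hr
  have hcΛ : PowerSeries.constantCoeff Λ = 1 := by
    rw [hΛ, map_add, map_mul, PowerSeries.constantCoeff_X, zero_mul, add_zero, map_one]
  -- the constant term of `r`
  have hr0 : PowerSeries.constantCoeff r * Polynomial.C (xK k ^ 3 - xK k) = Polynomial.X := by
    have h1 : (PowerSeries.X : PowerSeries (Polynomial (K0 k))) *
        (-(PowerSeries.C Polynomial.X * (1 + (a ^ 2 - 3 * x * b ^ 2) * t - b ^ 3 * t ^ 2)) +
          r * (2 * u ^ 3 + -v ^ 2) + PowerSeries.X * r ^ 2 * u ^ 3) = 0 := by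
      have h3 : u ^ 3 * Λ ^ 2 + -v ^ 2 * Λ + u = (u ^ 3 + -v ^ 2 + u) +
          PowerSeries.X * (r * (2 * u ^ 3 + -v ^ 2) + PowerSeries.X * r ^ 2 * u ^ 3) := by
        rw [hΛ]
        ring
      rw [h3, hquad] at hr
      rw [← hr]
      nth_rewrite 3 [ht]
      ring
    have h4 := (mul_eq_zero.1 h1).resolve_left PowerSeries.X_ne_zero
    have h5 := congrArg PowerSeries.constantCoeff h4
    rw [map_add, map_add, map_mul, map_neg, map_mul, map_mul, map_mul, hc2,
      PowerSeries.constantCoeff_X, PowerSeries.constantCoeff_C, map_sub, map_add, map_mul,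
      map_mul, map_pow, hct, map_one, map_zero] at h5
    have h6 : PowerSeries.constantCoeff (t ^ 2) = 0 := by
      rw [map_pow, hct, zero_pow two_ne_zero]
    linear_combination h5 - Polynomial.X * PowerSeries.constantCoeff b ^ 3 * h6
  -- the point
  have hpt : (Λ * v) ^ 2 = (Λ * u) ^ 3 + Λ * u := by
    linear_combination (-Λ) * hr
  obtain ⟨φ, hφ⟩ : ∃ φ, φ = Flow_R ((Flow_i k).comp (algebraMap k (K0 k))) (Λ * u) (Λ * v) hpt :=
    ⟨_, rfl⟩
  have hφx : φ (xR k) = Λ * u := by rw [hφ, Flow_R_x]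
  have hφy : φ (yR k) = Λ * v := by rw [hφ, Flow_R_y]
  have hφc : ∀ c, φ (algebraMap k (R0 k) c) = Flow_i k (algebraMap k (K0 k) c) := by
    intro c
    rw [hφ, Flow_R_c]
    rfl
  have hφ0 : ∀ z, PowerSeries.constantCoeff (φ z) = Polynomial.C (algebraMap (R0 k) (K0 k) z) := by
    intro z
    obtain ⟨f, rfl⟩ := psi_surjective z
    have e : (PowerSeries.constantCoeff.comp φ).comp (psi k).toRingHom =
        (Polynomial.C.comp (algebraMap (R0 k) (K0 k))).comp (psi k).toRingHom := by
      apply MvPolynomial.ringHom_ext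
      · intro c
        show PowerSeries.constantCoeff (φ (psi k (MvPolynomial.C c))) =
          Polynomial.C (algebraMap (R0 k) (K0 k) (psi k (MvPolynomial.C c)))
        rw [psi, MvPolynomial.aeval_C, hφc, ← IsScalarTower.algebraMap_apply]
        exact PowerSeries.constantCoeff_C _
      · intro j
        show PowerSeries.constantCoeff (φ (psi k (MvPolynomial.X j))) =
          Polynomial.C (algebraMap (R0 k) (K0 k) (psi k (MvPolynomial.X j)))
        rw [psi, MvPolynomial.aeval_X]
        fin_cases j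
        · show PowerSeries.constantCoeff (φ (xR k)) = Polynomial.C (xK k)
          rw [hφx, map_mul, hcΛ, hcu, one_mul]
        · show PowerSeries.constantCoeff (φ (yR k)) = Polynomial.C (yK k)
          rw [hφy, map_mul, hcΛ, hcv, one_mul]
    exact congrArg (fun φ => φ f) e
  have hφu : ∀ z : nonZeroDivisors (R0 k), IsUnit (φ z) := by
    intro z
    rw [PowerSeries.isUnit_iff_constantCoeff, hφ0]
    refine Polynomial.isUnit_C.2 (isUnit_iff_ne_zero.2 ?_)
    rw [Ne, map_eq_zero_iff _ hinj]
    exact nonZeroDivisors.coe_ne_zero z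
  obtain ⟨ψK, hψK⟩ : ∃ ψK : K0 k →+* PowerSeries (Polynomial (K0 k)),
      ψK = IsLocalization.lift (M := nonZeroDivisors (R0 k)) (S := K0 k) hφu := ⟨_, rfl⟩
  have hψR : ∀ z, ψK (algebraMap (R0 k) (K0 k) z) = φ z := by
    intro z
    rw [hψK, IsLocalization.lift_eq]
  have hψ0 : ∀ z, PowerSeries.constantCoeff (ψK z) = Polynomial.C z := by
    intro z
    have e : PowerSeries.constantCoeff.comp ψK = Polynomial.C := by
      apply IsLocalization.ringHom_ext (nonZeroDivisors (R0 k))
      refine RingHom.ext fun z => ?_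
      show PowerSeries.constantCoeff (ψK (algebraMap (R0 k) (K0 k) z)) =
        Polynomial.C (algebraMap (R0 k) (K0 k) z)
      rw [hψR, hφ0]
    exact congrArg (fun φ => φ z) e
  obtain ⟨Z, hZ⟩ : ∃ Z, Z = r * ψK (xK k ^ 3 - xK k) := ⟨_, rfl⟩
  have hZ0 : PowerSeries.constantCoeff Z = Polynomial.X := by
    rw [hZ, map_mul, hψ0, hr0]
  have hΛ' : 1 + ψK ((xK k ^ 3 - xK k)⁻¹) * (Z * PowerSeries.X) = Λ := by
    have h1 : ψK ((xK k ^ 3 - xK k)⁻¹) * ψK (xK k ^ 3 - xK k) = 1 := by
      rw [← map_mul, inv_mul_cancel₀ hne, map_one]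
    rw [hΛ, hZ]
    linear_combination (r * PowerSeries.X) * h1
  refine ⟨Polynomial.eval₂RingHom ψK Z, Λ, ?_, hcΛ, ?_⟩
  · intro z
    have e : PowerSeries.constantCoeff.comp (Polynomial.eval₂RingHom ψK Z) =
        RingHom.id (Polynomial (K0 k)) := by
      apply Polynomial.ringHom_ext
      · intro c
        show PowerSeries.constantCoeff (Polynomial.eval₂ ψK Z (Polynomial.C c)) = Polynomial.C c
        rw [Polynomial.eval₂_C, hψ0]
      · show PowerSeries.constantCoeff (Polynomial.eval₂ ψK Z Polynomial.X) = Polynomial.X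
        rw [Polynomial.eval₂_X, hZ0]
    exact congrArg (fun φ => φ z) e
  · intro δ f hf n
    have hC1 : (Polynomial.eval₂RingHom ψK Z).comp Polynomial.C = ψK := by
      refine RingHom.ext fun c => ?_
      show Polynomial.eval₂ ψK Z (Polynomial.C c) = ψK c
      rw [Polynomial.eval₂_C]
    have hX1 : Polynomial.eval₂RingHom ψK Z Polynomial.X = Z := Polynomial.eval₂_X _ _
    have h1 : ∑ x ∈ Finset.HasAntidiagonal.antidiagonal n,
        PowerSeries.coeff x.2 (Polynomial.eval₂RingHom ψK Z (OmI δ f x.1)) =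
        PowerSeries.coeff n (∑ l ∈ Finset.range (n + 1), PowerSeries.X ^ l *
          Polynomial.eval₂ ψK (Z * PowerSeries.X) (ThI δ (f.coeff l))) := by
      have h := Flow_A (Polynomial.eval₂RingHom ψK Z) (fun l => ThI δ (f.coeff l)) n n le_rfl
      rw [hC1, hX1] at h
      exact h
    have h3 : ∀ q, q ≤ n → PowerSeries.coeff q (PowerSeries.mk (Om f)) =
        PowerSeries.coeff q (∑ l ∈ Finset.range (n + 1), PowerSeries.X ^ l *
          Polynomial.eval₂ (Flow_i k) (PowerSeries.C Polynomial.X * PowerSeries.X)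
            ((Th k (f.coeff l)).map (algebraMap (R0 k) (K0 k)))) := by
      intro q hq
      have h := Flow_A (PowerSeries.C : Polynomial (K0 k) →+* PowerSeries (Polynomial (K0 k)))
        (fun l => (Th k (f.coeff l)).map (algebraMap (R0 k) (K0 k))) q n hq
      rw [PowerSeries.coeff_mk]
      refine Eq.trans ?_ h
      rw [Finset.Nat.sum_antidiagonal_eq_sum_range_succ
        (fun i m => PowerSeries.coeff m (PowerSeries.C (diag (fun l =>
          (Th k (f.coeff l)).map (algebraMap (R0 k) (K0 k))) i))),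
        Finset.sum_eq_single q]
      · rw [Nat.sub_self, PowerSeries.coeff_C, if_pos rfl]
        rfl
      · intro i hi hiq
        rw [Finset.mem_range] at hi
        rw [PowerSeries.coeff_C, if_neg (by omega)]
      · intro hq'
        exact absurd (Finset.mem_range.2 (Nat.lt_succ_self q)) hq'
    have h4 : PowerSeries.coeff n (Λ ^ δ * PowerSeries.mk (Om f)) =
        PowerSeries.coeff n (Λ ^ δ * ∑ l ∈ Finset.range (n + 1), PowerSeries.X ^ l *
          Polynomial.eval₂ (Flow_i k) (PowerSeries.C Polynomial.X * PowerSeries.X)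
            ((Th k (f.coeff l)).map (algebraMap (R0 k) (K0 k)))) := by
      rw [PowerSeries.coeff_mul, PowerSeries.coeff_mul]
      refine Finset.sum_congr rfl fun x hx => ?_
      rw [h3 x.2 (Finset.HasAntidiagonal.mem_antidiagonal.1 hx ▸ Nat.le_add_left _ _)]
    rw [h1, h4]
    congr 1
    rw [Finset.mul_sum]
    refine Finset.sum_congr rfl fun l _ => ?_
    rw [Flow_Th, ← hx, ← hy, ← ha, ← hb, ← ht, ← hu, ← hv]
    have h5 : Polynomial.eval₂ ψK (Z * PowerSeries.X) (ThI δ (f.coeff l)) =
        Λ ^ δ * MvPolynomial.eval₂ ((Flow_i k).comp (algebraMap k (K0 k))) ![u, v] (f.coeff l) := by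
      rw [ThI, Polynomial.eval₂_finsetSum, MvPolynomial.eval₂_eq', Finset.mul_sum]
      refine Finset.sum_congr rfl fun e he => ?_
      have h6 : e 0 + e 1 ≤ δ := by
        have h7 := MvPolynomial.le_totalDegree he
        rw [Finsupp.sum_fintype _ _ (by simp), Fin.sum_univ_two] at h7
        exact h7.trans (hf l)
      rw [Polynomial.eval₂_mul, Polynomial.eval₂_C, Polynomial.eval₂_pow, Polynomial.eval₂_add,
        Polynomial.eval₂_one, Polynomial.eval₂_mul, Polynomial.eval₂_C, Polynomial.eval₂_X, hΛ',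
        map_mul, map_mul, map_pow, map_pow, hψR, hψR, hφx, hφy,
        IsScalarTower.algebraMap_apply k (R0 k) (K0 k), hψR, hφc, Fin.prod_univ_two]
      have h8 : Λ ^ δ = Λ ^ (e 0) * Λ ^ (e 1) * Λ ^ (δ - e 0 - e 1) := by
        rw [← pow_add, ← pow_add]
        congr 1
        omega
      rw [h8]
      show Flow_i k (algebraMap k (K0 k) ((f.coeff l).coeff e)) * (Λ * u) ^ e 0 * (Λ * v) ^ e 1 *
        Λ ^ (δ - e 0 - e 1) = Λ ^ e 0 * Λ ^ e 1 * Λ ^ (δ - e 0 - e 1) *
          (Flow_i k (algebraMap k (K0 k) ((f.coeff l).coeff e)) * (u ^ e 0 * v ^ e 1))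
      ring
    rw [h5]
    ring

end ShghR
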