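import Mathlib

/-!
# Zeros of an irreducible polynomial in two variables
-/

namespace ShghR

open MvPolynomial

variable {k : Type*} [Field k]

theorem Zeros_ne [Infinite k] (c : MvPolynomial (Fin 1) k) (hc : c ≠ 0) :
    {s : Fin 1 → k | eval s c ≠ 0}.Infinite := by
  intro hfin
  have h1 : c * ∏ s ∈ hfin.toFinset, (X 0 - C (s 0)) = 0 := by
    apply MvPolynomial.funext
    intro t
    rw [map_mul, map_zero, map_prod]
    by_cases ht : eval t c = 0
    · rw [ht, zero_mul]
    · rw [Finset.prod_eq_zero (hfin.mem_toFinset.mpr ht) (by simp), mul_zero]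
  rcases mul_eq_zero.mp h1 with h2 | h2
  · exact hc h2
  · rw [Finset.prod_eq_zero_iff] at h2
    obtain ⟨s, _, hs⟩ := h2
    have h3 := congrArg (eval fun _ => s 0 + 1) hs
    simp at h3

theorem Zeros_aux [IsAlgClosed k] (f : MvPolynomial (Fin 2) k) (hf : 0 < degreeOf 0 f) :
    {q : Fin 2 → k | eval q f = 0}.Infinite := by
  have : Infinite k := IsAlgClosed.instInfinite
  obtain ⟨F, hF⟩ : ∃ F, F = finSuccEquiv k 1 f := ⟨_, rfl⟩
  have hFd : 0 < F.natDegree := by
    rw [hF, natDegree_finSuccEquiv]
    exact hf
  have hlc : F.leadingCoeff ≠ 0 := by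
    intro h
    rw [Polynomial.leadingCoeff_eq_zero] at h
    rw [h] at hFd
    simp at hFd
  refine Set.Infinite.of_image (fun q : Fin 2 → k => (Fin.tail q : Fin 1 → k))
    ((Zeros_ne F.leadingCoeff hlc).mono ?_)
  intro s hs
  have hd : (F.map (eval s)).degree ≠ 0 := by
    have h1 : (F.map (eval s)).natDegree = F.natDegree :=
      Polynomial.natDegree_map_of_leadingCoeff_ne_zero _ hs
    intro h2
    have h3 : (F.map (eval s)).natDegree = 0 := Polynomial.natDegree_eq_of_degree_eq_some h2
    omega
  obtain ⟨b, hb⟩ := IsAlgClosed.exists_root _ hd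
  refine ⟨Fin.cons b s, ?_, Fin.tail_cons _ _⟩
  change eval (Fin.cons b s : Fin (1 + 1) → k) f = 0
  rw [eval_eq_eval_mv_eval', ← hF]
  exact hb

/-- An irreducible polynomial in two variables over an algebraically closed field has infinitely many
zeros: it has positive degree in one of the variables, say `y`; for all but finitely many `x0` the
polynomial `f(x0, y)` is not constant, so it has a root. -/
theorem infinite_zeros [IsAlgClosed k] (f : MvPolynomial (Fin 2) k) (hf : Irreducible f) :
    {q : Fin 2 → k | eval q f = 0}.Infinite := by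
  by_cases h0 : 0 < degreeOf 0 f
  · exact Zeros_aux f h0
  by_cases h1 : 0 < degreeOf 1 f
  · have h2 := Zeros_aux (rename (Equiv.swap (0 : Fin 2) 1) f) (by
      have := degreeOf_rename_of_injective (p := f) (Equiv.swap (0 : Fin 2) 1).injective 1
      rw [Equiv.swap_apply_right] at this
      rw [this]
      exact h1)
    intro hfin
    apply h2
    refine (hfin.image (fun q : Fin 2 → k => q ∘ (Equiv.swap (0 : Fin 2) 1))).subset ?_
    intro q hq
    refine ⟨q ∘ (Equiv.swap (0 : Fin 2) 1), ?_, ?_⟩
    · have := hq
      simp only [Set.mem_ofPred_eq, eval_rename] at this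
      exact this
    · funext i
      simp
  · exfalso
    have h2 : f.totalDegree = 0 := by
      rw [totalDegree_eq_zero_iff]
      intro m hm x
      have e0 : degreeOf 0 f = 0 := by omega
      have e1 : degreeOf 1 f = 0 := by omega
      have e0' := degreeOf_le_iff.mp e0.le m hm
      have e1' := degreeOf_le_iff.mp e1.le m hm
      fin_cases x
      · exact Nat.le_zero.mp e0'
      · exact Nat.le_zero.mp e1'
    rw [totalDegree_eq_zero_iff_eq_C] at h2
    apply hf.not_isUnit
    rw [h2]
    refine IsUnit.map C (isUnit_iff_ne_zero.mpr ?_)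
    intro h
    rw [h, map_zero] at h2
    exact hf.ne_zero h2

end ShghR
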