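import Pool.Agent.ShghR.Bezout
import Pool.Agent.ShghR.Zeros

/-!
# The genus inequality
-/

namespace ShghR

open MvPolynomial ShghE

variable {k : Type*} [Field k]

/-- a polynomial is congruent to its value modulo the ideal of the point -/
theorem Genus_sub_mem (q : Fin 2 → k) (f : MvPolynomial (Fin 2) k) :
    f - C (eval q f) ∈ ptIdeal (q 0) (q 1) := by
  induction f using MvPolynomial.induction_on with
  | C a => simp
  | add f g hf hg =>
    have e : f + g - C (eval q (f + g)) = (f - C (eval q f)) + (g - C (eval q g)) := by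
      rw [map_add, C_add]; ring
    rw [e]
    exact Ideal.add_mem _ hf hg
  | mul_X f i hf =>
    have e : f * X i - C (eval q (f * X i)) =
        X i * (f - C (eval q f)) + C (eval q f) * (X i - C (q i)) := by
      rw [map_mul, eval_X, C_mul]; ring
    rw [e]
    refine Ideal.add_mem _ (Ideal.mul_mem_left _ _ hf) (Ideal.mul_mem_left _ _ ?_)
    have : ∀ i : Fin 2, (X i - C (q i) : MvPolynomial (Fin 2) k) ∈ ptIdeal (q 0) (q 1) := by
      rw [Fin.forall_fin_two]
      constructor
      · exact Ideal.subset_span (Set.mem_insert _ _)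
      · exact Ideal.subset_span (Set.mem_insert_of_mem _ rfl)
    exact this i

theorem Genus_mem_of_eval {q : Fin 2 → k} {f : MvPolynomial (Fin 2) k} (h : eval q f = 0) :
    f ∈ ptIdeal (q 0) (q 1) := by
  have := Genus_sub_mem q f
  rwa [h, C_0, sub_zero] at this

/-- an irreducible polynomial has positive degree -/
theorem Genus_degree_pos {f : MvPolynomial (Fin 2) k} (hf : Irreducible f) :
    1 ≤ f.totalDegree := by
  rcases Nat.eq_zero_or_pos f.totalDegree with h | h
  · exfalso
    rw [totalDegree_eq_zero_iff_eq_C] at h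
    rw [h] at hf
    have hne : coeff 0 f ≠ 0 := by
      intro h0
      rw [h0, C_0] at hf
      exact not_irreducible_zero hf
    exact hf.not_isUnit ((isUnit_iff_ne_zero.2 hne).map C)
  · exact h

/-- the arithmetic of the dimension count -/
theorem Genus_arith (a S : ℕ) (ha : 1 ≤ a) (hS : 2 ∣ S) :
    ∃ r : ℕ, 2 * r + 2 + S + (S + 3) * (S + 4) = (a + S + 3) * (a + S + 4) := by
  obtain ⟨s, rfl⟩ := hS
  obtain ⟨e, he⟩ : ∃ e, a * (a + 7) = 2 * e := by
    have : Even (a * (a + 7)) := by
      rw [Nat.even_mul]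
      rcases Nat.even_or_odd a with h | h
      · exact Or.inl h
      · right
        exact h.add_odd (by decide)
    obtain ⟨e, he⟩ := this
    exact ⟨e, by omega⟩
  obtain ⟨b, rfl⟩ : ∃ b, a = b + 1 := ⟨a - 1, by omega⟩
  have he4 : 4 ≤ e := by nlinarith
  refine ⟨e + 2 * (b * s) + s - 1, ?_⟩
  obtain ⟨e', rfl⟩ : ∃ e', e = e' + 1 := ⟨e - 1, by omega⟩
  have h1 : e' + 1 + 2 * (b * s) + s - 1 = e' + 2 * (b * s) + s := by omega
  rw [h1]
  nlinarith

/-- Genus inequality. Let `a = deg f ≥ 1`, `S = Σ ν_i (ν_i - 1)` (even). For `n` large put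
`r = ((n+1)(n+2) - (n-a+1)(n-a+2) - S)/2 - 1 = n a + (3a - a²)/2 - S/2 - 1 ≥ 0` and choose `r` further
zeros of `f` (`infinite_zeros`), different from the `q i`. By `exists_not_dvd` there is `g` of degree
`≤ n`, not divisible by `f`, with multiplicities `≥ ν_i - 1` at `q i` and `≥ 1` at the `r` points. As `f`
is irreducible, `f` and `g` are relatively prime and `bezout` gives `S + r ≤ a n`, that is
`S ≤ a² - 3 a + 2`. -/
theorem genus [IsAlgClosed k] {ι : Type*} [Fintype ι] (q : ι → Fin 2 → k)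
    (hq : Function.Injective q) (ν : ι → ℕ) (f : MvPolynomial (Fin 2) k) (hf : Irreducible f)
    (hν : ∀ i, f ∈ ptIdeal (q i 0) (q i 1) ^ ν i) :
    ∑ i, (ν i : ℤ) * (ν i - 1) ≤ ((f.totalDegree : ℤ) - 1) * (f.totalDegree - 2) := by
  classical
  set a := f.totalDegree with ha
  have ha1 : 1 ≤ a := Genus_degree_pos hf
  set S : ℕ := ∑ i, ν i * (ν i - 1) with hS
  have hS2 : 2 ∣ S := Finset.dvd_sum (fun i _ => (Nat.even_mul_pred_self (ν i)).two_dvd)
  obtain ⟨r, hr⟩ := Genus_arith a S ha1 hS2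
  -- the further zeros
  have hinf : ({p : Fin 2 → k | eval p f = 0} \ Set.range q).Infinite :=
    (infinite_zeros f hf).sdiff (Set.finite_range q)
  obtain ⟨em⟩ : Nonempty (ℕ ↪ ({p : Fin 2 → k | eval p f = 0} \ Set.range q : Set (Fin 2 → k))) :=
    ⟨hinf.natEmbedding⟩
  set z : Fin r → Fin 2 → k := fun j => (em j : Fin 2 → k) with hz
  have hz0 : ∀ j, eval (z j) f = 0 := fun j => (em j).2.1
  have hz1 : ∀ j, z j ∉ Set.range q := fun j => (em j).2.2
  have hzi : Function.Injective z := by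
    intro i j hij
    have := em.injective (Subtype.ext hij)
    exact Fin.ext this
  set Q : ι ⊕ Fin r → Fin 2 → k := Sum.elim q z with hQ
  have hQi : Function.Injective Q := by
    refine Function.Injective.sumElim hq hzi ?_
    intro i j h
    exact hz1 j ⟨i, h⟩
  set m : ι ⊕ Fin r → ℕ := Sum.elim (fun i => ν i - 1) (fun _ => 1) with hm
  set n := a + S + 2 with hn
  have hna : n - a = S + 2 := by omega
  have hsum : ∑ i, m i * (m i + 1) = S + 2 * r := by
    rw [Fintype.sum_sum_type]
    simp only [hm, Sum.elim_inl, Sum.elim_inr, Finset.sum_const, Finset.card_univ,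
      Fintype.card_fin, smul_eq_mul]
    have : ∑ i, (ν i - 1) * (ν i - 1 + 1) = S := by
      rw [hS]
      refine Finset.sum_congr rfl (fun i _ => ?_)
      rcases Nat.eq_zero_or_pos (ν i) with h | h
      · rw [h]
      · rw [Nat.sub_add_cancel h, mul_comm]
    rw [this]; ring
  obtain ⟨g, hg1, hg2, hg3⟩ := exists_not_dvd Q m n f hf.ne_zero (by omega) (by
    rw [hsum, ← ha, hna]
    have e1 : n + 1 = a + S + 3 := by omega
    have e2 : n + 2 = a + S + 4 := by omega
    have e3 : S + 2 + 1 = S + 3 := rfl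
    have e4 : S + 2 + 2 = S + 4 := rfl
    rw [e1, e2, e3, e4]
    omega)
  have hg0 : g ≠ 0 := by
    rintro rfl
    exact hg1 (dvd_zero f)
  have hrel : IsRelPrime f g := (hf.isRelPrime_iff_not_dvd).2 hg1
  set M : ι ⊕ Fin r → ℕ := Sum.elim ν (fun _ => 1) with hM
  have hfM : ∀ i, f ∈ ptIdeal (Q i 0) (Q i 1) ^ M i := by
    rintro (i | j)
    · exact hν i
    · simp only [hM, hQ, Sum.elim_inr, pow_one]
      exact Genus_mem_of_eval (hz0 j)
  have hb := bezout Q hQi M m f g hf.ne_zero hg0 hrel hfM hg3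
  have hsum2 : ∑ i, M i * m i = S + r := by
    rw [Fintype.sum_sum_type]
    simp only [hm, hM, Sum.elim_inl, Sum.elim_inr, Finset.sum_const, Finset.card_univ,
      Fintype.card_fin, smul_eq_mul, mul_one, ← hS]
  rw [hsum2] at hb
  have hb2 : S + r ≤ a * (a + S + 2) := hb.trans (Nat.mul_le_mul_left a hg2)
  have hSz : ∑ i, (ν i : ℤ) * (ν i - 1) = (S : ℤ) := by
    rw [hS, Nat.cast_sum]
    refine Finset.sum_congr rfl (fun i _ => ?_)
    rcases Nat.eq_zero_or_pos (ν i) with h | h
    · rw [h]; simp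
    · rw [Nat.cast_mul, Nat.cast_sub h]; simp
  rw [hSz]
  have hr' : (2 * r + 2 + S + (S + 3) * (S + 4) : ℤ) = (a + S + 3) * (a + S + 4) := by
    exact_mod_cast hr
  have hb' : (S + r : ℤ) ≤ a * (a + S + 2) := by exact_mod_cast hb2
  nlinarith

end ShghR
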