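import Mathlib

/-!
# Leading forms along a curve

`A` a commutative ring, `c ∈ A`, `𝔟(N, i0)` = the sequences `F : ℕ → A` (power series in `ξ`) such that
`c^(N-i) ∣ F i` for `i ≤ N` and `c^(N+1-i) ∣ F i` for `i < i0`. Let `ψ : A → A⟦ξ⟧` be a ring
homomorphism with `constantCoeff (ψ a) = a`, `V ∈ A⟦ξ⟧` with constant term one, and
`(Ψ F)_n = Σ_{i+j=n} coeff_j (ψ (F i))`.

(a) If `c^a ∣ z` then `c^(a-j) ∣ coeff_j (ψ z)` (because `ψ c = c + ξ η`).
(b) If `F ∈ 𝔟(N, i0)`, `i0 ≤ N`, then `Ψ F ∈ 𝔟(N, i0)` and `(Ψ F)_{i0} ≡ F_{i0}` modulo `c^(N+1-i0)`;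
    the same for `V F` instead of `Ψ F`.
(c) So if `Ψ F' = V F` and `F ∈ 𝔟(N, i0)` then `F' ∈ 𝔟(N, i0)` and `F'_{i0} ≡ F_{i0}` modulo
    `c^(N+1-i0)`, by induction on the lexicographic order of `(N, i0)`: `𝔟(0,0)` is everything,
    `𝔟(N, N+1) = 𝔟(N+1, 0)`, and if `F' ∈ 𝔟(N, i0)`, `F ∈ 𝔟(N, i0+1)` then
    `F'_{i0} ≡ (Ψ F')_{i0} = (V F)_{i0} ≡ F_{i0} ≡ 0` modulo `c^(N+1-i0)`.
-/

namespace ShghR

/-- `f` lies in the `a`-th power of the ideal generated by `c` and `X`. -/
private def LeadP {A : Type*} [CommRing A] (c : A) (a : ℕ) (f : PowerSeries A) : Prop :=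
  ∀ j, c ^ (a - j) ∣ PowerSeries.coeff j f

private theorem Lead_mul {A : Type*} [CommRing A] (c : A) {a b : ℕ} {f g : PowerSeries A}
    (hf : LeadP c a f) (hg : LeadP c b g) : LeadP c (a + b) (f * g) := by
  intro j
  rw [PowerSeries.coeff_mul]
  refine Finset.dvd_sum fun x hx => ?_
  have hx' := Finset.HasAntidiagonal.mem_antidiagonal.1 hx
  refine (pow_dvd_pow c (show a + b - j ≤ (a - x.1) + (b - x.2) by omega)).trans ?_
  rw [pow_add]
  exact mul_dvd_mul (hf x.1) (hg x.2)

private theorem Lead_a {A : Type*} [CommRing A] (c : A) (ψ : A →+* PowerSeries A)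
    (hψ : ∀ a, PowerSeries.constantCoeff (ψ a) = a) {a : ℕ} {z : A} (hz : c ^ a ∣ z) :
    LeadP c a (ψ z) := by
  have h1 : LeadP c 1 (ψ c) := by
    intro j
    rcases Nat.eq_zero_or_pos j with rfl | hj
    · have := hψ c
      rw [← PowerSeries.coeff_zero_eq_constantCoeff_apply] at this
      rw [this]
      simp
    · rw [show 1 - j = 0 by omega, pow_zero]
      exact one_dvd _
  have h2 : ∀ a, LeadP c a (ψ c ^ a) := by
    intro a
    induction a with
    | zero =>
      intro j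
      rw [show 0 - j = 0 by omega, pow_zero]
      exact one_dvd _
    | succ a ih =>
      rw [pow_succ]
      exact Lead_mul c ih h1
  obtain ⟨y, rfl⟩ := hz
  rw [map_mul, map_pow]
  have h3 : LeadP c 0 (ψ y) := by
    intro j
    rw [show 0 - j = 0 by omega, pow_zero]
    exact one_dvd _
  exact Lead_mul c (h2 a) h3

/-- the filtration -/
private def LeadB {A : Type*} [CommRing A] (c : A) (N i0 : ℕ) (F : ℕ → A) : Prop :=
  (∀ i ≤ N, c ^ (N - i) ∣ F i) ∧ ∀ i < i0, c ^ (N + 1 - i) ∣ F i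

private theorem Lead_congr {A : Type*} [CommRing A] (c : A) (ψ : A →+* PowerSeries A)
    (hψ : ∀ a, PowerSeries.constantCoeff (ψ a) = a) (V : PowerSeries A)
    (hV : PowerSeries.constantCoeff V = 1) (F F' : ℕ → A)
    (h : ∀ n, ∑ x ∈ Finset.HasAntidiagonal.antidiagonal n, PowerSeries.coeff x.2 (ψ (F' x.1)) =
      PowerSeries.coeff n (V * PowerSeries.mk F))
    (N i0 : ℕ) (hi0 : i0 ≤ N) (hF : LeadB c N i0 F) (hF' : LeadB c N i0 F') :
    c ^ (N + 1 - i0) ∣ F i0 - F' i0 := by
  have h0 := h i0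
  have hL : c ^ (N + 1 - i0) ∣
      ∑ x ∈ Finset.HasAntidiagonal.antidiagonal i0, PowerSeries.coeff x.2 (ψ (F' x.1)) -
        F' i0 := by
    have hmem : (i0, 0) ∈ Finset.HasAntidiagonal.antidiagonal i0 :=
      Finset.HasAntidiagonal.mem_antidiagonal.2 (by simp)
    have h1 : PowerSeries.coeff 0 (ψ (F' i0)) = F' i0 := by
      rw [PowerSeries.coeff_zero_eq_constantCoeff_apply]
      exact hψ _
    rw [← Finset.add_sum_erase _ _ hmem, h1, add_sub_cancel_left]
    refine Finset.dvd_sum fun x hx => ?_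
    obtain ⟨hne, hx⟩ := Finset.mem_erase.1 hx
    have hx' := Finset.HasAntidiagonal.mem_antidiagonal.1 hx
    have hlt : x.1 < i0 := by
      rcases Nat.lt_or_ge x.1 i0 with h | h
      · exact h
      · exfalso
        apply hne
        exact Prod.ext (show x.1 = i0 by omega) (show x.2 = 0 by omega)
    have h2 := Lead_a c ψ hψ (hF'.2 x.1 hlt) x.2
    refine (pow_dvd_pow c ?_).trans h2
    omega
  have hR : c ^ (N + 1 - i0) ∣ PowerSeries.coeff i0 (V * PowerSeries.mk F) - F i0 := by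
    rw [PowerSeries.coeff_mul]
    have hmem : (0, i0) ∈ Finset.HasAntidiagonal.antidiagonal i0 :=
      Finset.HasAntidiagonal.mem_antidiagonal.2 (by simp)
    have h1 : PowerSeries.coeff 0 V * PowerSeries.coeff i0 (PowerSeries.mk F) = F i0 := by
      rw [PowerSeries.coeff_zero_eq_constantCoeff_apply, hV, one_mul, PowerSeries.coeff_mk]
    rw [← Finset.add_sum_erase _ _ hmem, h1, add_sub_cancel_left]
    refine Finset.dvd_sum fun x hx => ?_
    obtain ⟨hne, hx⟩ := Finset.mem_erase.1 hx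
    have hx' := Finset.HasAntidiagonal.mem_antidiagonal.1 hx
    have hlt : x.2 < i0 := by
      rcases Nat.lt_or_ge x.2 i0 with h | h
      · exact h
      · exfalso
        apply hne
        exact Prod.ext (show x.1 = 0 by omega) (show x.2 = i0 by omega)
    rw [PowerSeries.coeff_mk]
    refine Dvd.dvd.mul_left ?_ _
    exact (pow_dvd_pow c (by omega)).trans (hF.2 x.2 hlt)
  rw [h0] at hL
  have := dvd_sub hL hR
  have h3 : PowerSeries.coeff i0 (V * PowerSeries.mk F) - F' i0 -
      (PowerSeries.coeff i0 (V * PowerSeries.mk F) - F i0) = F i0 - F' i0 := by ring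
  rwa [h3] at this

private theorem Lead_B {A : Type*} [CommRing A] (c : A) (ψ : A →+* PowerSeries A)
    (hψ : ∀ a, PowerSeries.constantCoeff (ψ a) = a) (V : PowerSeries A)
    (hV : PowerSeries.constantCoeff V = 1) (F F' : ℕ → A)
    (h : ∀ n, ∑ x ∈ Finset.HasAntidiagonal.antidiagonal n, PowerSeries.coeff x.2 (ψ (F' x.1)) =
      PowerSeries.coeff n (V * PowerSeries.mk F)) :
    ∀ (N i0 : ℕ), i0 ≤ N + 1 → LeadB c N i0 F → LeadB c N i0 F' := by
  intro N
  have step : ∀ (N : ℕ), (LeadB c N 0 F → LeadB c N 0 F') →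
      ∀ i0 ≤ N + 1, LeadB c N i0 F → LeadB c N i0 F' := by
    intro N hN i0
    induction i0 with
    | zero => exact fun _ => hN
    | succ i0 ih =>
      intro hi hF
      have hF0 : LeadB c N i0 F := ⟨hF.1, fun i hi' => hF.2 i (by omega)⟩
      have hF0' := ih (by omega) hF0
      have hc := Lead_congr c ψ hψ V hV F F' h N i0 (by omega) hF0 hF0'
      have h1 := hF.2 i0 (Nat.lt_succ_self _)
      refine ⟨hF0'.1, fun i hi' => ?_⟩
      rcases Nat.lt_or_ge i i0 with hlt | hge
      · exact hF0'.2 i hlt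
      · obtain rfl : i = i0 := by omega
        have h2 := dvd_sub h1 hc
        rwa [sub_sub_cancel] at h2
  induction N with
  | zero =>
    refine step 0 ?_
    intro _
    refine ⟨fun i hi => ?_, fun i hi => absurd hi (Nat.not_lt_zero _)⟩
    rw [show 0 - i = 0 by omega, pow_zero]
    exact one_dvd _
  | succ N ih =>
    refine step (N + 1) ?_
    intro hF
    have hF1 : LeadB c N (N + 1) F :=
      ⟨fun i hi => (pow_dvd_pow c (by omega)).trans (hF.1 i (by omega)),
        fun i hi => hF.1 i (by omega)⟩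
    have hF1' := ih (N + 1) le_rfl hF1
    refine ⟨fun i hi => ?_, fun i hi => absurd hi (Nat.not_lt_zero _)⟩
    rcases Nat.lt_or_ge i (N + 1) with hlt | hge
    · exact hF1'.2 i hlt
    · rw [show N + 1 - i = 0 by omega, pow_zero]
      exact one_dvd _

theorem lead_transfer {A : Type*} [CommRing A] (c : A) (ψ : A →+* PowerSeries A)
    (hψ : ∀ a, PowerSeries.constantCoeff (ψ a) = a) (V : PowerSeries A)
    (hV : PowerSeries.constantCoeff V = 1) (F F' : ℕ → A)
    (h : ∀ n, ∑ x ∈ Finset.HasAntidiagonal.antidiagonal n, PowerSeries.coeff x.2 (ψ (F' x.1)) =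
      PowerSeries.coeff n (V * PowerSeries.mk F))
    (N i0 : ℕ) (hi0 : i0 ≤ N) (h1 : ∀ i ≤ N, c ^ (N - i) ∣ F i)
    (h2 : ∀ i < i0, c ^ (N + 1 - i) ∣ F i) :
    (∀ i ≤ N, c ^ (N - i) ∣ F' i) ∧ (∀ i < i0, c ^ (N + 1 - i) ∣ F' i) ∧
      c ^ (N + 1 - i0) ∣ F i0 - F' i0 := by
  have hF : LeadB c N i0 F := ⟨h1, h2⟩
  have hF' := Lead_B c ψ hψ V hV F F' h N i0 (by omega) hF
  exact ⟨hF'.1, hF'.2, Lead_congr c ψ hψ V hV F F' h N i0 hi0 hF hF'⟩

/-- The same for series which start at `ξ^w`. Apply `lead_transfer` to `F (w + ·)`, `F' (w + ·)`: first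
`F' n = 0` for `n < w` by induction on `n` (`0 = Σ coeff_j (ψ (F' i)) = F' n`). -/
theorem lead_transfer_shift {A : Type*} [CommRing A] (c : A) (ψ : A →+* PowerSeries A)
    (hψ : ∀ a, PowerSeries.constantCoeff (ψ a) = a) (V : PowerSeries A)
    (hV : PowerSeries.constantCoeff V = 1) (F F' : ℕ → A)
    (h : ∀ n, ∑ x ∈ Finset.HasAntidiagonal.antidiagonal n, PowerSeries.coeff x.2 (ψ (F' x.1)) =
      PowerSeries.coeff n (V * PowerSeries.mk F))
    (w : ℕ) (hw : ∀ n < w, F n = 0)
    (N i0 : ℕ) (hi0 : i0 ≤ N) (h1 : ∀ i ≤ N, c ^ (N - i) ∣ F (w + i))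
    (h2 : ∀ i < i0, c ^ (N + 1 - i) ∣ F (w + i)) :
    (∀ i ≤ N, c ^ (N - i) ∣ F' (w + i)) ∧ (∀ i < i0, c ^ (N + 1 - i) ∣ F' (w + i)) ∧
      c ^ (N + 1 - i0) ∣ F (w + i0) - F' (w + i0) := by
  -- `F'` vanishes below `w`
  have hw' : ∀ n < w, F' n = 0 := by
    intro n
    induction n using Nat.strong_induction_on with
    | _ n ih =>
      intro hn
      have h0 := h n
      have hR : PowerSeries.coeff n (V * PowerSeries.mk F) = 0 := by
        rw [PowerSeries.coeff_mul]
        refine Finset.sum_eq_zero fun x hx => ?_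
        have hx' := Finset.HasAntidiagonal.mem_antidiagonal.1 hx
        rw [PowerSeries.coeff_mk, hw x.2 (by omega), mul_zero]
      have hmem : (n, 0) ∈ Finset.HasAntidiagonal.antidiagonal n :=
        Finset.HasAntidiagonal.mem_antidiagonal.2 (by simp)
      rw [hR, ← Finset.add_sum_erase _ _ hmem] at h0
      have hz : ∑ x ∈ (Finset.HasAntidiagonal.antidiagonal n).erase (n, 0),
          PowerSeries.coeff x.2 (ψ (F' x.1)) = 0 := by
        refine Finset.sum_eq_zero fun x hx => ?_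
        obtain ⟨hne, hx⟩ := Finset.mem_erase.1 hx
        have hx' := Finset.HasAntidiagonal.mem_antidiagonal.1 hx
        have hlt : x.1 < n := by
          rcases Nat.lt_or_ge x.1 n with h | h
          · exact h
          · exfalso
            apply hne
            exact Prod.ext (show x.1 = n by omega) (show x.2 = 0 by omega)
        rw [ih x.1 hlt (by omega), map_zero, map_zero]
      rw [hz, add_zero, PowerSeries.coeff_zero_eq_constantCoeff_apply, hψ] at h0
      exact h0
  refine lead_transfer c ψ hψ V hV (fun i => F (w + i)) (fun i => F' (w + i)) ?_ N i0 hi0 h1 h2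
  intro n
  have h0 := h (w + n)
  have hL : ∑ x ∈ Finset.HasAntidiagonal.antidiagonal (w + n),
      PowerSeries.coeff x.2 (ψ (F' x.1)) =
      ∑ x ∈ Finset.HasAntidiagonal.antidiagonal n, PowerSeries.coeff x.2 (ψ (F' (w + x.1))) := by
    rw [Finset.Nat.sum_antidiagonal_eq_sum_range_succ_mk,
      Finset.Nat.sum_antidiagonal_eq_sum_range_succ_mk, show (w + n).succ = w + n.succ from rfl,
      Finset.sum_range_add]
    have hz : ∑ x ∈ Finset.range w, PowerSeries.coeff (w + n - x) (ψ (F' x)) = 0 :=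
      Finset.sum_eq_zero fun x hx => by
        rw [hw' x (Finset.mem_range.1 hx), map_zero, map_zero]
    rw [hz, zero_add]
    refine Finset.sum_congr rfl fun x _ => ?_
    rw [Nat.add_sub_add_left]
  have hR : PowerSeries.coeff (w + n) (V * PowerSeries.mk F) =
      PowerSeries.coeff n (V * PowerSeries.mk fun i => F (w + i)) := by
    rw [mul_comm V, mul_comm V, PowerSeries.coeff_mul, PowerSeries.coeff_mul,
      Finset.Nat.sum_antidiagonal_eq_sum_range_succ_mk,
      Finset.Nat.sum_antidiagonal_eq_sum_range_succ_mk, show (w + n).succ = w + n.succ from rfl,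
      Finset.sum_range_add]
    have hz : ∑ x ∈ Finset.range w, PowerSeries.coeff x (PowerSeries.mk F) *
        PowerSeries.coeff (w + n - x) V = 0 :=
      Finset.sum_eq_zero fun x hx => by
        rw [PowerSeries.coeff_mk, hw x (Finset.mem_range.1 hx), zero_mul]
    rw [hz, zero_add]
    refine Finset.sum_congr rfl fun x _ => ?_
    rw [Nat.add_sub_add_left, PowerSeries.coeff_mk, PowerSeries.coeff_mk]
  rw [← hL, h0, hR]

end ShghR
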