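import Pool.Agent.ShghR.ResC

/-!
# The multiplicity along `C_m`

`F i`, `F' i` (`i ≥ 0`) the pieces of the family in the two charts, `c = (2g+1) μ - h Ξ - w`,
`Ξ = Σ Mf P`, `h = 2g(g+1)`. Claim: `C^(N-i) ∣ F i` for `i < N`, for all natural `N ≤ c`.

Induction on `N`. Assume the claim for `N` and `N + 1 ≤ c`; show `C^(N+1-i) ∣ F i` for `i ≤ N` by strong
induction on `i`. Assume that it fails for `i0` and holds for `i < i0`. By `hlead`, with `a = N - i0`,
`F i0 = C^a Q`, `F' i0 = C^a Q'`, `C ∣ Q - Q'` (cancel `C^a`), `C ∤ Q`; `Q'` is not zero.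
`D = w + i0 - h a` is a natural number bounding the degrees of `Q`, `Q'` (`deg C = h`).
With `W P = - Mf P - a w_P(C)`, `M = μ - a oo_T(C) = μ - a (2g + 1 + w_T(C))` (additivity of `w_P`, `oo`)
`res_norm` gives `h (- Ξ + a) + (2g+1)(μ - a (2g+1)) ≤ D` (`Mf T = 0`, `Σ w_P(C) = -1`), that is
`c ≤ i0 + a = N`, as `a (2g+1)² - 2 h a = a`. Contradiction.
-/

set_option linter.unusedSectionVars false

namespace ShghR

open Polynomial ShghE

variable {k K A : Type*} [Field k] [Field K] [Algebra k K] [AddCommGroup A]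
variable (E : EField k K A) (n : E.Twist)

theorem mult_C {v0 : k} (h0 : v0 ≠ 0) {g : ℕ} (hg : 1 ≤ g) {C : K[X]} (hC : E.IsC n v0 g C)
    (O : A) (hO : O ≠ E.T) (F F' : ℕ → K[X]) (w : ℕ) (hdeg : ∀ i, (F i).natDegree ≤ w + i)
    (hdeg' : ∀ i, (F' i).natDegree ≤ w + i)
    (Mf : A → ℤ) (hMf : (Function.support Mf).Finite) (hMT : Mf E.T = 0)
    (hFP : ∀ i P, P ≠ O → F i ≠ 0 → - Mf P ≤ E.w n P (F i))
    (hFO : ∀ i, F' i ≠ 0 → - Mf O ≤ E.w n O (F' i))
    (μ : ℤ) (hμ : ∀ i, F i ≠ 0 → μ ≤ oo (E.v E.T) (algebraMap k K v0) (F i))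
    (hlead : ∀ N i0 : ℕ, i0 ≤ N → (∀ i ≤ N, C ^ (N - i) ∣ F i) →
      (∀ i < i0, C ^ (N + 1 - i) ∣ F i) → C ^ (N - i0) ∣ F' i0 ∧ C ^ (N + 1 - i0) ∣ F i0 - F' i0)
    (N : ℕ) (hN : (N : ℤ) ≤ (2 * g + 1) * μ - 2 * g * (g + 1) * (∑ᶠ P, Mf P) - w) :
    ∀ i < N, C ^ (N - i) ∣ F i := by
  have hC0 : C ≠ 0 := hC.irr.ne_zero
  have hwpow : ∀ (P : A) (a : ℕ), E.w n P (C ^ a) = a * E.w n P C := by
    intro P a
    induction a with
    | zero =>
      have h1 := E.w_mul n P (F := (1 : K[X])) (G := 1) one_ne_zero one_ne_zero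
      rw [mul_one] at h1
      rw [pow_zero]
      push_cast
      linarith
    | succ a ih =>
      rw [pow_succ, E.w_mul n P (pow_ne_zero a hC0) hC0, ih]
      push_cast
      ring
  have hopow : ∀ a : ℕ, oo (E.v E.T) (algebraMap k K v0) (C ^ a) =
      a * oo (E.v E.T) (algebraMap k K v0) C := by
    intro a
    induction a with
    | zero =>
      have h1 := oo_mul (E.ord E.T) (algebraMap k K v0) (F := (1 : K[X])) (G := 1)
        one_ne_zero one_ne_zero
      rw [mul_one] at h1
      rw [pow_zero]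
      push_cast
      linarith
    | succ a ih =>
      rw [pow_succ, oo_mul (E.ord E.T) _ (pow_ne_zero a hC0) hC0, ih]
      push_cast
      ring
  have hooC : oo (E.v E.T) (algebraMap k K v0) C = 2 * g + 1 + E.w n E.T C := by
    have h1 := hC.m
    unfold EField.m mu at h1
    unfold EField.w
    rw [n.nT]
    linarith
  have hbC : ∑ᶠ P, E.w n P C = -1 := by
    have h1 := hC.b
    unfold EField.b at h1
    linarith
  induction N with
  | zero => exact fun i hi => absurd hi (Nat.not_lt_zero i)
  | succ N ih =>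
    have ihN := ih (by push_cast at hN; linarith)
    have hall : ∀ i ≤ N, C ^ (N - i) ∣ F i := by
      intro i hi
      rcases Nat.lt_or_ge i N with h | h
      · exact ihN i h
      · rw [show N - i = 0 by omega, pow_zero]
        exact one_dvd _
    intro i0
    induction i0 using Nat.strong_induction_on with
    | _ i0 ih0 =>
      intro hi0
      by_contra hcon
      have hi0N : i0 ≤ N := by omega
      have hprev : ∀ i < i0, C ^ (N + 1 - i) ∣ F i := fun i hi => ih0 i hi (by omega)
      obtain ⟨hd', hdd⟩ := hlead N i0 hi0N hall hprev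
      obtain ⟨a, ha⟩ : ∃ a, a = N - i0 := ⟨_, rfl⟩
      have ha1 : N + 1 - i0 = a + 1 := by omega
      rw [← ha] at hd'
      rw [ha1] at hdd hcon
      obtain ⟨Q, hQ⟩ := hall i0 hi0N
      rw [← ha] at hQ
      obtain ⟨Q', hQ'⟩ := hd'
      have hCa : C ^ a ≠ 0 := pow_ne_zero a hC0
      have hQQ : C ∣ Q - Q' := by
        rw [hQ, hQ', ← mul_sub, pow_succ] at hdd
        exact (mul_dvd_mul_iff_left hCa).1 hdd
      have hnQ : ¬ C ∣ Q := by
        intro h
        apply hcon
        rw [hQ, pow_succ]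
        exact mul_dvd_mul_left _ h
      have hnQ' : ¬ C ∣ Q' := by
        intro h
        apply hnQ
        have h3 := dvd_add hQQ h
        rwa [sub_add_cancel] at h3
      have hQ0 : Q ≠ 0 := fun h => hnQ (h ▸ dvd_zero C)
      have hQ0' : Q' ≠ 0 := fun h => hnQ' (h ▸ dvd_zero C)
      have hF0 : F i0 ≠ 0 := by rw [hQ]; exact mul_ne_zero hCa hQ0
      have hF0' : F' i0 ≠ 0 := by rw [hQ']; exact mul_ne_zero hCa hQ0'
      have hdQ : a * (2 * g * (g + 1)) + Q.natDegree ≤ w + i0 := by
        have h3 := hdeg i0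
        rw [hQ, natDegree_mul hCa hQ0, natDegree_pow, hC.deg] at h3
        exact h3
      have hdQ' : a * (2 * g * (g + 1)) + Q'.natDegree ≤ w + i0 := by
        have h3 := hdeg' i0
        rw [hQ', natDegree_mul hCa hQ0', natDegree_pow, hC.deg] at h3
        exact h3
      have hfin : (Function.support fun P => - Mf P - a * E.w n P C).Finite := by
        refine (hMf.union (E.w_fin n hC0)).subset ?_
        intro P hP
        rw [Function.mem_support] at hP
        by_contra hcon2
        rw [Set.mem_union, not_or, Function.mem_support, Function.mem_support, not_not,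
          not_not] at hcon2
        apply hP
        rw [hcon2.1, hcon2.2]
        ring
      have hres := res_norm E n h0 hg hC O hO hnQ hQQ
        (D := w + i0 - a * (2 * g * (g + 1))) (by omega) (by omega)
        (fun P => - Mf P - a * E.w n P C) hfin
        (by
          intro P hP
          have h3 := hFP i0 P hP hF0
          rw [hQ, E.w_mul n P hCa hQ0, hwpow] at h3
          show - Mf P - a * E.w n P C ≤ _
          linarith)
        (by
          have h3 := hFO i0 hF0'
          rw [hQ', E.w_mul n O hCa hQ0', hwpow] at h3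
          show - Mf O - a * E.w n O C ≤ _
          linarith)
        (μ - a * oo (E.v E.T) (algebraMap k K v0) C)
        (by
          have h3 := hμ i0 hF0
          rw [hQ, oo_mul (E.ord E.T) _ hCa hQ0, hopow] at h3
          linarith)
      have hsum : ∑ᶠ P, (- Mf P - a * E.w n P C) = - ∑ᶠ P, Mf P + a := by
        have h3 : ∀ P, - Mf P - a * E.w n P C = - Mf P + (-(a : ℤ)) * E.w n P C := fun P => by ring
        simp_rw [h3]
        rw [finsum_add_distrib, finsum_neg_distrib, ← mul_finsum, hbC]
        · ring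
        · refine hMf.subset fun P hP => ?_
          rw [Function.mem_support] at hP ⊢
          exact neg_ne_zero.1 hP
        · refine (E.w_fin n hC0).subset fun P hP => ?_
          rw [Function.mem_support] at hP ⊢
          exact right_ne_zero_of_mul hP
      rw [hsum, hooC, hMT] at hres
      have hD : ((w + i0 - a * (2 * g * (g + 1)) : ℕ) : ℤ) =
          w + i0 - a * (2 * g * (g + 1)) := by
        rw [Nat.cast_sub (by omega)]
        push_cast
        ring
      rw [hD] at hres
      have haN : (a : ℤ) = N - i0 := by rw [ha, Nat.cast_sub hi0N]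
      push_cast at hN
      have h5 : (a : ℤ) * ((2 * g + 1) ^ 2 - 2 * (2 * g * (g + 1))) = a := by ring
      nlinarith [hres, hN, h5, haN]

end ShghR
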