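import Pool.Agent.ShghR.Omega
import Pool.Agent.ShghE.Thick

/-!
# The multiplicity of all pieces at `(T, v0)`
-/

namespace ShghR

open ShghE WeierstrassCurve.Affine

variable {k : Type*} [Field k]

section OmT_aux

open Polynomial Thick

theorem OmT_coeff_eval {R A : Type*} [CommRing R] [CommRing A] (ψ : R →+* A) (a : A) (q : R[X])
    (i : ℕ) : (q.eval₂ (C.comp ψ) (C a * X)).coeff i = ψ (q.coeff i) * a ^ i := by
  induction q using Polynomial.induction_on' with
  | add p q hp hq => rw [eval₂_add, coeff_add, hp, hq, coeff_add, map_add, add_mul]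
  | monomial n r =>
    rw [eval₂_monomial, mul_pow, ← C_pow, RingHom.comp_apply, ← mul_assoc, ← C_mul,
      coeff_C_mul_X_pow, coeff_monomial]
    by_cases h : i = n
    · rw [if_pos h, if_pos h.symm, h]
    · rw [if_neg h, if_neg (fun h' => h h'.symm), map_zero, zero_mul]

theorem OmT_coeff_sum {R A : Type*} [CommRing R] [CommRing A] (ψ : R →+* A[X]) (q : R[X]) (n : ℕ) :
    (q.eval₂ ψ X).coeff n = ∑ l ∈ Finset.range (n + 1), (ψ (q.coeff l)).coeff (n - l) := by
  induction q using Polynomial.induction_on' with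
  | add p q hp hq =>
    rw [eval₂_add, coeff_add, hp, hq, ← Finset.sum_add_distrib]
    refine Finset.sum_congr rfl fun l _ => ?_
    rw [coeff_add, map_add, coeff_add]
  | monomial m r =>
    rw [eval₂_monomial, coeff_mul_X_pow']
    by_cases h : m ≤ n
    · rw [if_pos h, Finset.sum_eq_single m]
      · rw [coeff_monomial, if_pos rfl]
      · intro l _ hl
        rw [coeff_monomial, if_neg (fun h' => hl h'.symm), map_zero, coeff_zero]
      · intro h'
        exact absurd (Finset.mem_range.2 (by omega)) h'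
    · rw [if_neg h]
      symm
      refine Finset.sum_eq_zero fun l hl => ?_
      have hl' := Finset.mem_range.1 hl
      rw [coeff_monomial, if_neg (by omega), map_zero, coeff_zero]

variable {K : Type*} [Field K] (ι : R0 k →+* K)

/-- the substitution `s = (u + v0) ξ` in the expansion along the cubic -/
noncomputable def OmT_h0 (v0 : k) : MvPolynomial (Fin 2) k →+* K[X][X] :=
  (Polynomial.eval₂RingHom (C.comp (C.comp ι))
    (C (X + C (ι (algebraMap k (R0 k) v0))) * X)).comp (Th k).toRingHom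

/-- the substitution with `ξ ↦ ξ` -/
noncomputable def OmT_h (v0 : k) : (MvPolynomial (Fin 2) k)[X] →+* K[X][X] :=
  Polynomial.eval₂RingHom (OmT_h0 ι v0) X

theorem OmT_h0_coeff (v0 : k) (p : MvPolynomial (Fin 2) k) (i : ℕ) :
    (OmT_h0 ι v0 p).coeff i = C (ι ((Th k p).coeff i)) *
      (X + C (ι (algebraMap k (R0 k) v0))) ^ i := by
  have h := OmT_coeff_eval (C.comp ι) (X + C (ι (algebraMap k (R0 k) v0))) (Th k p) i
  exact h

theorem OmT_h_coeff (v0 : k) (f : (MvPolynomial (Fin 2) k)[X]) (n : ℕ) :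
    (OmT_h ι v0 f).coeff n = taylor (ι (algebraMap k (R0 k) v0))
      (diag (fun l => (Th k (f.coeff l)).map ι) n) := by
  have h := OmT_coeff_sum (OmT_h0 ι v0) f n
  have h1 : (OmT_h ι v0 f).coeff n = (f.eval₂ (OmT_h0 ι v0) X).coeff n := rfl
  rw [h1, h, taylor_apply, diag, Polynomial.sum_comp, ← Finset.sum_range_reflect]
  refine Finset.sum_congr rfl fun j hj => ?_
  have hj' : j < n + 1 := Finset.mem_range.1 hj
  rw [OmT_h0_coeff, mul_comp, C_comp, pow_comp, X_comp, coeff_map]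
  have e1 : n + 1 - 1 - j = n - j := by omega
  have e2 : n - (n - j) = j := by omega
  rw [e1, e2]

theorem OmT_h0_C (v0 a : k) :
    OmT_h0 ι v0 (MvPolynomial.C a) = C (C (ι (algebraMap k (R0 k) a))) := by
  have h : Th k (MvPolynomial.C a) = C (algebraMap k (R0 k) a) := by
    unfold Th
    rw [MvPolynomial.aeval_C]
    rfl
  change eval₂ (C.comp (C.comp ι)) (C (X + C (ι (algebraMap k (R0 k) v0))) * X)
    (Th k (MvPolynomial.C a)) = _
  rw [h, eval₂_C]
  rfl

theorem OmT_h0_X0 (v0 : k) : OmT_h0 ι v0 (MvPolynomial.X 0) =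
    C (C (ι (xR k))) + C (C (ι (be k))) *
      (C (X + C (ι (algebraMap k (R0 k) v0))) * X) := by
  have h : Th k (MvPolynomial.X 0) = C (xR k) + C (be k) * X := by
    unfold Th
    rw [MvPolynomial.aeval_X]
    rfl
  change (Polynomial.eval₂RingHom (C.comp (C.comp ι))
    (C (X + C (ι (algebraMap k (R0 k) v0))) * X)) (Th k (MvPolynomial.X 0)) = _
  rw [h, map_add, map_mul]
  simp only [coe_eval₂RingHom, eval₂_C, eval₂_X]
  rfl

theorem OmT_h0_X1 (v0 : k) : OmT_h0 ι v0 (MvPolynomial.X 1) =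
    C (C (ι (yR k))) + C (C (ι (al k))) *
      (C (X + C (ι (algebraMap k (R0 k) v0))) * X) := by
  have h : Th k (MvPolynomial.X 1) = C (yR k) + C (al k) * X := by
    unfold Th
    rw [MvPolynomial.aeval_X]
    rfl
  change (Polynomial.eval₂RingHom (C.comp (C.comp ι))
    (C (X + C (ι (algebraMap k (R0 k) v0))) * X)) (Th k (MvPolynomial.X 1)) = _
  rw [h, map_add, map_mul]
  simp only [coe_eval₂RingHom, eval₂_C, eval₂_X]
  rfl

theorem OmT_h_C (v0 : k) (p : MvPolynomial (Fin 2) k) :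
    OmT_h ι v0 (C p) = OmT_h0 ι v0 p := by
  change eval₂ (OmT_h0 ι v0) X (C p) = _
  rw [eval₂_C]

theorem OmT_h_X (v0 : k) : OmT_h ι v0 (X : (MvPolynomial (Fin 2) k)[X]) = X := by
  change eval₂ (OmT_h0 ι v0) X X = _
  rw [eval₂_X]

variable {v : K → ℤ} (hv : IsOrd v) (hR : ∀ r : R0 k, Vg v 0 (ι r))

include hv hR

theorem OmT_u (v0 : k) (N : ℕ) :
    Jt v N 0 (C (X + C (ι (algebraMap k (R0 k) v0))) * X : K[X][X]) := by
  have h1 : Jm v 0 (X + C (ι (algebraMap k (R0 k) v0)) : K[X]) :=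
    ((Jm.X hv).mono (by omega)).add hv (Jm.C (hR _))
  exact (Jt.C h1).mul hv (Jt.X hv)

theorem OmT_J0 (v0 : k) (N : ℕ) (p : MvPolynomial (Fin 2) k) : Jt v N 0 (OmT_h0 ι v0 p) := by
  induction p using MvPolynomial.induction_on with
  | C a => rw [OmT_h0_C]; exact Jt.C (Jm.C (hR _))
  | add p q hp hq => rw [map_add]; exact hp.add hv hq
  | mul_X p i hp =>
    rw [map_mul]
    refine hp.mul hv (m := 0) ?_
    fin_cases i
    · simp only [Fin.zero_eta, OmT_h0_X0]
      refine Jt.add hv (Jt.C (Jm.C (hR _))) ?_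
      exact (Jt.C (Jm.C (hR _))).mul hv (m := 0) (OmT_u ι hv hR v0 N)
    · simp only [Fin.mk_one, OmT_h0_X1]
      refine Jt.add hv (Jt.C (Jm.C (hR _))) ?_
      exact (Jt.C (Jm.C (hR _))).mul hv (m := 0) (OmT_u ι hv hR v0 N)

theorem OmT_J (v0 : k) (N : ℕ) (p : (MvPolynomial (Fin 2) k)[X]) :
    Jt v N 0 (OmT_h ι v0 p) := by
  induction p using Polynomial.induction_on' with
  | add p q hp hq => rw [map_add]; exact hp.add hv hq
  | monomial n a =>
    rw [← C_mul_X_pow_eq_monomial, map_mul, map_pow, OmT_h_X, OmT_h_C]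
    exact (OmT_J0 ι hv hR v0 N a).mul hv ((Jt.X hv).pow hv n)

theorem OmT_gen0 (hx1 : Vg v 1 (ι (xR k))) (v0 : k) (N : ℕ) :
    Jt v N 1 (OmT_h ι v0 (C (MvPolynomial.X 0) + C (MvPolynomial.C v0) * X)) := by
  set x := ι (xR k) with hxdef
  set t := ι (algebraMap k (R0 k) (3 / 2)) with ht
  have hbe : ι (be k) = -1 + (-t * x) * x := by
    unfold be
    rw [map_sub, map_neg, map_one, map_mul, map_pow]
    ring
  have e : OmT_h ι v0 (C (MvPolynomial.X 0) + C (MvPolynomial.C v0) * X) =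
      (C (C x) + (C (-X) * X + C (C ((-t * x) * x)) *
        (C (X + C (ι (algebraMap k (R0 k) v0))) * X)) : K[X][X]) := by
    rw [map_add, map_mul, OmT_h_C, OmT_h_C, OmT_h_X, OmT_h0_X0, OmT_h0_C, hbe]
    simp only [C_add, C_mul, C_neg, C_1]
    ring
  rw [e]
  have h1 : Jt v N 1 (C (C x) : K[X][X]) := Jt.C (Jm.C hx1)
  have h2 : Jt v N 1 (C (-X) * X : K[X][X]) := (Jt.C ((Jm.X hv).neg hv)).mul hv (Jt.X hv)
  have h3 : Vg v 1 ((-t * x) * x) := by
    have h4 : Vg v (0 + 1) (-t * x) := ((hR _).neg hv).mul hv hx1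
    exact (h4.mul hv hx1).mono (by omega)
  have h5 : Jt v N 1 (C (C ((-t * x) * x)) *
        (C (X + C (ι (algebraMap k (R0 k) v0))) * X) : K[X][X]) :=
    (Jt.C (Jm.C h3)).mul hv (m := 0) (OmT_u ι hv hR v0 N)
  exact h1.add hv (h2.add hv h5)

theorem OmT_gen1 (hy1 : Vg v 1 (ι (yR k))) (v0 : k) (N : ℕ) :
    Jt v N 1 (OmT_h ι v0 (C (MvPolynomial.X 1))) := by
  rw [OmT_h_C, OmT_h0_X1]
  have hal : Vg v 1 (ι (al k)) := by
    have e : ι (al k) = ι (-(algebraMap k (R0 k) (9 / 4) * xR k)) * ι (yR k) := by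
      rw [← map_mul]
      unfold al
      congr 1
      ring
    rw [e]
    exact ((hR _).mul hv hy1).mono (by omega)
  exact (Jt.C (Jm.C hy1)).add hv ((Jt.C (Jm.C hal)).mul hv (m := 0) (OmT_u ι hv hR v0 N))

theorem OmT_ideal (hx : Vg v 1 (ι (xR k))) (hy : Vg v 1 (ι (yR k)))
    (v0 : k) (N : ℕ) (μ : ℕ) : ∀ (f : (MvPolynomial (Fin 2) k)[X]),
    f ∈ (Ideal.span {C (MvPolynomial.X 0) + C (MvPolynomial.C v0) * X,
      C (MvPolynomial.X 1)} : Ideal (MvPolynomial (Fin 2) k)[X]) ^ μ →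
    Jt v N μ (OmT_h ι v0 f) := by
  induction μ with
  | zero =>
    intro f _
    exact OmT_J ι hv hR v0 N f
  | succ μ ih =>
    intro f hf
    rw [Ideal.IsTwoSided.pow_succ] at hf
    refine Submodule.mul_induction_on hf ?_ ?_
    · intro a ha b hb
      have hb' := ih b hb
      have ha' : Jt v N 1 (OmT_h ι v0 a) := by
        obtain ⟨p, q, rfl⟩ := Ideal.mem_span_pair.1 ha
        rw [map_add, map_mul, map_mul]
        refine Jt.add hv ?_ ?_
        · have := (OmT_J ι hv hR v0 N p).mul hv (OmT_gen0 ι hv hR hx v0 N)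
          simpa using this
        · have := (OmT_J ι hv hR v0 N q).mul hv (OmT_gen1 ι hv hR hy v0 N)
          simpa using this
      rw [map_mul, add_comm μ 1]
      exact ha'.mul hv hb'
    · intro a b ha hb
      rw [map_add]
      exact ha.add hv hb

end OmT_aux

/-- Multiplicity at `(T, X = v0)`. Let `Ω : k[x,y][ξ] → K[u][ξ]` be the ring homomorphism
`x ↦ x + be (u + v0) ξ`, `y ↦ y + al (u + v0) ξ`, `ξ ↦ ξ`; the coefficient of `ξ^n` of `Ω f` is
`taylor v0 (Om f n)`. With the filtration `Jt` of `ShghE/Thick.lean`: `Ω` maps everything to `Jt 0`,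
`Ω (x + v0 ξ) = x - u ξ - (3/2) x² (u + v0) ξ ∈ Jt 1`, `Ω y ∈ Jt 1`, so the `μ`-th power of the ideal is
mapped into `Jt μ` (`Jt.mul`, `Jt.add`; see `Thick.th_ideal`). -/
theorem Om_T (v : K0 k → ℤ) (hv : IsOrd v)
    (hk : ∀ c : k, c ≠ 0 → v (algebraMap k (K0 k) c) = 0)
    (hR : ∀ r : R0 k, r ≠ 0 → 0 ≤ v (algebraMap (R0 k) (K0 k) r))
    (hx : 1 ≤ v (algebraMap (R0 k) (K0 k) (xR k))) (hy : 1 ≤ v (algebraMap (R0 k) (K0 k) (yR k)))
    (v0 : k) (μ : ℕ) (f : Polynomial (MvPolynomial (Fin 2) k))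
    (hf : f ∈ (Ideal.span {Polynomial.C (MvPolynomial.X 0) + Polynomial.C (MvPolynomial.C v0) *
        Polynomial.X, Polynomial.C (MvPolynomial.X 1)} :
        Ideal (Polynomial (MvPolynomial (Fin 2) k))) ^ μ)
    (n : ℕ) (h0 : Om f n ≠ 0) :
    (μ : ℤ) ≤ oo v (algebraMap k (K0 k) v0) (Om f n) := by
  have hR' : ∀ r : R0 k, Thick.Vg v 0 (algebraMap (R0 k) (K0 k) r) := by
    intro r h
    exact_mod_cast hR r (fun h' => h (by rw [h', map_zero]))
  have htow : algebraMap k (K0 k) v0 = algebraMap (R0 k) (K0 k) (algebraMap k (R0 k) v0) :=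
    IsScalarTower.algebraMap_apply k (R0 k) (K0 k) v0
  have hJ : Thick.Jm v μ (Polynomial.taylor (algebraMap k (K0 k) v0) (Om f n)) := by
    rw [htow]
    have h := OmT_ideal (algebraMap (R0 k) (K0 k)) hv hR' (fun _ => by exact_mod_cast hx)
      (fun _ => by exact_mod_cast hy) v0 (n + 1) μ f hf n (by omega)
    rw [OmT_h_coeff] at h
    exact h
  have hT0 : Polynomial.taylor (algebraMap k (K0 k) v0) (Om f n) ≠ 0 := by
    intro h
    exact h0 ((Polynomial.taylor_injective (algebraMap k (K0 k) v0)) (by rw [h, map_zero]))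
  unfold oo
  rw [le_gv_iff hT0]
  intro j hj
  have h2 := hJ j hj
  have : (μ : ℤ) - j ≤ ((μ - j : ℕ) : ℤ) := by omega
  linarith

end ShghR
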