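import Pool.Agent.ShghR.Flow
import Pool.Agent.ShghR.OmT
import Pool.Agent.ShghR.Lead
import Pool.Agent.ShghR.MultC
import Pool.Agent.ShghR.EndPt
import Pool.Agent.ShghE.Main

/-!
# Multiplicity at the end point
-/

namespace ShghR

open MvPolynomial ShghE WeierstrassCurve WeierstrassCurve.Affine

variable {k : Type*} [Field k]

theorem MultEnd_reg [DecidableEq k] (CD : CurveData2 k) (x y : k)
    (h : (E0 k).Nonsingular x y) (r : R0 k) (hr : r ≠ 0) :
    0 ≤ CD.E.v (.some x y h) (algebraMap (R0 k) (K0 k) r) := by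
  have := CD.aff x y h r 0 hr (by simp)
  simpa using this

/-- the bounds at the affine places -/
theorem MultEnd_place [DecidableEq k] (CD : CurveData2 k)
    (n : CD.E.Twist) (p : Fin 9 → (E0 k).Point) (hp0 : ∀ i, p i ≠ 0)
    (hpi : Function.Injective p) (hn : n.n = divf 9 (fun _ => -1) p)
    (Z : Fin 10 → Fin 2 → k) (hZ : ∀ i, (E0 k).Nonsingular (Z i 0) (Z i 1))
    (hp : ∀ i : Fin 9, p i = Point.some (Z i.castSucc 0) (Z i.castSucc 1) (hZ i.castSucc))
    (f : Polynomial (MvPolynomial (Fin 2) k)) (δ : ℕ) (μ : Fin 10 → ℕ)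
    (hmult : ∀ l, ∀ i : Fin 9,
      f.coeff l ∈ ptIdeal (Z i.castSucc 0) (Z i.castSucc 1) ^ μ i.castSucc)
    (j : ℕ) (P : (E0 k).Point) (hP : P ≠ 0) (hF : Om f j ≠ 0) :
    - divf (3 * δ) (fun i => -(μ i.castSucc : ℤ)) p P ≤ CD.E.w n P (Om f j) := by
  have hnn : ∀ P, n.n P = divf 9 (fun _ => -1) p P := fun P => congrFun hn P
  unfold EField.w
  rw [hnn]
  rcases P with _ | ⟨x, y, hxy⟩
  · exact absurd rfl hP
  · by_cases hQ : ∃ i, (Point.some x y hxy : (E0 k).Point) = p i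
    · obtain ⟨i', hi'⟩ := hQ
      rw [hi', divf_apply _ _ _ hp0 hpi, divf_apply _ _ _ hp0 hpi, neg_neg, hp i']
      exact Om_aff _ _ _ (fun r m hr hrm => CD.aff _ _ _ r m hr hrm) f _ (fun l => hmult l i') _
        hF
    · push Not at hQ
      rw [divf_eq_zero _ _ _ (Point.some_ne_zero _) hQ,
        divf_eq_zero _ _ _ (Point.some_ne_zero _) hQ, neg_zero]
      exact Om_reg _ (fun r hr => MultEnd_reg CD x y hxy r hr) f _ hF

/-- the order at the moving point -/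
theorem MultEnd_T [DecidableEq k] (CD : CurveData2 k) (v0 : k)
    (f : Polynomial (MvPolynomial (Fin 2) k)) (m : ℕ)
    (hmove : f ∈ (Ideal.span {Polynomial.C (MvPolynomial.X 0) +
        Polynomial.C (MvPolynomial.C v0) * Polynomial.X, Polynomial.C (MvPolynomial.X 1)} :
        Ideal (Polynomial (MvPolynomial (Fin 2) k))) ^ m) (j : ℕ) (hF : Om f j ≠ 0) :
    (m : ℤ) ≤ oo (CD.E.v CD.E.T) (algebraMap k (K0 k) v0) (Om f j) := by
  have hxne : xR k ≠ 0 := by
    intro h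
    have h3 : psi k (X 0) = 0 := by simpa [psi] using h
    rw [psi_eq_zero_iff] at h3
    obtain ⟨c, hc⟩ := h3
    have hc0 : c ≠ 0 := by
      rintro rfl
      rw [mul_zero] at hc
      exact X_ne_zero _ hc
    have h4 := totalDegree_Geq_pow_mul (k := k) 1 hc0
    rw [pow_one, ← hc, totalDegree_X] at h4
    omega
  refine Om_T (CD.E.v CD.E.T) (CD.E.ord _) (fun c hc => CD.E.const c hc _) ?_ ?_ ?_ v0 _ f hmove
    _ hF
  · intro r hr
    rw [CD.T_eq]
    exact MultEnd_reg CD _ _ _ r hr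
  · rw [CD.T_eq]
    have := CD.aff 0 0 CD.T_ns (xR k) 1 hxne xR_mem
    exact_mod_cast this
  · rw [← CD.pi_eq, CD.E.pi_v]

/-- The heart: `f` a family with the nine fixed points and the moving point, `f.coeff l = G^(w-l) g_l` for
`l ≤ w`, not all `g_l` divisible by `G`, `f.coeff 0 ≠ 0`, `g ≥ 1`. Then `g_0` has multiplicity
`≥ (2g+1) μ_9 - 2g(g+1) Ξ - w` at the end point `z = T - g(g+1) s` of the curve `C_m`, `m = 2g+1`.

Proof. `F i = Om f (w + i)`, `F' i = OmI δ f (w + i)`. `Om f n = 0` for `n < w` (`Om_lt`). `exists_flow` and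
`lead_transfer_shift` give the hypothesis `hlead` of `mult_C` for every `C`. The degree bounds are
`diag_natDegree`; the bounds at the places are `Om_aff` (at `p_i`), `Om_reg` (other affine places),
`OmI_inf`, `Om_T`, with `Mf = divf (3 δ) (- μ_i) p` (see `ShghE.core`). `C` exists by `E.exists_C`.
Let `N = c` be a natural number `≤ (2g+1) μ_9 - 2g(g+1) Ξ - w`; `mult_C` gives `C^(c-i) ∣ F i` for
`i < c`. By `end_tau`, `end_coeff` (`z` is an affine point different from the `p_i`, so `n_z = 0` and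
`w_z(F i) ≥ 0` by `Om_reg`) the coefficient of `X^(w+i)` of `F i`, which is `coeff_{w+i} (Th (f.coeff 0))`
(`Om_coeff`), has order `≥ c - i` at `z` or vanishes. By `CD.aff_conv` the `j`-th coefficient of
`Th (f.coeff 0)` lies in `𝔫_z^(w+c-j)` for all `j < w + c` (for `j < w` it vanishes, `Th_Geq_pow_mul`), so
`f.coeff 0 = G^w g_0` lies in the `(w+c)`-th power of the ideal of `z` by `Th_mem_conv`, and `g_0` in the
`c`-th power by `ShghE.colon`. -/
theorem mult_end [IsAlgClosed k] [DecidableEq k] (h2 : (2 : k) ≠ 0) (CD : CurveData2 k)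
    (n : CD.E.Twist) (v0 : k) (hv0 : v0 ≠ 0) (hsym : CD.E.HasSym n v0)
    (B : ℕ) (hs : ∀ j : ℕ, 1 ≤ j → j ≤ B → j • n.s ≠ 0)
    (g : ℕ) (hg : 1 ≤ g) (hB : 2 * g * (g + 1) ≤ B)
    (p : Fin 9 → (E0 k).Point) (hp0 : ∀ i, p i ≠ 0) (hpT : ∀ i, p i ≠ CD.E.T)
    (hpi : Function.Injective p) (hn : n.n = divf 9 (fun _ => -1) p)
    (Z : Fin 10 → Fin 2 → k) (hZ : ∀ i, (E0 k).Nonsingular (Z i 0) (Z i 1))
    (hp : ∀ i : Fin 9, p i = Point.some (Z i.castSucc 0) (Z i.castSucc 1) (hZ i.castSucc))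
    (hz : (Point.some (Z (Fin.last 9) 0) (Z (Fin.last 9) 1) (hZ (Fin.last 9)) : (E0 k).Point) =
      CD.E.T - ((g * (g + 1) : ℕ) : ℤ) • n.s)
    (hzp : ∀ i : Fin 9, (Point.some (Z (Fin.last 9) 0) (Z (Fin.last 9) 1) (hZ (Fin.last 9)) :
      (E0 k).Point) ≠ p i)
    (f : Polynomial (MvPolynomial (Fin 2) k)) (δ : ℕ) (μ : Fin 10 → ℕ)
    (hdeg : ∀ l, (f.coeff l).totalDegree ≤ δ)
    (hmult : ∀ l, ∀ i : Fin 9,
      f.coeff l ∈ ptIdeal (Z i.castSucc 0) (Z i.castSucc 1) ^ μ i.castSucc)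
    (hmove : f ∈ (Ideal.span {Polynomial.C (MvPolynomial.X 0) +
        Polynomial.C (MvPolynomial.C v0) * Polynomial.X, Polynomial.C (MvPolynomial.X 1)} :
        Ideal (Polynomial (MvPolynomial (Fin 2) k))) ^ μ (Fin.last 9))
    (w : ℕ) (gg : ℕ → MvPolynomial (Fin 2) k)
    (hgg : ∀ l, l ≤ w → f.coeff l = Geq k ^ (w - l) * gg l)
    (c : ℕ) (hc : (c : ℤ) ≤ (2 * g + 1) * μ (Fin.last 9) -
      2 * g * (g + 1) * (3 * (δ : ℤ) - ∑ i : Fin 9, (μ i.castSucc : ℤ)) - w) :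
    gg 0 ∈ ptIdeal (Z (Fin.last 9) 0) (Z (Fin.last 9) 1) ^ c := by
  classical
  have hT0 : CD.E.T ≠ 0 := by
    rw [CD.T_eq]
    exact Point.some_ne_zero _
  have hnn : ∀ P, n.n P = divf 9 (fun _ => -1) p P := fun P => congrFun hn P
  obtain ⟨C, hC⟩ := CD.E.exists_C n hv0 hsym B hs g hg hB
  obtain ⟨ψ, U, hψ, hU, hflow⟩ := exists_flow (k := k) h2
  have hOm0 := Om_lt h2 f w gg hgg
  have hFP : ∀ i P, P ≠ 0 → Om f (w + i) ≠ 0 →
      - divf (3 * δ) (fun i => -(μ i.castSucc : ℤ)) p P ≤ CD.E.w n P (Om f (w + i)) :=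
    fun i P hP hF => MultEnd_place CD n p hp0 hpi hn Z hZ hp f δ μ hmult (w + i) P hP hF
  have hFO : ∀ i, OmI δ f (w + i) ≠ 0 →
      - divf (3 * δ) (fun i => -(μ i.castSucc : ℤ)) p 0 ≤ CD.E.w n 0 (OmI δ f (w + i)) := by
    intro i hF
    unfold EField.w
    rw [hnn, divf_zero _ _ _ hp0, divf_zero _ _ _ hp0]
    have h := OmI_inf CD δ f hdeg (w + i) hF
    linarith
  have hμT : ∀ i, Om f (w + i) ≠ 0 →
      ((μ (Fin.last 9) : ℕ) : ℤ) ≤ oo (CD.E.v CD.E.T) (algebraMap k (K0 k) v0) (Om f (w + i)) :=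
    fun i hF => MultEnd_T CD v0 f _ hmove (w + i) hF
  have hlead : ∀ N i0 : ℕ, i0 ≤ N → (∀ i ≤ N, C ^ (N - i) ∣ Om f (w + i)) →
      (∀ i < i0, C ^ (N + 1 - i) ∣ Om f (w + i)) →
      C ^ (N - i0) ∣ OmI δ f (w + i0) ∧ C ^ (N + 1 - i0) ∣ Om f (w + i0) - OmI δ f (w + i0) := by
    intro N i0 hi0 h1 h3
    have hV : PowerSeries.constantCoeff (U ^ δ) = 1 := by rw [map_pow, hU, one_pow]
    obtain ⟨h4, -, h5⟩ := lead_transfer_shift C ψ hψ (U ^ δ) hV (Om f) (OmI δ f)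
      (hflow δ f hdeg) w hOm0 N i0 hi0 h1 h3
    exact ⟨h4 i0 hi0, h5⟩
  have hmult := mult_C CD.E n hv0 hg hC 0 hT0.symm (fun i => Om f (w + i))
    (fun i => OmI δ f (w + i)) w (fun i => diag_natDegree _ _) (fun i => diag_natDegree _ _)
    (divf (3 * δ) (fun i => -(μ i.castSucc : ℤ)) p) (divf_fin _ _ _)
    (divf_eq_zero _ _ _ hT0 (fun i => (hpT i).symm)) hFP hFO _ hμT hlead c (by
      rw [divf_sum, Finset.sum_neg_distrib, ← sub_eq_add_neg]
      exact hc)
  have htau := end_tau CD.E n hC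
  rw [← hz] at htau
  have hnz : n.n (Point.some (Z (Fin.last 9) 0) (Z (Fin.last 9) 1) (hZ (Fin.last 9))) = 0 := by
    rw [hnn]
    exact divf_eq_zero _ _ _ (Point.some_ne_zero _) hzp
  have hab : (Z (Fin.last 9) 1) ^ 2 = (Z (Fin.last 9) 0) ^ 3 + Z (Fin.last 9) 0 :=
    eq_of_nonsingular (hZ (Fin.last 9))
  have hcoef : ∀ j, (Om f j).coeff j =
      algebraMap (R0 k) (K0 k) ((Th k (f.coeff 0)).coeff j) := by
    intro j
    rw [Om_coeff, if_pos le_rfl, Nat.sub_self]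
  have hf0 : f.coeff 0 = Geq k ^ w * gg 0 := by
    have h := hgg 0 (Nat.zero_le _)
    rwa [Nat.sub_zero] at h
  have hTh : f.coeff 0 ∈ ptIdeal (Z (Fin.last 9) 0) (Z (Fin.last 9) 1) ^ (w + c) := by
    refine Th_mem_conv h2 hab fun j hj => ?_
    rcases Nat.lt_or_ge j w with hjw | hjw
    · rw [hf0, (Th_Geq_pow_mul h2 w (gg 0)).1 j hjw]
      exact Ideal.zero_mem _
    · obtain ⟨i, rfl⟩ := Nat.exists_eq_add_of_le hjw
      by_cases hr : (Th k (f.coeff 0)).coeff (w + i) = 0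
      · rw [hr]
        exact Ideal.zero_mem _
      · have hic : i < c := by omega
        have hr' : (Om f (w + i)).coeff (w + i) ≠ 0 := by
          rw [hcoef, Ne, map_eq_zero_iff _ (IsFractionRing.injective (R0 k) (K0 k))]
          exact hr
        have hF : Om f (w + i) ≠ 0 := by
          intro h
          apply hr'
          rw [h, Polynomial.coeff_zero]
        have hw0 : 0 ≤ CD.E.w n (Point.some (Z (Fin.last 9) 0) (Z (Fin.last 9) 1)
            (hZ (Fin.last 9))) (Om f (w + i)) := by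
          have h := hFP i _ (Point.some_ne_zero (hZ (Fin.last 9))) hF
          rw [divf_eq_zero _ _ _ (Point.some_ne_zero _) hzp, neg_zero] at h
          exact h
        have h3 := end_coeff CD.E n hnz hC.irr.ne_zero hF htau (hmult i hic)
          (diag_natDegree _ _) hw0 hr'
        rw [hcoef] at h3
        refine CD.aff_conv _ _ (hZ (Fin.last 9)) _ _ hr ?_
        have e : w + c - (w + i) = c - i := by omega
        rw [e]
        exact h3
  rw [hf0] at hTh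
  have h4 := colon h2 hab w (w + c) hTh
  rwa [Nat.add_sub_cancel_left] at h4

end ShghR
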