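import Pool.Agent.ShghR.Mult

/-!
# Nef classes have nonnegative self-intersection
-/

namespace ShghR

open MvPolynomial ShghE

variable {k : Type*} [Field k]

/-- A nef class has nonnegative self-intersection: `m_i ≥ 0`. If `|m| > d` choose a real `r` with
`|m| < r`, `d r < |m|²`; for large `N` the class `(⌈N r⌉; ⌊N m_i⌋)` has positive expected dimension
(`exists_of_count`), so `Σ m_i ⌊N m_i⌋ ≤ d ⌈N r⌉`; divide by `N`. (`d ≥ 0`: take `f = 1`, `δ = 1`.) -/
theorem nef_sq (P : Fin 10 → Fin 2 → k) (d : ℝ) (m : Fin 10 → ℝ) (h : IsNef P d m) :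
    0 ≤ d ∧ ∑ i, m i ^ 2 ≤ d ^ 2 := by
  obtain ⟨hm, h⟩ := h
  have hd : 0 ≤ d := by
    have h1 := h 1 1 (fun _ => 0) one_ne_zero (by rw [totalDegree_one]; exact Nat.zero_le _)
      (fun i => by simp)
    simpa using h1
  refine ⟨hd, ?_⟩
  by_contra hcon
  push Not at hcon
  set s : ℝ := ∑ i, m i ^ 2 with hs
  have hs0 : 0 ≤ s := Finset.sum_nonneg fun i _ => sq_nonneg _
  set q : ℝ := Real.sqrt s with hq
  have hqs : q ^ 2 = s := Real.sq_sqrt hs0
  have hdq : d < q := Real.lt_sqrt_of_sq_lt hcon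
  have hq0 : 0 < q := lt_of_le_of_lt hd hdq
  set t : ℝ := q * (q - d) / (d + 1) with ht
  have hqd : 0 < q * (q - d) := mul_pos hq0 (by linarith)
  have ht0 : 0 < t := div_pos hqd (by linarith)
  have htd : t * (d + 1) = q * (q - d) := by
    rw [ht]
    field_simp
  set r : ℝ := q + t with hr
  have hr0 : 0 < r := by linarith
  have hqt : 0 < q * t := mul_pos hq0 ht0
  have htt : 0 < t * t := mul_pos ht0 ht0
  have hr2 : 0 < r ^ 2 - s := by
    have h0 : r ^ 2 - s = 2 * (q * t) + t * t := by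
      rw [hr, ← hqs]
      ring
    rw [h0]
    linarith
  have hdr : 0 < s - d * r := by
    have h0 : s - d * r = q * (q - d) - t * d := by
      rw [hr, ← hqs]
      ring
    rw [h0, ← htd]
    linarith
  set M : ℝ := ∑ i, m i with hM
  have hM0 : 0 ≤ M := Finset.sum_nonneg fun i _ => hm i
  obtain ⟨N, hN⟩ := exists_nat_gt (max (M / (r ^ 2 - s)) ((d + M) / (s - d * r)))
  have hN1 : M < N * (r ^ 2 - s) := by
    rw [← div_lt_iff₀ hr2]
    exact lt_of_le_of_lt (le_max_left _ _) hN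
  have hN2 : d + M < N * (s - d * r) := by
    rw [← div_lt_iff₀ hdr]
    exact lt_of_le_of_lt (le_max_right _ _) hN
  have hN0 : (0 : ℝ) < N := by
    by_contra hcon'
    push Not at hcon'
    have h0 : (N : ℝ) = 0 := le_antisymm hcon' (Nat.cast_nonneg N)
    rw [h0, zero_mul] at hN1
    linarith
  set a : ℕ := ⌈(N : ℝ) * r⌉₊ with ha
  set ν : Fin 10 → ℕ := fun i => ⌊(N : ℝ) * m i⌋₊ with hν
  have hν1 : ∀ i, (ν i : ℝ) ≤ N * m i := fun i =>
    Nat.floor_le (mul_nonneg hN0.le (hm i))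
  have hν2 : ∀ i, (N : ℝ) * m i - 1 ≤ ν i := fun i => by
    have := Nat.lt_floor_add_one ((N : ℝ) * m i)
    linarith
  have ha1 : (N : ℝ) * r ≤ a := Nat.le_ceil _
  have ha2 : (a : ℝ) ≤ N * r + 1 := (Nat.ceil_lt_add_one (by positivity)).le
  have hcount : ∑ i, ν i * (ν i + 1) < (a + 1) * (a + 2) := by
    have h1 : (∑ i, (ν i : ℝ) * ((ν i : ℝ) + 1)) < ((a : ℝ) + 1) * (a + 2) := by
      have h2 : ∑ i, (ν i : ℝ) * ((ν i : ℝ) + 1) ≤ ∑ i, ((N : ℝ) ^ 2 * m i ^ 2 + N * m i) := by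
        apply Finset.sum_le_sum
        intro i _
        have h3 : (0 : ℝ) ≤ ν i := Nat.cast_nonneg _
        have h4 := hν1 i
        have h5 : (ν i : ℝ) * (ν i : ℝ) ≤ (N * m i) * (N * m i) :=
          mul_self_le_mul_self h3 h4
        have h6 : (ν i : ℝ) * ((ν i : ℝ) + 1) = ν i * ν i + ν i := by ring
        have h7 : (N * m i) * (N * m i) = (N : ℝ) ^ 2 * m i ^ 2 := by ring
        rw [h6, ← h7]
        exact add_le_add h5 h4
      rw [Finset.sum_add_distrib, ← Finset.mul_sum, ← Finset.mul_sum] at h2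
      have h5 : ((N : ℝ) * r) ^ 2 ≤ (a : ℝ) ^ 2 := pow_le_pow_left₀ (by positivity) ha1 2
      have h6 : (0 : ℝ) ≤ a := Nat.cast_nonneg a
      have h7 : (N : ℝ) * M < N * (N * (r ^ 2 - s)) := mul_lt_mul_of_pos_left hN1 hN0
      have h8 : (N : ℝ) * (N * (r ^ 2 - s)) = (N * r) ^ 2 - N ^ 2 * s := by ring
      have h9 : ((a : ℝ) + 1) * (a + 2) = (a : ℝ) ^ 2 + 3 * a + 2 := by ring
      rw [h9]
      linarith
    exact_mod_cast h1
  obtain ⟨f, hf0, hfd, hfm⟩ := exists_of_count P ν a hcount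
  have h1 := h f a ν hf0 hfd hfm
  have h2 : (N : ℝ) * s - M ≤ ∑ i, m i * (ν i : ℝ) := by
    rw [hs, hM, Finset.mul_sum, ← Finset.sum_sub_distrib]
    apply Finset.sum_le_sum
    intro i _
    have h3 := mul_le_mul_of_nonneg_left (hν2 i) (hm i)
    have h4 : (N : ℝ) * m i ^ 2 - m i = m i * (N * m i - 1) := by ring
    rw [h4]
    exact h3
  have h3 : d * (a : ℝ) ≤ d * (N * r + 1) := mul_le_mul_of_nonneg_left ha2 hd
  have h4 : d * (N * r + 1) = N * (d * r) + d := by ring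
  have h5 : (N : ℝ) * (s - d * r) = N * s - N * (d * r) := by ring
  linarith

end ShghR
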