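import Pool.Agent.ShghR.Theta
import Pool.Agent.ShghE.Gauss

/-!
# The bihomogeneous pieces of a family of plane polynomials along the cubic

`f = Σ_l f_l ξ^l`, `f_l ∈ k[x,y]`. The series `Σ_l ξ^l Th(f_l)(s = X ξ)` has the coefficient
`Om f n = Σ_{j ≤ n} coeff_j (Th f_{n-j}) X^j` at `ξ^n`.
-/

namespace ShghR

open ShghE WeierstrassCurve.Affine

/-- the coefficient of `ξ^n` of `Σ_l ξ^l θ_l(X ξ)` -/
noncomputable def diag {A : Type*} [CommRing A] (θ : ℕ → Polynomial A) (n : ℕ) : Polynomial A :=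
  ∑ j ∈ Finset.range (n + 1), Polynomial.C ((θ (n - j)).coeff j) * Polynomial.X ^ j

theorem diag_coeff {A : Type*} [CommRing A] (θ : ℕ → Polynomial A) (n j : ℕ) :
    (diag θ n).coeff j = if j ≤ n then (θ (n - j)).coeff j else 0 := by
  unfold diag
  simp only [Polynomial.finsetSum_coeff, Polynomial.coeff_C_mul_X_pow]
  rw [Finset.sum_ite_eq (Finset.range (n + 1)) j (fun i => (θ (n - i)).coeff i)]
  simp only [Finset.mem_range, Nat.lt_succ_iff]

theorem diag_natDegree {A : Type*} [CommRing A] (θ : ℕ → Polynomial A) (n : ℕ) :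
    (diag θ n).natDegree ≤ n := by
  rw [Polynomial.natDegree_le_iff_coeff_eq_zero]
  intro j hj
  rw [diag_coeff, if_neg (by omega)]

variable {k : Type*} [Field k]

/-- the pieces of `f` -/
noncomputable def Om (f : Polynomial (MvPolynomial (Fin 2) k)) (n : ℕ) : Polynomial (K0 k) :=
  diag (fun l => (Th k (f.coeff l)).map (algebraMap (R0 k) (K0 k))) n

theorem Om_coeff (f : Polynomial (MvPolynomial (Fin 2) k)) (n j : ℕ) :
    (Om f n).coeff j =
      if j ≤ n then algebraMap (R0 k) (K0 k) ((Th k (f.coeff (n - j))).coeff j) else 0 := by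
  unfold Om
  rw [diag_coeff]
  simp only [Polynomial.coeff_map]

theorem Om_lt (h2 : (2 : k) ≠ 0) (f : Polynomial (MvPolynomial (Fin 2) k)) (w : ℕ)
    (g : ℕ → MvPolynomial (Fin 2) k) (hg : ∀ l, l ≤ w → f.coeff l = Geq k ^ (w - l) * g l) :
    ∀ n, n < w → Om f n = 0 := by
  intro n hn
  ext j
  rw [Om_coeff, Polynomial.coeff_zero]
  by_cases hj : j ≤ n
  · rw [if_pos hj, hg (n - j) (by omega),
      (Th_Geq_pow_mul h2 (w - (n - j)) (g (n - j))).1 j (by omega), map_zero]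
  · rw [if_neg hj]

theorem Om_eq (h2 : (2 : k) ≠ 0) (f : Polynomial (MvPolynomial (Fin 2) k)) (w : ℕ)
    (g : ℕ → MvPolynomial (Fin 2) k) (hg : ∀ l, l ≤ w → f.coeff l = Geq k ^ (w - l) * g l) :
    Om f w = ∑ j ∈ Finset.range (w + 1),
      Polynomial.C (algebraMap (R0 k) (K0 k) (psi k (g (w - j)))) * Polynomial.X ^ j := by
  unfold Om diag
  refine Finset.sum_congr rfl fun j hj => ?_
  rw [Finset.mem_range] at hj
  have h3 := (Th_Geq_pow_mul h2 j (g (w - j))).2
  rw [Polynomial.coeff_map, hg (w - j) (by omega), show w - (w - j) = j by omega, h3]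

/-- Orders at an affine place. `v` is the order at the point `(a, b)` (see `CurveData.aff`);
if all `f_l` have multiplicity `≥ μ` at `(a, b)` then the twisted Gauss order with `n = -1` is `≥ μ`. -/
theorem Om_aff (v : K0 k → ℤ) (a b : k)
    (hv : ∀ (r : R0 k) (m : ℕ), r ≠ 0 →
      r ∈ (CoordinateRing.XYIdeal (E0 k) a (Polynomial.C b)) ^ m →
      (m : ℤ) ≤ v (algebraMap (R0 k) (K0 k) r))
    (f : Polynomial (MvPolynomial (Fin 2) k)) (μ : ℕ)
    (hf : ∀ l, f.coeff l ∈ ptIdeal a b ^ μ) (n : ℕ) (h0 : Om f n ≠ 0) :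
    (μ : ℤ) ≤ gv v (-1) (Om f n) := by
  rw [le_gv_iff h0]
  intro j hj
  rw [Om_coeff] at hj ⊢
  by_cases hjn : j ≤ n
  · rw [if_pos hjn] at hj ⊢
    have h1 : (Th k (f.coeff (n - j))).coeff j ≠ 0 := by
      intro h
      rw [h, map_zero] at hj
      exact hj rfl
    have h2 := hv _ (μ - j) h1 (Th_mem (hf (n - j)) j)
    have h3 : (μ : ℤ) - j ≤ ((μ - j : ℕ) : ℤ) := by omega
    linarith
  · rw [if_neg hjn] at hj
    exact absurd rfl hj

/-- Orders at an affine place, no condition. -/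
theorem Om_reg (v : K0 k → ℤ) (hv : ∀ r : R0 k, r ≠ 0 → 0 ≤ v (algebraMap (R0 k) (K0 k) r))
    (f : Polynomial (MvPolynomial (Fin 2) k)) (n : ℕ) (h0 : Om f n ≠ 0) :
    0 ≤ gv v 0 (Om f n) := by
  rw [le_gv_iff h0]
  intro j hj
  rw [Om_coeff] at hj ⊢
  by_cases hjn : j ≤ n
  · rw [if_pos hjn] at hj ⊢
    have h1 : (Th k (f.coeff (n - j))).coeff j ≠ 0 := by
      intro h
      rw [h, map_zero] at hj
      exact hj rfl
    have h2 := hv _ h1
    linarith
  · rw [if_neg hjn] at hj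
    exact absurd rfl hj

end ShghR
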