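import Pool.Agent.ShghR.Omega
import Pool.Agent.ShghR.Curve2

/-!
# Expansion along the cubic near the point at infinity

`x^p y^q ↦ x^p y^q (1 + s / (x³ - x))^(δ - p - q)` (this is the homogenization of degree `δ` evaluated at
`(x, y, 1 + s/(x³ - x))`).
-/

namespace ShghR

open ShghE

variable {k : Type*} [Field k]

/-- `x` in the function field -/
noncomputable abbrev xK (k : Type*) [Field k] : K0 k := algebraMap (R0 k) (K0 k) (xR k)

/-- `y` in the function field -/
noncomputable abbrev yK (k : Type*) [Field k] : K0 k := algebraMap (R0 k) (K0 k) (yR k)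

/-- expansion near infinity -/
noncomputable def ThI (δ : ℕ) (f : MvPolynomial (Fin 2) k) : Polynomial (K0 k) :=
  ∑ e ∈ f.support, Polynomial.C (algebraMap k (K0 k) (f.coeff e) * xK k ^ e 0 * yK k ^ e 1) *
    (1 + Polynomial.C ((xK k ^ 3 - xK k)⁻¹) * Polynomial.X) ^ (δ - e 0 - e 1)

/-- the pieces of `f` near infinity -/
noncomputable def OmI (δ : ℕ) (f : Polynomial (MvPolynomial (Fin 2) k)) (n : ℕ) :
    Polynomial (K0 k) :=
  diag (fun l => ThI δ (f.coeff l)) n

theorem OmI_coeff (δ : ℕ) (f : Polynomial (MvPolynomial (Fin 2) k)) (n j : ℕ) :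
    (OmI δ f n).coeff j = if j ≤ n then (ThI δ (f.coeff (n - j))).coeff j else 0 :=
  diag_coeff _ _ _

theorem OmegaInf_coeff_pow (u : K0 k) (r j : ℕ) :
    ((1 + Polynomial.C u * Polynomial.X) ^ r).coeff j = (r.choose j : K0 k) * u ^ j := by
  have h : (1 + Polynomial.C u * Polynomial.X) ^ r =
      ((1 + Polynomial.X : Polynomial (K0 k)) ^ r).comp (Polynomial.C u * Polynomial.X) := by
    rw [Polynomial.pow_comp, Polynomial.add_comp, Polynomial.one_comp, Polynomial.X_comp]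
  rw [h, Polynomial.comp_C_mul_X_coeff, Polynomial.coeff_one_add_X_pow]

theorem OmegaInf_xK_ne : xK k ≠ 0 := by
  intro h
  exact Curve2_xR_ne_zero (IsFractionRing.injective (R0 k) (K0 k) (by rw [map_zero]; exact h))

theorem OmegaInf_yK_ne : yK k ≠ 0 := by
  intro h
  exact Curve2_yR_ne_zero (IsFractionRing.injective (R0 k) (K0 k) (by rw [map_zero]; exact h))

/-- order of `x³ - x` at infinity -/
theorem OmegaInf_cube [DecidableEq k] (CD : CurveData2 k) :
    xK k ^ 3 - xK k ≠ 0 ∧ CD.E.v 0 (xK k ^ 3 - xK k) = -6 := by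
  have hv := CD.E.ord 0
  have h1 : CD.E.v 0 (xK k ^ 3) = -6 := by
    rw [hv.pow OmegaInf_xK_ne, CD.vx]
    norm_num
  have h2 : CD.E.v 0 (-xK k) = -2 := by
    rw [hv.neg OmegaInf_xK_ne, CD.vx]
  have h3 := hv.add_of_lt (pow_ne_zero 3 (OmegaInf_xK_ne (k := k))) (y := -xK k)
    (fun _ => by rw [h1, h2]; norm_num)
  rw [← sub_eq_add_neg, h1] at h3
  exact h3

/-- order of one term at infinity -/
theorem OmegaInf_term [DecidableEq k] (CD : CurveData2 k) (c : k) (p q δ j : ℕ)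
    (hpq : p + q ≤ δ)
    (h : algebraMap k (K0 k) c * xK k ^ p * yK k ^ q *
      (((δ - p - q).choose j : K0 k) * ((xK k ^ 3 - xK k)⁻¹) ^ j) ≠ 0) :
    - 3 * (δ : ℤ) + j * 9 ≤ CD.E.v 0 (algebraMap k (K0 k) c * xK k ^ p * yK k ^ q *
      (((δ - p - q).choose j : K0 k) * ((xK k ^ 3 - xK k)⁻¹) ^ j)) := by
  have hv := CD.E.ord 0
  obtain ⟨hu, hvu⟩ := OmegaInf_cube CD
  have h1 := left_ne_zero_of_mul h
  have h2 := right_ne_zero_of_mul h
  have h3 := left_ne_zero_of_mul h1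
  have h4 := right_ne_zero_of_mul h1
  have h5 := left_ne_zero_of_mul h3
  have h6 := right_ne_zero_of_mul h3
  have h7 := left_ne_zero_of_mul h2
  have h8 := right_ne_zero_of_mul h2
  have hc : c ≠ 0 := by
    rintro rfl
    exact h5 (map_zero _)
  have hj : j ≤ δ - p - q := by
    by_contra hj
    rw [Nat.choose_eq_zero_of_lt (by omega), Nat.cast_zero] at h7
    exact h7 rfl
  have hb : CD.E.v 0 ((δ - p - q).choose j : K0 k) = 0 := by
    have e : ((δ - p - q).choose j : K0 k) =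
        algebraMap k (K0 k) ((δ - p - q).choose j : k) := by
      rw [map_natCast]
    rw [e] at h7 ⊢
    refine CD.E.const _ ?_ 0
    intro h0
    exact h7 (by rw [h0, map_zero])
  rw [hv.mul h1 h2, hv.mul h3 h4, hv.mul h5 h6, hv.mul h7 h8, CD.E.const c hc, hb,
    hv.pow OmegaInf_xK_ne, hv.pow OmegaInf_yK_ne, hv.pow (inv_ne_zero hu), hv.inv hu, hvu,
    CD.vx, CD.vy]
  omega

/-- Order at infinity: the coefficient of `s^j` of `x^p y^q (1 + s/(x³-x))^r`, `r = δ - p - q`, is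
`binom(r, j) x^p y^q (x³ - x)^(-j)` of order `≥ -2p - 3q + 6j ≥ 9j - 3δ` as `j ≤ r`. -/
theorem OmI_inf [DecidableEq k] (CD : CurveData2 k) (δ : ℕ)
    (f : Polynomial (MvPolynomial (Fin 2) k)) (hf : ∀ l, (f.coeff l).totalDegree ≤ δ) (n : ℕ)
    (h0 : OmI δ f n ≠ 0) : - 3 * (δ : ℤ) ≤ gv (CD.E.v 0) 9 (OmI δ f n) := by
  rw [le_gv_iff h0]
  intro j hj
  rw [OmI_coeff] at hj ⊢
  by_cases hjn : j ≤ n
  · rw [if_pos hjn] at hj ⊢
    unfold ThI at hj ⊢
    rw [Polynomial.finsetSum_coeff] at hj ⊢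
    refine (CD.E.ord 0).sum _ _ _ (fun e he h => ?_) hj
    rw [Polynomial.coeff_C_mul, OmegaInf_coeff_pow] at h ⊢
    have h1 : e 0 + e 1 ≤ δ := by
      have h2 := MvPolynomial.le_totalDegree he
      have h3 := hf (n - j)
      have h4 : (e.sum fun _ n => n) = e 0 + e 1 := by
        rw [Finsupp.sum_fintype _ _ (fun _ => rfl), Fin.sum_univ_two]
      omega
    exact OmegaInf_term CD _ (e 0) (e 1) δ j h1 h
  · rw [if_neg hjn] at hj
    exact absurd rfl hj

end ShghR
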