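import Pool.Agent.ShghE.Fm

/-!
# The norm inequality on the curve `C_m` with two representatives

`C = C_m`, `m = 2g+1 ≥ 3`, `h = deg C = 2g(g+1)`, `b(C) = 1`, `m(C) = m`. `Q ≡ Q'` modulo `C`, `C ∤ Q`; `Q` is
used at the places different from `O`, `Q'` at the place `O`. With formal degree `D` (for `Q`, `Q'`) and `h`
(for `C`) one has `r = Res(Q, C) = Res(Q', C) ≠ 0` (`Polynomial.resultant_add_mul_left`,
`resultant_add_left_deg`, `resultant_ne_zero`).
Let `d = deg Q`. The resultant with formal degree `D` is `±lc(C)^(D-d)` times the ordinary one, so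
`v_P r ≥ h w_P(Q) + D w_P(C) + D h n_P` for `P ≠ O, T` by `resultant_gv` and
`v_P(lc C) ≥ w_P(C) + h n_P`; the same at `O` with `Q'`; at `T` (`n_T = 0`)
`v_T r ≥ h w_T(Q) + D w_T(C) + m(Q) m(C)` by `resultant_mu`, where `m(Q) = oo_T(Q) - w_T(Q)`.
Sum over all places: `0 ≥ h Σ W_P + D Σ w_P(C) + (2g+1)(M - W_T)`, because
`h w_T(Q) + m (oo_T(Q) - w_T(Q)) = (h - m) w_T(Q) + m oo_T(Q) ≥ (h - m) W_T + m M` as `h ≥ m`
(`2g(g+1) ≥ 2g+1` for `g ≥ 1`), and `Σ w_P(C) = - b(C) = -1`, `Σ n_P = 0`.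
-/

set_option linter.unusedSectionVars false

namespace ShghR

open Polynomial ShghE

variable {k K A : Type*} [Field k] [Field K] [Algebra k K] [AddCommGroup A]
variable (E : EField k K A) (n : E.Twist)

private lemma ResC_fin_add {f g : A → ℤ} (hf : (Function.support f).Finite)
    (hg : (Function.support g).Finite) : (Function.support fun P => f P + g P).Finite :=
  (hf.union hg).subset (Function.support_add _ _)

private lemma ResC_fin_mul (c : ℤ) {f : A → ℤ} (hf : (Function.support f).Finite) :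
    (Function.support fun P => c * f P).Finite := by
  apply hf.subset
  intro P hP
  rw [Function.mem_support] at hP ⊢
  exact right_ne_zero_of_mul hP

private lemma ResC_sig_add {f g : A → ℤ} (hf : (Function.support f).Finite)
    (hg : (Function.support g).Finite) : ∑ᶠ P, (f P + g P) = ∑ᶠ P, f P + ∑ᶠ P, g P :=
  finsum_add_distrib hf hg

private lemma ResC_sig_mul (c : ℤ) (f : A → ℤ) : ∑ᶠ P, c * f P = c * ∑ᶠ P, f P :=
  (mul_finsum f c).symm

private lemma ResC_fin_T : (Function.support fun P : A => E.dT P).Finite := by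
  apply (Set.finite_singleton E.T).subset
  intro P hP
  rw [Set.mem_singleton_iff]
  by_contra h
  rw [Function.mem_support] at hP
  apply hP
  unfold EField.dT
  rw [if_neg h]

/-- Order of the resultant with formal degree `D`. -/
private lemma ResC_v {v : K → ℤ} (hv : IsOrd v) {Q C : K[X]} (hC : C ≠ 0)
    (h : resultant Q C ≠ 0) {D : ℕ} (hD : Q.natDegree ≤ D) :
    v (resultant Q C D C.natDegree) =
      ((D : ℤ) - Q.natDegree) * v C.leadingCoeff + v (resultant Q C) := by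
  obtain ⟨e, rfl⟩ := Nat.exists_eq_add_of_le hD
  rw [resultant_add_left_deg _ _ _ _ _ le_rfl]
  have hl : C.coeff C.natDegree ≠ 0 := leadingCoeff_ne_zero.mpr hC
  have h1 : ((-1 : K)) ^ (C.natDegree * e) ≠ 0 := pow_ne_zero _ (neg_ne_zero.mpr one_ne_zero)
  have h2 : C.coeff C.natDegree ^ e ≠ 0 := pow_ne_zero _ hl
  have h3 : v ((-1 : K)) = 0 := by rw [hv.neg one_ne_zero, hv.one]
  rw [hv.mul (mul_ne_zero h1 h2) h, hv.mul h1 h2, hv.pow (neg_ne_zero.mpr one_ne_zero), h3,
    hv.pow hl, leadingCoeff]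
  push_cast
  ring

private lemma ResC_gv {v : K → ℤ} (hv : IsOrd v) (N : ℤ) {Q C : K[X]} (hQ : Q ≠ 0) (hC : C ≠ 0)
    (h : resultant Q C ≠ 0) {D : ℕ} (hD : Q.natDegree ≤ D) :
    (C.natDegree : ℤ) * gv v N Q + D * gv v N C + D * C.natDegree * N ≤
      v (resultant Q C D C.natDegree) := by
  rw [ResC_v hv hC h hD]
  have h1 := resultant_gv hv N hQ hC h
  have h2 : gv v N C + (C.natDegree : ℤ) * N ≤ v C.leadingCoeff :=
    gv_le (leadingCoeff_ne_zero.mpr hC)
  have h3 : (0 : ℤ) ≤ (D : ℤ) - Q.natDegree := by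
    have : (Q.natDegree : ℤ) ≤ D := by exact_mod_cast hD
    linarith
  nlinarith [mul_le_mul_of_nonneg_left h2 h3]

private lemma ResC_mu {v : K → ℤ} (hv : IsOrd v) {c : K} (hc : c ≠ 0 → 0 ≤ v c) {Q C : K[X]}
    (hQ : Q ≠ 0) (hC : C ≠ 0) (h : resultant Q C ≠ 0) {D : ℕ} (hD : Q.natDegree ≤ D) :
    (C.natDegree : ℤ) * gv v 0 Q + D * gv v 0 C + mu v c Q * mu v c C ≤
      v (resultant Q C D C.natDegree) := by
  rw [ResC_v hv hC h hD]
  have h1 := resultant_mu hv hc hQ hC h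
  have h2 : gv v 0 C + (C.natDegree : ℤ) * 0 ≤ v C.leadingCoeff :=
    gv_le (leadingCoeff_ne_zero.mpr hC)
  have h3 : (0 : ℤ) ≤ (D : ℤ) - Q.natDegree := by
    have : (Q.natDegree : ℤ) ≤ D := by exact_mod_cast hD
    linarith
  nlinarith [mul_le_mul_of_nonneg_left h2 h3]

/-- The resultants (formal degree `D`) of congruent polynomials. -/
private lemma ResC_congr {Q Q' C : K[X]} (hC : C ≠ 0) (hQQ : C ∣ Q - Q') {D : ℕ}
    (hD : Q.natDegree ≤ D) (hD' : Q'.natDegree ≤ D) :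
    resultant Q C D C.natDegree = resultant Q' C D C.natDegree := by
  obtain ⟨p, hp⟩ := hQQ
  have hQ : Q = Q' + C * p := by rw [← hp]; ring
  by_cases hp0 : p = 0
  · rw [hQ, hp0, mul_zero, add_zero]
  · rw [hQ, resultant_add_mul_left _ _ _ _ _ _ le_rfl]
    have h1 : (C * p).natDegree ≤ D := by
      rw [← hp]
      exact (natDegree_sub_le _ _).trans (max_le hD hD')
    rw [natDegree_mul hC hp0] at h1
    omega

theorem res_norm {v0 : k} (h0 : v0 ≠ 0) {g : ℕ} (hg : 1 ≤ g) {C : K[X]} (hC : E.IsC n v0 g C)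
    (O : A) (hO : O ≠ E.T) {Q Q' : K[X]} (hQ : ¬ C ∣ Q) (hQQ : C ∣ Q - Q') {D : ℕ}
    (hD : Q.natDegree ≤ D) (hD' : Q'.natDegree ≤ D)
    (W : A → ℤ) (hW : (Function.support W).Finite)
    (hWP : ∀ P, P ≠ O → W P ≤ E.w n P Q) (hWO : W O ≤ E.w n O Q')
    (M : ℤ) (hM : M ≤ oo (E.v E.T) (algebraMap k K v0) Q) :
    (2 * (g : ℤ) * (g + 1)) * (∑ᶠ P, W P) + (2 * (g : ℤ) + 1) * (M - W E.T) ≤ D := by
  classical
  have hC0 : C ≠ 0 := hC.irr.ne_zero
  have hQ' : ¬ C ∣ Q' := by
    intro h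
    apply hQ
    have := dvd_add hQQ h
    rwa [sub_add_cancel] at this
  have hQ0 : Q ≠ 0 := by
    rintro rfl
    exact hQ (dvd_zero _)
  have hQ0' : Q' ≠ 0 := by
    rintro rfl
    exact hQ' (dvd_zero _)
  have hr : resultant Q C ≠ 0 :=
    resultant_ne_zero Q C (hC.irr.coprime_iff_not_dvd.mpr hQ).symm
  have hr' : resultant Q' C ≠ 0 :=
    resultant_ne_zero Q' C (hC.irr.coprime_iff_not_dvd.mpr hQ').symm
  have hcong := ResC_congr hC0 hQQ hD hD'
  have hR : resultant Q C D C.natDegree ≠ 0 := by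
    obtain ⟨e, he⟩ := Nat.exists_eq_add_of_le hD
    rw [he, resultant_add_left_deg _ _ _ _ _ le_rfl]
    exact mul_ne_zero (mul_ne_zero (pow_ne_zero _ (neg_ne_zero.mpr one_ne_zero))
      (pow_ne_zero _ (leadingCoeff_ne_zero.mpr hC0))) hr
  have hdeg : (C.natDegree : ℤ) = 2 * (g : ℤ) * (g + 1) := by
    rw [hC.deg]
    push_cast
    ring
  have hg' : (1 : ℤ) ≤ g := by exact_mod_cast hg
  -- the local inequalities
  have key : ∀ P, 0 ≤ E.v P (resultant Q C D C.natDegree) +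
      ((-(C.natDegree : ℤ)) * W P + ((-(D : ℤ)) * E.w n P C + ((-((D : ℤ) * C.natDegree)) * n.n P +
        (-((2 * (g : ℤ) + 1) * (M - W E.T))) * E.dT P))) := by
    intro P
    have hh : (0 : ℤ) ≤ C.natDegree := Int.natCast_nonneg _
    unfold EField.dT
    by_cases hP : P = E.T
    · rw [if_pos hP]
      subst hP
      have h1 := ResC_mu (E.ord E.T) (c := algebraMap k K v0)
        (fun _ => by rw [E.const v0 h0]) hQ0 hC0 hr hD
      have h2 : mu (E.v E.T) (algebraMap k K v0) C = 2 * g + 1 := hC.m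
      have h3 : mu (E.v E.T) (algebraMap k K v0) Q =
          oo (E.v E.T) (algebraMap k K v0) Q - gv (E.v E.T) 0 Q := rfl
      have h4 : W E.T ≤ gv (E.v E.T) 0 Q := by
        have := hWP E.T (Ne.symm hO)
        unfold EField.w at this
        rwa [n.nT] at this
      rw [h2, h3] at h1
      unfold EField.w
      rw [n.nT]
      rw [hdeg] at h1 ⊢
      have h5 : (0 : ℤ) ≤ 2 * (g : ℤ) * (g + 1) - (2 * g + 1) := by nlinarith
      have h6 := mul_le_mul_of_nonneg_left h4 h5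
      have h7 := mul_le_mul_of_nonneg_left hM (show (0 : ℤ) ≤ 2 * (g : ℤ) + 1 by linarith)
      nlinarith
    · rw [if_neg hP]
      by_cases hPO : P = O
      · subst hPO
        have h1 := ResC_gv (E.ord P) (n.n P) hQ0' hC0 hr' hD'
        rw [← hcong] at h1
        unfold EField.w at hWO ⊢
        have h2 := mul_le_mul_of_nonneg_left hWO hh
        linarith
      · have h1 := ResC_gv (E.ord P) (n.n P) hQ0 hC0 hr hD
        have h3 := hWP P hPO
        unfold EField.w at h3 ⊢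
        have h2 := mul_le_mul_of_nonneg_left h3 hh
        linarith
  have hs := finsum_nonneg key
  have hw := E.w_fin n hC0
  rw [ResC_sig_add (E.fin _ hR) (ResC_fin_add (ResC_fin_mul _ hW)
      (ResC_fin_add (ResC_fin_mul _ hw) (ResC_fin_add (ResC_fin_mul _ n.fin)
        (ResC_fin_mul _ (ResC_fin_T E))))),
    ResC_sig_add (ResC_fin_mul _ hW)
      (ResC_fin_add (ResC_fin_mul _ hw) (ResC_fin_add (ResC_fin_mul _ n.fin)
        (ResC_fin_mul _ (ResC_fin_T E)))),
    ResC_sig_add (ResC_fin_mul _ hw) (ResC_fin_add (ResC_fin_mul _ n.fin)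
        (ResC_fin_mul _ (ResC_fin_T E))),
    ResC_sig_add (ResC_fin_mul _ n.fin) (ResC_fin_mul _ (ResC_fin_T E)),
    ResC_sig_mul, ResC_sig_mul, ResC_sig_mul, ResC_sig_mul, E.deg _ hR, n.deg] at hs
  have h1 : ∑ᶠ P : A, E.dT P = 1 := by
    unfold EField.dT
    rw [finsum_eq_single _ E.T (fun x hx => if_neg hx), if_pos rfl]
  have h2 : ∑ᶠ P, E.w n P C = -1 := by
    have := hC.b
    unfold EField.b at this
    linarith
  rw [h1, h2, hdeg] at hs
  linarith

end ShghR
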