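import Pool.Agent.ShghR.Unfold
import Pool.Agent.ShghR.Perp
import Pool.Agent.ShghR.NefSq

/-!
# The round slices of the nef cone

For natural `j` and a class `D = (d; m)` with `m_9 = (2j+1)(3d - Σ_{i<9} m_i)`: `D` is nef if and only if
`d ≥ 0`, `m_9 ≥ 0`, `D² ≥ 0`.
-/

namespace ShghR

open MvPolynomial ShghE

variable {k : Type*} [Field k]

/-- `D♯ = (d - 3λ; m_i - λ, e)`, `λ = 2j(j+1)e`, `e = 3d - Σ_{i<9} m_i`, is in `K^⊥` and has the same
self-intersection as `D`. Apply `unfolding`. -/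
theorem slice_nef [IsAlgClosed k] (h2 : (2 : k) ≠ 0) (P : Fin 10 → Fin 2 → k)
    (hP : AlgebraicIndependent (⊥ : Subfield k) (fun ij : Fin 10 × Fin 2 => P ij.1 ij.2))
    (j : ℕ) (d : ℝ) (m : Fin 10 → ℝ)
    (hj : m (Fin.last 9) = (2 * j + 1) * (3 * d - ∑ i : Fin 9, m i.castSucc))
    (hd : 0 ≤ d) (hm : 0 ≤ m (Fin.last 9)) (hsq : ∑ i, m i ^ 2 ≤ d ^ 2) : IsNef P d m := by
  set e : ℝ := 3 * d - ∑ i : Fin 9, m i.castSucc with he
  set lam : ℝ := 2 * j * (j + 1) * e with hlam
  have hj1 : (0 : ℝ) < 2 * j + 1 := by positivity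
  have he0 : 0 ≤ e := by
    rw [hj] at hm
    by_contra hcon
    push Not at hcon
    have := mul_neg_of_pos_of_neg hj1 hcon
    linarith
  have hsum : ∑ i : Fin 9, m i.castSucc = 3 * d - e := by rw [he]; ring
  -- the class in the orthogonal complement of K
  set m' : Fin 10 → ℝ := fun i => if i = Fin.last 9 then e else m i - lam with hm'
  have hm'l : m' (Fin.last 9) = e := by rw [hm']; simp
  have hm'c : ∀ i : Fin 9, m' i.castSucc = m i.castSucc - lam := by
    intro i
    rw [hm']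
    simp only
    rw [if_neg (Fin.castSucc_lt_last i).ne]
  have hsum' : ∑ i : Fin 9, m' i.castSucc = 3 * d - e - 9 * lam := by
    simp_rw [hm'c]
    rw [Finset.sum_sub_distrib, hsum, Finset.sum_const, Finset.card_univ, Fintype.card_fin,
      nsmul_eq_mul]
    push_cast
    ring
  have hK : ∑ i, m' i = 3 * (d - 3 * lam) := by
    rw [Fin.sum_univ_castSucc, hsum', hm'l]
    ring
  have hsq9 : ∑ i : Fin 9, m' i.castSucc ^ 2 = ∑ i : Fin 9, m i.castSucc ^ 2 -
      2 * lam * (3 * d - e) + 9 * lam ^ 2 := by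
    have h1 : ∀ i : Fin 9, m' i.castSucc ^ 2 = m i.castSucc ^ 2 - 2 * lam * m i.castSucc +
        lam ^ 2 := fun i => by rw [hm'c]; ring
    simp_rw [h1]
    rw [Finset.sum_add_distrib, Finset.sum_sub_distrib, ← Finset.mul_sum, hsum, Finset.sum_const,
      Finset.card_univ, Fintype.card_fin, nsmul_eq_mul]
    push_cast
    ring
  rw [Fin.sum_univ_castSucc, hj] at hsq
  have hsq' : ∑ i : Fin 9, m' i.castSucc ^ 2 + e ^ 2 ≤ (d - 3 * lam) ^ 2 := by
    rw [hsq9]
    have h1 : ((2 * (j : ℝ) + 1) * e) ^ 2 = 2 * lam * e + e ^ 2 := by rw [hlam]; ring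
    rw [h1] at hsq
    nlinarith
  have hd' : 0 ≤ d - 3 * lam := by
    rcases he0.eq_or_lt with h0 | h0
    · rw [hlam, ← h0]
      simpa using hd
    · refine deg_nonneg (d - 3 * lam) (fun i => m' i.castSucc) e ?_ hsq'
      rw [hsum']
      linarith
  have hsq10 : ∑ i, m' i ^ 2 ≤ (d - 3 * lam) ^ 2 := by
    rw [Fin.sum_univ_castSucc, hm'l]
    exact hsq'
  have key := unfolding h2 P hP (d - 3 * lam) m' (nonneg_perp _ _ hd' hK hsq10) hK.le
    (numNef_perp _ _ hd' hK hsq10) (j : ℤ) e lam (by rw [hsum']; ring) (by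
      rw [hm'l, hlam]
      push_cast
      ring)
  have e1 : d - 3 * lam + 3 * lam = d := by ring
  rw [e1] at key
  have e2 : (fun i => if i = Fin.last 9 then |m' (Fin.last 9) + 2 * ((j : ℤ) : ℝ) * e| else
      m' i + lam) = m := by
    funext i
    by_cases hi : i = Fin.last 9
    · rw [if_pos hi, hi, hm'l, hj]
      push_cast
      have h3 : e + 2 * (j : ℝ) * e = (2 * j + 1) * e := by ring
      rw [h3, abs_of_nonneg (by positivity)]
    · rw [if_neg hi, hm']
      simp only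
      rw [if_neg hi]
      ring
  rw [e2] at key
  exact key

end ShghR
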