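import Pool.Agent.ShghE.Degen

/-!
# Expansion of plane polynomials along the cubic, affine part

`R = R0 k = k[x,y]/(y² - x³ - x)`. With `be = -1 - (3/2) x²`, `al = -(9/4) x y` one has in `R`
`2 y al - (3 x² + 1) be = 1`, so that `Th : k[X 0, X 1] → R[s]`, `X 0 ↦ x + be s`, `X 1 ↦ y + al s`
satisfies `Th G = s (1 + c2 s + c3 s²)`, `c2 = al² - 3 x be²`, `c3 = - be³`.
-/

namespace ShghR

open MvPolynomial ShghE WeierstrassCurve.Affine

variable (k : Type*) [Field k]

noncomputable def be : R0 k := -1 - algebraMap k (R0 k) (3 / 2) * xR k ^ 2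

noncomputable def al : R0 k := - (algebraMap k (R0 k) (9 / 4) * xR k * yR k)

noncomputable def c2 : R0 k := al k ^ 2 - 3 * xR k * be k ^ 2

noncomputable def c3 : R0 k := - be k ^ 3

/-- expansion along the cubic -/
noncomputable def Th : MvPolynomial (Fin 2) k →ₐ[k] Polynomial (R0 k) :=
  aeval ![Polynomial.C (xR k) + Polynomial.C (be k) * Polynomial.X,
    Polynomial.C (yR k) + Polynomial.C (al k) * Polynomial.X]

variable {k}

theorem yR_sq : yR k ^ 2 = xR k ^ 3 + xR k := by
  unfold yR xR
  rw [← map_pow, ← map_pow, ← map_add]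
  refine AdjoinRoot.mk_eq_mk.mpr ⟨1, ?_⟩
  rw [WeierstrassCurve.Affine.polynomial]
  simp

theorem be_al (h2 : (2 : k) ≠ 0) : 2 * yR k * al k - (3 * xR k ^ 2 + 1) * be k = 1 := by
  have h4 : (4 : k) ≠ 0 := by
    have : (4 : k) = 2 * 2 := by norm_num
    rw [this]; exact mul_ne_zero h2 h2
  have e1 : (2 : k) * (9 / 4) = 3 * (3 / 2) := by
    field_simp
    norm_num
  have e2 : (2 : k) * (9 / 4) = 3 + 3 / 2 := by
    field_simp
    norm_num
  have f1 := congrArg (algebraMap k (R0 k)) e1
  have f2 := congrArg (algebraMap k (R0 k)) e2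
  simp only [map_mul, map_add, map_ofNat] at f1 f2
  have hy := yR_sq (k := k)
  unfold al be
  linear_combination (-2 * algebraMap k (R0 k) (9 / 4) * xR k) * hy - xR k ^ 4 * f1 -
    xR k ^ 2 * f2

theorem Th_Geq (h2 : (2 : k) ≠ 0) : Th k (Geq k) =
    Polynomial.X * (1 + Polynomial.C (c2 k) * Polynomial.X +
      Polynomial.C (c3 k) * Polynomial.X ^ 2) := by
  have h1 := congrArg (Polynomial.C : R0 k →+* Polynomial (R0 k)) (be_al h2)
  have hy := congrArg (Polynomial.C : R0 k →+* Polynomial (R0 k)) (yR_sq (k := k))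
  simp only [map_mul, map_add, map_sub, map_pow, map_ofNat, map_one] at h1 hy
  rw [Geq, Th, map_sub, map_sub, map_pow, map_pow, aeval_X, aeval_X]
  simp only [Matrix.cons_val_zero, Matrix.cons_val_one, c2, c3, map_mul, map_sub, map_pow,
    map_neg, map_ofNat]
  linear_combination hy + Polynomial.X * h1

theorem Th_coeff_zero (f : MvPolynomial (Fin 2) k) : (Th k f).coeff 0 = psi k f := by
  have h : (Polynomial.constantCoeff : Polynomial (R0 k) →+* R0 k).comp
      (Th k : MvPolynomial (Fin 2) k →+* Polynomial (R0 k)) =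
      (psi k : MvPolynomial (Fin 2) k →+* R0 k) := by
    apply MvPolynomial.ringHom_ext
    · intro r
      simp only [RingHom.comp_apply, RingHom.coe_coe]
      rw [← MvPolynomial.algebraMap_eq, AlgHom.commutes, AlgHom.commutes]
      simp [Polynomial.algebraMap_apply]
    · intro i
      simp only [RingHom.comp_apply, RingHom.coe_coe, Th, psi, aeval_X]
      fin_cases i <;> simp
  exact RingHom.congr_fun h f

theorem Th_Geq_pow_mul (h2 : (2 : k) ≠ 0) (w : ℕ) (g : MvPolynomial (Fin 2) k) :
    (∀ j < w, (Th k (Geq k ^ w * g)).coeff j = 0) ∧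
      (Th k (Geq k ^ w * g)).coeff w = psi k g := by
  have h : Th k (Geq k ^ w * g) = Polynomial.X ^ w *
      ((1 + Polynomial.C (c2 k) * Polynomial.X +
        Polynomial.C (c3 k) * Polynomial.X ^ 2) ^ w * Th k g) := by
    rw [map_mul, map_pow, Th_Geq h2, mul_pow, mul_assoc]
  rw [h]
  constructor
  · intro j hj
    rw [Polynomial.coeff_X_pow_mul', if_neg (by omega)]
  · rw [Polynomial.coeff_X_pow_mul', if_pos le_rfl, Nat.sub_self, Polynomial.mul_coeff_zero,
      Th_coeff_zero]
    have : ((1 + Polynomial.C (c2 k) * Polynomial.X +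
        Polynomial.C (c3 k) * Polynomial.X ^ 2) ^ w : Polynomial (R0 k)).coeff 0 = 1 := by
      rw [Polynomial.coeff_zero_eq_eval_zero]
      simp
    rw [this, one_mul]

/-- polynomials whose `j`-th coefficient lies in `N^(m-j)` -/
def Theta_J {R : Type*} [CommRing R] (N : Ideal R) (m : ℕ) : Ideal (Polynomial R) where
  carrier := {F | ∀ j, F.coeff j ∈ N ^ (m - j)}
  add_mem' := fun {a b} ha hb j => by
    rw [Polynomial.coeff_add]
    exact Ideal.add_mem _ (ha j) (hb j)
  zero_mem' := fun j => by simp
  smul_mem' := fun c F hF j => by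
    rw [smul_eq_mul, Polynomial.coeff_mul]
    refine Ideal.sum_mem _ fun x hx => ?_
    rw [Finset.HasAntidiagonal.mem_antidiagonal] at hx
    exact Ideal.mul_mem_left _ _ (Ideal.pow_le_pow_right (by omega) (hF x.2))

theorem Theta_J_mul {R : Type*} [CommRing R] (N : Ideal R) (m n : ℕ) {F G : Polynomial R}
    (hF : F ∈ Theta_J N m) (hG : G ∈ Theta_J N n) : F * G ∈ Theta_J N (m + n) := by
  intro j
  rw [Polynomial.coeff_mul]
  refine Ideal.sum_mem _ fun x hx => ?_
  rw [Finset.HasAntidiagonal.mem_antidiagonal] at hx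
  have h1 := Ideal.mul_mem_mul (hF x.1) (hG x.2)
  rw [← pow_add] at h1
  exact Ideal.pow_le_pow_right (by omega) h1

theorem Theta_pt_le (a b : k) (m : ℕ) : ptIdeal a b ^ m ≤
    (Theta_J (CoordinateRing.XYIdeal (E0 k) a (Polynomial.C b)) m).comap
      (Th k : MvPolynomial (Fin 2) k →+* Polynomial (R0 k)) := by
  induction m with
  | zero =>
    intro f _
    rw [Ideal.mem_comap]
    intro j
    simp
  | succ m ih =>
    rw [pow_succ, Ideal.mul_le]
    intro f hf g hg
    have hf' := ih hf
    have h1 : ptIdeal a b ≤ (Theta_J (CoordinateRing.XYIdeal (E0 k) a (Polynomial.C b)) 1).comap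
        (Th k : MvPolynomial (Fin 2) k →+* Polynomial (R0 k)) := by
      rw [ptIdeal, Ideal.span_le]
      have key : ∀ u v : R0 k, u ∈ CoordinateRing.XYIdeal (E0 k) a (Polynomial.C b) →
          Polynomial.C u + Polynomial.C v * Polynomial.X ∈
          Theta_J (CoordinateRing.XYIdeal (E0 k) a (Polynomial.C b)) 1 := by
        intro u v hu j
        rcases j with _ | j
        · simpa using hu
        · have : (1 : ℕ) - (j + 1) = 0 := by omega
          rw [this]
          simp
      rintro x (rfl | rfl)
      · rw [SetLike.mem_coe, Ideal.mem_comap]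
        have e : (Th k : MvPolynomial (Fin 2) k →+* Polynomial (R0 k)) (X 0 - C a) =
            Polynomial.C (xR k - algebraMap k (R0 k) a) + Polynomial.C (be k) * Polynomial.X := by
          rw [RingHom.coe_coe, map_sub, ← MvPolynomial.algebraMap_eq, AlgHom.commutes, Th, aeval_X,
            Polynomial.algebraMap_apply]
          simp only [Matrix.cons_val_zero, map_sub]
          ring
        rw [e]
        apply key
        apply Ideal.subset_span
        left
        unfold CoordinateRing.XClass xR
        rw [Polynomial.C_sub, map_sub]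
        rfl
      · rw [SetLike.mem_coe, Ideal.mem_comap]
        have e : (Th k : MvPolynomial (Fin 2) k →+* Polynomial (R0 k)) (X 1 - C b) =
            Polynomial.C (yR k - algebraMap k (R0 k) b) + Polynomial.C (al k) * Polynomial.X := by
          rw [RingHom.coe_coe, map_sub, ← MvPolynomial.algebraMap_eq, AlgHom.commutes, Th, aeval_X,
            Polynomial.algebraMap_apply]
          simp only [Matrix.cons_val_one, Matrix.cons_val_zero, map_sub]
          ring
        rw [e]
        apply key
        apply Ideal.subset_span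
        right
        unfold CoordinateRing.YClass yR
        rw [map_sub]
        rfl
    have hg' := h1 hg
    rw [Ideal.mem_comap] at hf' hg' ⊢
    rw [map_mul]
    exact Theta_J_mul _ _ _ hf' hg'

/-- `Th` maps the ideal of the point into `(𝔫, s)`, `𝔫 = XYIdeal a b`, hence its `m`-th power into
`(𝔫, s)^m`, whose elements have `j`-th coefficient in `𝔫^(m-j)`. -/
theorem Th_mem {a b : k} {m : ℕ} {f : MvPolynomial (Fin 2) k} (hf : f ∈ ptIdeal a b ^ m) (j : ℕ) :
    (Th k f).coeff j ∈ (CoordinateRing.XYIdeal (E0 k) a (Polynomial.C b)) ^ (m - j) :=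
  Theta_pt_le a b m hf j

theorem Theta_map (a b : k) : CoordinateRing.XYIdeal (E0 k) a (Polynomial.C b) ≤
    (ptIdeal a b).map (psi k) := by
  unfold CoordinateRing.XYIdeal
  rw [Ideal.span_le]
  rintro x (rfl | rfl)
  · have e : psi k (X 0 - C a) = CoordinateRing.XClass (E0 k) a := by
      rw [map_sub, ← MvPolynomial.algebraMap_eq, AlgHom.commutes, psi, aeval_X]
      unfold CoordinateRing.XClass xR
      rw [Polynomial.C_sub, map_sub]
      rfl
    rw [SetLike.mem_coe, ← e]
    exact Ideal.mem_map_of_mem _ (Ideal.subset_span (Or.inl rfl))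
  · have e : psi k (X 1 - C b) = CoordinateRing.YClass (E0 k) (Polynomial.C b) := by
      rw [map_sub, ← MvPolynomial.algebraMap_eq, AlgHom.commutes, psi, aeval_X]
      unfold CoordinateRing.YClass yR
      rw [map_sub]
      rfl
    rw [SetLike.mem_coe, ← e]
    exact Ideal.mem_map_of_mem _ (Ideal.subset_span (Or.inr rfl))

theorem Theta_Geq_mem {a b : k} (hab : b ^ 2 = a ^ 3 + a) : Geq k ∈ ptIdeal a b := by
  have h : Geq k = (X 1 + C b) * (X 1 - C b) - (X 0 ^ 2 + C a * X 0 + C a ^ 2 + 1) *
      (X 0 - C a) := by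
    have h1 := congrArg (C : k →+* MvPolynomial (Fin 2) k) hab
    simp only [map_add, map_pow] at h1
    unfold Geq
    linear_combination h1
  rw [h]
  exact Ideal.sub_mem _ (Ideal.mul_mem_left _ _ (Ideal.subset_span (Or.inr rfl)))
    (Ideal.mul_mem_left _ _ (Ideal.subset_span (Or.inl rfl)))

/-- Converse. Induction on `m`: `psi f = coeff 0 ∈ 𝔫^m` is the restriction of some `f' ∈ (ptIdeal)^m`
(`psi` maps the ideal of the point onto `𝔫`), `f - f' = G g` (`psi_eq_zero_iff`), and
`Th (G g) = s (1 + c2 s + c3 s²) Th g` has `j`-th coefficient in `𝔫^(m-j)` by `Th_mem`; by (strong)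
induction on `j` the `j`-th coefficient of `Th g` is in `𝔫^(m-1-j)`. So `g ∈ (ptIdeal)^(m-1)` by the
induction hypothesis and `G` lies in `ptIdeal`. -/
theorem Th_mem_conv (h2 : (2 : k) ≠ 0) {a b : k} (hab : b ^ 2 = a ^ 3 + a) {m : ℕ}
    {f : MvPolynomial (Fin 2) k}
    (h : ∀ j < m, (Th k f).coeff j ∈
      (CoordinateRing.XYIdeal (E0 k) a (Polynomial.C b)) ^ (m - j)) :
    f ∈ ptIdeal a b ^ m := by
  induction m generalizing f with
  | zero => simp
  | succ m ih =>
    have h0 : psi k f ∈ (CoordinateRing.XYIdeal (E0 k) a (Polynomial.C b)) ^ (m + 1) := by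
      have := h 0 (by omega)
      rwa [Th_coeff_zero] at this
    have h1 : psi k f ∈ ((ptIdeal a b) ^ (m + 1)).map (psi k) := by
      rw [Ideal.map_pow]
      exact Ideal.pow_right_mono (Theta_map a b) _ h0
    obtain ⟨f', hf', he⟩ := (Ideal.mem_map_iff_of_surjective (psi k) psi_surjective).mp h1
    obtain ⟨g, hg⟩ := (psi_eq_zero_iff (f - f')).mp (by rw [map_sub, he, sub_self])
    have hT : ∀ j < m + 1, (Th k (Geq k * g)).coeff j ∈
        (CoordinateRing.XYIdeal (E0 k) a (Polynomial.C b)) ^ (m + 1 - j) := by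
      intro j hj
      rw [← hg, map_sub, Polynomial.coeff_sub]
      exact Ideal.sub_mem _ (h j hj) (Th_mem hf' j)
    have hG : Th k (Geq k * g) = Polynomial.X * (Th k g + Polynomial.X *
        (Polynomial.C (c2 k) * Th k g + Polynomial.X * (Polynomial.C (c3 k) * Th k g))) := by
      rw [map_mul, Th_Geq h2]
      ring
    have hgm : ∀ j < m, (Th k g).coeff j ∈
        (CoordinateRing.XYIdeal (E0 k) a (Polynomial.C b)) ^ (m - j) := by
      intro j
      induction j using Nat.strong_induction_on with
      | _ j ihj =>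
        intro hj
        have h3 := hT (j + 1) (by omega)
        rw [hG, Polynomial.coeff_X_mul, Polynomial.coeff_add,
          show m + 1 - (j + 1) = m - j by omega] at h3
        refine (Submodule.add_mem_iff_left _ ?_).mp h3
        rcases j with _ | j
        · simp
        · rw [Polynomial.coeff_X_mul, Polynomial.coeff_add, Polynomial.coeff_C_mul]
          refine Ideal.add_mem _ ?_ ?_
          · exact Ideal.mul_mem_left _ _ (Ideal.pow_le_pow_right (by omega)
              (ihj j (by omega) (by omega)))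
          · rcases j with _ | j
            · simp
            · rw [Polynomial.coeff_X_mul, Polynomial.coeff_C_mul]
              exact Ideal.mul_mem_left _ _ (Ideal.pow_le_pow_right (by omega)
                (ihj j (by omega) (by omega)))
    have hgm' := ih hgm
    have : f = f' + g * Geq k := by
      linear_combination hg
    rw [this]
    refine Ideal.add_mem _ hf' ?_
    rw [pow_succ]
    exact Ideal.mul_mem_mul hgm' (Theta_Geq_mem hab)

end ShghR
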